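import Pool.Agent.Lib.H5Z.CModel

/-! Chunk C5: existence of ultrafilters on a nontrivial Boolean algebra (Zorn or the prime ideal
theorem in Mathlib). -/

set_option autoImplicit false

open Set Function

namespace Pool.Agent.H5Z

theorem exists_UF (B : Type) [CompleteBooleanAlgebra B] [Nontrivial B] : Nonempty (UF B) := by
  have hd : Disjoint ((Order.PFilter.principal (⊤ : B) : Order.PFilter B) : Set B)
      ((Order.Ideal.principal (⊥ : B) : Order.Ideal B) : Set B) := by
    rw [Set.disjoint_left]
    intro a ha hb
    have h1 : ⊤ ≤ a := ha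
    have h2 : a ≤ ⊥ := hb
    exact top_ne_bot (α := B) (le_bot_iff.1 (h1.trans h2))
  obtain ⟨J, hJ, -, hJd⟩ := DistribLattice.prime_ideal_of_disjoint_filter_ideal hd
  have htop : (⊤ : B) ∉ J := fun h => Set.disjoint_left.1 hJd (show (⊤ : B) ≤ ⊤ from le_rfl) h
  exact ⟨{
    s := {a | a ∉ J}
    top := htop
    bot := fun h => h (Order.Ideal.bot_mem J)
    up := fun a b ha hab hb => ha (J.lower hab hb)
    inf := fun a b ha hb hab => by
      rcases hJ.mem_or_mem hab with h | h
      · exact ha h
      · exact hb h
    ultra := fun a => by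
      by_contra hc
      push Not at hc
      obtain ⟨h1, h2⟩ := hc
      have h1' : a ∈ J := by
        by_contra h
        exact h1 h
      have h2' : aᶜ ∈ J := by
        by_contra h
        exact h2 h
      have := Order.Ideal.sup_mem h1' h2'
      rw [sup_compl_eq_top] at this
      exact htop this }⟩

end Pool.Agent.H5Z
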