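import Pool.Agent.Lib.H5Z.CModel

/-! Chunk C3A. -/

set_option autoImplicit false

open Set Function

namespace Pool.Agent.H5Z.BSet

variable {B : Type} [CompleteBooleanAlgebra B]

/-- Mixing: `y = mk (Σ i, (x i).Ix) ... (b i ⊓ val)`. -/
theorem mix (I : Type) (b : I → B) (x : I → BSet B) (hb : ∀ i j, i ≠ j → b i ⊓ b j = ⊥) :
    ∃ y : BSet B, ∀ i, b i ≤ eqB y (x i) := by
  refine ⟨mk (Σ i, (x i).Ix) (fun p => (x p.1).el p.2) (fun p => b p.1 ⊓ (x p.1).val p.2), fun i => ?_⟩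
  rw [eqB_def]
  refine le_inf (le_iInf fun p => ?_) (le_iInf fun j => ?_)
  · rw [le_himp_iff]
    obtain ⟨k, j⟩ := p
    change b i ⊓ (b k ⊓ (x k).val j) ≤ ⨆ l : (x i).Ix, (x i).val l ⊓ eqB ((x k).el j) ((x i).el l)
    by_cases h : i = k
    · subst h
      refine le_iSup_of_le j ?_
      rw [eqB_refl, inf_top_eq]
      exact inf_le_right.trans inf_le_right
    · rw [← inf_assoc, hb i k h, bot_inf_eq]
      exact bot_le
  · rw [le_himp_iff]
    refine le_iSup_of_le (⟨i, j⟩ : Σ i, (x i).Ix) ?_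
    change b i ⊓ (x i).val j ≤ (b i ⊓ (x i).val j) ⊓ eqB ((x i).el j) ((x i).el j)
    rw [eqB_refl, inf_top_eq]

end Pool.Agent.H5Z.BSet
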