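import Pool.Agent.Lib.H5Z.CModel
import Pool.Agent.Lib.H5Z.C3A

/-! Chunk C3B. -/

set_option autoImplicit false

open Set Function

namespace Pool.Agent.H5Z.BSet

variable {B : Type} [CompleteBooleanAlgebra B]

/-- The maximum principle (index the range of `F` by itself, make it an antichain with the same
supremum using a well-order, and mix). -/
theorem maxp (F : BSet B → B) (hF : ExtB F) : ∃ a, F a = ⨆ b, F b := by
  classical
  let I : Type := {b : B // b ∈ range F}
  let r : I → I → Prop := WellOrderingRel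
  have hx : ∀ i : I, ∃ x : BSet B, F x = i.1 := fun i => i.2
  choose x hx using hx
  let D : I → B := fun i => ⨆ j : {j : I // r j i}, (j.1.1 : B)
  let c : I → B := fun i => i.1 ⊓ (D i)ᶜ
  have hlt : ∀ i j : I, r j i → c i ⊓ c j = ⊥ := by
    intro i j hji
    have h1 : c j ≤ D i := inf_le_left.trans (le_iSup (fun j : {j : I // r j i} => (j.1.1 : B)) ⟨j, hji⟩)
    have h2 : c i ≤ (D i)ᶜ := inf_le_right
    exact le_bot_iff.1 ((inf_le_inf h2 h1).trans (by rw [compl_inf_eq_bot]))
  have hc : ∀ i j : I, i ≠ j → c i ⊓ c j = ⊥ := by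
    intro i j hij
    rcases trichotomous_of r i j with h | h | h
    · rw [inf_comm]
      exact hlt j i h
    · exact (hij h).elim
    · exact hlt i j h
  obtain ⟨y, hy⟩ := mix I c x hc
  refine ⟨y, le_antisymm (le_iSup F y) ?_⟩
  have h1 : ∀ i, c i ≤ F y := by
    intro i
    refine le_trans (le_inf ?_ ?_) (hF (x i) y)
    · rw [eqB_symm]
      exact hy i
    · rw [hx i]
      exact inf_le_left
  have h2 : ∀ i : I, i.1 ≤ F y := by
    intro i
    induction i using (IsWellFounded.wf (r := r)).induction with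
    | _ i ih =>
      have h3 : D i ≤ F y := iSup_le fun j => ih j.1 j.2
      calc i.1 = (i.1 ⊓ D i) ⊔ (i.1 ⊓ (D i)ᶜ) := by rw [← inf_sup_left, sup_compl_eq_top, inf_top_eq]
        _ ≤ F y := sup_le (inf_le_right.trans h3) (h1 i)
  exact iSup_le fun b => h2 ⟨F b, b, rfl⟩

end Pool.Agent.H5Z.BSet
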