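import Pool.Agent.Lib.H5Z.C3A
import Pool.Agent.Lib.H5Z.C3B

/-! Chunk C3: mixing and the maximum principle. -/
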