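import Pool.Agent.Lib.H5Z.C1
import Pool.Agent.Lib.H5Z.C3

/-! Chunk C4A. -/

set_option autoImplicit false

open Set Function

namespace Pool.Agent.H5Z

open BSet

variable {B : Type} [CompleteBooleanAlgebra B]

theorem iSup_mem_iff (U : UF B) (F : BSet B → B) (hF : ExtB F) :
    (⨆ a, F a) ∈ U.s ↔ ∃ a, F a ∈ U.s := by
  constructor
  · intro h
    obtain ⟨a, ha⟩ := maxp F hF
    exact ⟨a, by rw [ha]; exact h⟩
  · rintro ⟨a, ha⟩
    exact U.up _ _ ha (le_iSup F a)

theorem iInf_mem_iff (U : UF B) (F : BSet B → B) (hF : ExtB F) :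
    (⨅ a, F a) ∈ U.s ↔ ∀ a, F a ∈ U.s := by
  constructor
  · intro h a
    exact U.up _ _ h (iInf_le F a)
  · intro h
    have hG : ExtB (fun a => (F a)ᶜ) := by
      intro a a'
      change eqB a a' ⊓ (F a)ᶜ ≤ (F a')ᶜ
      rw [le_compl_iff_disjoint_right, disjoint_iff_inf_le]
      have h1 : eqB a a' ⊓ (F a)ᶜ ⊓ F a' ≤ F a :=
        le_trans (le_inf (by rw [eqB_symm]; exact inf_le_left.trans inf_le_left) inf_le_right)
          (hF a' a)
      have h2 : eqB a a' ⊓ (F a)ᶜ ⊓ F a' ≤ (F a)ᶜ := inf_le_left.trans inf_le_right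
      exact (le_inf h1 h2).trans (by rw [inf_compl_eq_bot])
    by_contra hc
    have h3 := (U.compl_mem _).2 hc
    rw [compl_iInf] at h3
    obtain ⟨a, ha⟩ := (iSup_mem_iff U _ hG).1 h3
    exact U.not_both _ (h a) ha

end Pool.Agent.H5Z
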