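import Pool.Agent.Lib.H5Z.C1
import Pool.Agent.Lib.H5Z.C3
import Pool.Agent.Lib.H5Z.C4A

/-! Chunk C4B. -/

set_option autoImplicit false

open Set Function

namespace Pool.Agent.H5Z

open BSet

variable {B : Type} [CompleteBooleanAlgebra B]

theorem C4B_update (U : UF B) (v : ℕ → BSet B) (i : ℕ) (a : BSet B) :
    update (fun j => cls U (v j)) i (cls U a) = fun j => cls U (update v i a j) := by
  funext j
  by_cases h : j = i
  · subst h
    rw [update_self, update_self]
  · rw [update_of_ne h, update_of_ne h]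

theorem los (U : UF B) (φ : Fml) (v : ℕ → BSet B) :
    Sat (EU U) φ (fun i => cls U (v i)) ↔ bval φ v ∈ U.s := by
  induction φ generalizing v with
  | mem i j => exact EU_cls U _ _
  | eq i j => exact cls_eq U _ _
  | bot => exact ⟨fun h => h.elim, fun h => U.bot h⟩
  | imp φ ψ ihφ ihψ =>
    change (Sat (EU U) φ _ → Sat (EU U) ψ _) ↔ bval φ v ⇨ bval ψ v ∈ U.s
    rw [ihφ, ihψ, U.himp_mem]
  | all i φ ih =>
    change (∀ a : Mod U, Sat (EU U) φ (update (fun j => cls U (v j)) i a)) ↔
      (⨅ a, bval φ (update v i a)) ∈ U.s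
    rw [iInf_mem_iff U _ (extB_bval φ v i)]
    constructor
    · intro h a
      have := h (cls U a)
      rw [C4B_update] at this
      exact (ih _).1 this
    · intro h a
      obtain ⟨x, rfl⟩ := exists_cls U a
      rw [C4B_update]
      exact (ih _).2 (h x)

end Pool.Agent.H5Z
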