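import Pool.Agent.Lib.H5Z.C4A
import Pool.Agent.Lib.H5Z.C4B

/-! Chunk C4: the theorem of Los for the quotient structure. -/
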