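import Pool.Agent.Lib.H5Z.C2
import Pool.Agent.Lib.H5Z.C4

/-! Chunk Z2: foundation in the quotient. -/

set_option autoImplicit false

open Set Function

namespace Pool.Agent.H5Z

open BSet

variable {B : Type} [CompleteBooleanAlgebra B]

theorem Z2_ext_himp {F G : BSet B → B} (hF : ExtB F) (hG : ExtB G) :
    ExtB (fun a => F a ⇨ G a) := by
  intro a a'
  change eqB a a' ⊓ (F a ⇨ G a) ≤ F a' ⇨ G a'
  rw [le_himp_iff]
  have h1 : eqB a a' ⊓ (F a ⇨ G a) ⊓ F a' ≤ F a :=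
    le_trans (le_inf (by rw [eqB_symm]; exact inf_le_left.trans inf_le_left) inf_le_right)
      (hF a' a)
  have h2 : eqB a a' ⊓ (F a ⇨ G a) ⊓ F a' ≤ G a :=
    (le_inf (inf_le_left.trans inf_le_right) h1).trans himp_inf_le
  exact (le_inf (inf_le_left.trans inf_le_left) h2).trans (hG a a')

theorem Z2_ext_inf {F G : BSet B → B} (hF : ExtB F) (hG : ExtB G) :
    ExtB (fun a => F a ⊓ G a) := by
  intro a a'
  change eqB a a' ⊓ (F a ⊓ G a) ≤ F a' ⊓ G a'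
  refine le_inf ?_ ?_
  · exact (le_inf inf_le_left (inf_le_right.trans inf_le_left)).trans (hF a a')
  · exact (le_inf inf_le_left (inf_le_right.trans inf_le_right)).trans (hG a a')

theorem Z2_ext_iInf {ι : Sort*} {F : ι → BSet B → B} (hF : ∀ i, ExtB (F i)) :
    ExtB (fun a => ⨅ i, F i a) := by
  intro a a'
  change eqB a a' ⊓ (⨅ i, F i a) ≤ ⨅ i, F i a'
  refine le_iInf fun i => ?_
  exact (le_inf inf_le_left (inf_le_right.trans (iInf_le _ i))).trans (hF i a a')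

theorem Z2_ext_const (b : B) : ExtB (fun _ : BSet B => b) := fun _ _ => inf_le_right

/-- Boolean-valued foundation: by induction on `y`. -/
theorem found_le (x y : BSet B) :
    memB y x ≤ ⨆ z, memB z x ⊓ ⨅ w, memB w z ⇨ (memB w x)ᶜ := by
  obtain ⟨S, hS⟩ : ∃ S, S = ⨆ z, memB z x ⊓ ⨅ w, memB w z ⇨ (memB w x)ᶜ := ⟨_, rfl⟩
  rw [← hS]
  induction y with
  | mk ι a u ih =>
    have h1 : memB (mk ι a u) x ⊓ (⨅ w, memB w (mk ι a u) ⇨ (memB w x)ᶜ) ≤ S := by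
      rw [hS]
      exact le_iSup (fun z => memB z x ⊓ ⨅ w, memB w z ⇨ (memB w x)ᶜ) (mk ι a u)
    have h2 : (⨅ w, memB w (mk ι a u) ⇨ (memB w x)ᶜ)ᶜ ≤ S := by
      rw [compl_iInf]
      refine iSup_le fun w => ?_
      have h3 : (memB w (mk ι a u) ⇨ (memB w x)ᶜ)ᶜ ≤ memB w (mk ι a u) ⊓ memB w x := by
        rw [himp_eq, compl_sup, compl_compl, compl_compl, inf_comm]
      refine h3.trans ?_
      refine (le_iSup (fun w => memB w (mk ι a u) ⊓ memB w x) w).trans ?_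
      rw [iSup_memB _ (extB_memB_left x)]
      exact iSup_le fun i => inf_le_right.trans (ih i)
    have h4 : memB (mk ι a u) x ≤ memB (mk ι a u) x ⊓
        ((⨅ w, memB w (mk ι a u) ⇨ (memB w x)ᶜ) ⊔ (⨅ w, memB w (mk ι a u) ⇨ (memB w x)ᶜ)ᶜ) := by
      rw [sup_compl_eq_top, inf_top_eq]
    refine h4.trans ?_
    rw [inf_sup_left]
    exact sup_le h1 (inf_le_right.trans h2)

theorem z_found (U : UF B) : ∀ x : Mod U, (∃ y, EU U y x) →
    ∃ y, EU U y x ∧ ∀ z, EU U z y → ¬ EU U z x := by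
  rintro x ⟨y, hy⟩
  obtain ⟨x, rfl⟩ := exists_cls U x
  obtain ⟨y, rfl⟩ := exists_cls U y
  rw [EU_cls] at hy
  have h1 := U.up _ _ hy (found_le x y)
  have hext : ExtB (fun z : BSet B => memB z x ⊓ ⨅ w, memB w z ⇨ (memB w x)ᶜ) :=
    Z2_ext_inf (extB_memB_left x) (Z2_ext_iInf fun w => Z2_ext_himp (extB_memB_right w)
      (Z2_ext_const _))
  rw [iSup_mem_iff U _ hext] at h1
  obtain ⟨z, hz⟩ := h1
  rw [U.inf_mem] at hz
  refine ⟨cls U z, hz.1, ?_⟩
  intro w hwz hwx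
  obtain ⟨w, rfl⟩ := exists_cls U w
  have h2 := U.up _ _ hz.2 (iInf_le _ w)
  rw [U.himp_mem] at h2
  exact U.not_both _ hwx (h2 hwz)

end Pool.Agent.H5Z
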