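import Pool.Agent.Lib.H5Z.C2
import Pool.Agent.Lib.H5Z.C4

/-! Chunk Z3: pairing in the quotient; the name is `mk Bool (fun b => cond b x y) (fun _ => ⊤)`. -/

set_option autoImplicit false

open Set Function

namespace Pool.Agent.H5Z

open BSet

variable {B : Type} [CompleteBooleanAlgebra B]

theorem z_pair (U : UF B) : ∀ x y : Mod U, ∃ p, ∀ z, EU U z p ↔ z = x ∨ z = y := by
  intro x y
  obtain ⟨x, rfl⟩ := exists_cls U x
  obtain ⟨y, rfl⟩ := exists_cls U y
  refine ⟨cls U (mk Bool (fun b => cond b x y) (fun _ => ⊤)), fun z => ?_⟩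
  obtain ⟨z, rfl⟩ := exists_cls U z
  rw [EU_cls, cls_eq, cls_eq, ← U.sup_mem]
  have h : memB z (mk Bool (fun b => cond b x y) (fun _ => ⊤)) = eqB z x ⊔ eqB z y := by
    change (⨆ b : Bool, (⊤ : B) ⊓ eqB z (cond b x y)) = _
    rw [iSup_bool_eq, top_inf_eq, top_inf_eq]
    rfl
  rw [h]

end Pool.Agent.H5Z
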