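import Pool.Agent.Lib.H5Z.C2
import Pool.Agent.Lib.H5Z.C4

/-! Chunk Z4: union in the quotient; the name is `mk (Σ i : x.Ix, (x.el i).Ix) (fun p => (x.el p.1).el p.2) (fun p => x.val p.1 ⊓ (x.el p.1).val p.2)`. -/

set_option autoImplicit false

open Set Function

namespace Pool.Agent.H5Z

open BSet

variable {B : Type} [CompleteBooleanAlgebra B]

theorem z_union (U : UF B) : ∀ x : Mod U, ∃ u, ∀ z, EU U z u ↔ ∃ y, EU U y x ∧ EU U z y := by
  intro x
  obtain ⟨x, rfl⟩ := exists_cls U x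
  refine ⟨cls U (mk (Σ i : x.Ix, (x.el i).Ix) (fun p => (x.el p.1).el p.2)
    (fun p => x.val p.1 ⊓ (x.el p.1).val p.2)), fun z => ?_⟩
  obtain ⟨z, rfl⟩ := exists_cls U z
  have h : memB z (mk (Σ i : x.Ix, (x.el i).Ix) (fun p => (x.el p.1).el p.2)
      (fun p => x.val p.1 ⊓ (x.el p.1).val p.2)) = ⨆ y, memB y x ⊓ memB z y := by
    rw [iSup_memB _ (extB_memB_right z)]
    change (⨆ p : (Σ i : x.Ix, (x.el i).Ix), (x.val p.1 ⊓ (x.el p.1).val p.2) ⊓
      eqB z ((x.el p.1).el p.2)) = _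
    rw [iSup_sigma]
    refine iSup_congr fun i => ?_
    rw [memB_def, inf_iSup_eq]
    refine iSup_congr fun j => ?_
    rw [inf_assoc]
  have hext : ExtB (fun y : BSet B => memB y x ⊓ memB z y) := by
    intro a a'
    change eqB a a' ⊓ (memB a x ⊓ memB z a) ≤ memB a' x ⊓ memB z a'
    refine le_inf ?_ ?_
    · exact (le_inf inf_le_left (inf_le_right.trans inf_le_left)).trans (memB_congr_left a a' x)
    · exact (le_inf inf_le_left (inf_le_right.trans inf_le_right)).trans (memB_congr_right z a a')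
  rw [EU_cls, h, iSup_mem_iff U _ hext]
  constructor
  · rintro ⟨y, hy⟩
    rw [U.inf_mem] at hy
    exact ⟨cls U y, hy.1, hy.2⟩
  · rintro ⟨y, hy, hz⟩
    obtain ⟨y, rfl⟩ := exists_cls U y
    exact ⟨y, U.inf _ _ hy hz⟩

end Pool.Agent.H5Z
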