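import Pool.Agent.Lib.H5Z.C2
import Pool.Agent.Lib.H5Z.C4

/-! Chunk Z5: power set in the quotient; the name is `mk (x.Ix → B) (fun f => mk x.Ix x.el (fun i => f i ⊓ x.val i)) (fun _ => ⊤)`. -/

set_option autoImplicit false

open Set Function

namespace Pool.Agent.H5Z

open BSet

variable {B : Type} [CompleteBooleanAlgebra B]

/-- every `z` with `z ⊆ x` equals a subset name with the same index type -/
theorem subset_le (x z : BSet B) : (⨅ w, memB w z ⇨ memB w x) ≤
    eqB z (mk x.Ix x.el (fun i => memB (x.el i) z ⊓ x.val i)) := by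
  refine le_eqB _ _ _ ?_ ?_
  · intro i
    have h1 : (⨅ w, memB w z ⇨ memB w x) ⊓ z.val i ≤ memB (z.el i) x := by
      rw [← le_himp_iff]
      refine (iInf_le _ (z.el i)).trans ?_
      exact himp_le_himp_right (val_le_memB z i)
    have h2 : (⨅ w, memB w z ⇨ memB w x) ⊓ z.val i ≤ memB (z.el i) x ⊓ memB (z.el i) z :=
      le_inf h1 (inf_le_right.trans (val_le_memB z i))
    refine h2.trans ?_
    rw [memB_def (z.el i) x, iSup_inf_eq]
    change _ ≤ ⨆ j : x.Ix, (memB (x.el j) z ⊓ x.val j) ⊓ eqB (z.el i) (x.el j)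
    refine iSup_mono fun j => ?_
    refine le_inf (le_inf ?_ (inf_le_left.trans inf_le_left)) (inf_le_left.trans inf_le_right)
    refine le_trans ?_ (memB_congr_left (z.el i) (x.el j) z)
    exact le_inf (inf_le_left.trans inf_le_right) inf_le_right
  · intro j
    change _ ⊓ (memB (x.el j) z ⊓ x.val j) ≤ memB (x.el j) z
    exact inf_le_right.trans inf_le_left

theorem Z5_ext (X Z : BSet B) : ExtB (fun w => memB w Z ⇨ memB w X) := by
  intro a a'
  rw [le_himp_iff]
  have h1 : eqB a a' ⊓ memB a' Z ≤ memB a Z := by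
    have := memB_congr_left a' a Z
    rwa [eqB_symm a' a] at this
  have h2 : eqB a a' ⊓ memB a X ≤ memB a' X := memB_congr_left a a' X
  calc eqB a a' ⊓ (memB a Z ⇨ memB a X) ⊓ memB a' Z
      ≤ eqB a a' ⊓ (memB a Z ⊓ (memB a Z ⇨ memB a X)) := by
        refine le_inf (inf_le_left.trans inf_le_left) (le_inf ?_ (inf_le_left.trans inf_le_right))
        refine le_trans ?_ h1
        exact le_inf (inf_le_left.trans inf_le_left) inf_le_right
    _ ≤ eqB a a' ⊓ memB a X := inf_le_inf_left _ (by rw [inf_comm]; exact himp_inf_le)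
    _ ≤ memB a' X := h2

theorem z_power (U : UF B) : ∀ x : Mod U, ∃ p, ∀ z, EU U z p ↔ ∀ w, EU U w z → EU U w x := by
  intro x
  obtain ⟨X, rfl⟩ := exists_cls U x
  let S : (X.Ix → B) → BSet B := fun f => mk X.Ix X.el (fun i => f i ⊓ X.val i)
  let P : BSet B := mk (X.Ix → B) S (fun _ => ⊤)
  refine ⟨cls U P, fun z => ?_⟩
  obtain ⟨Z, rfl⟩ := exists_cls U z
  have hP : memB Z P = ⨆ f : X.Ix → B, ⊤ ⊓ eqB Z (S f) := memB_def Z P
  have hS : ∀ f w, memB w (S f) ≤ memB w X := by
    intro f w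
    rw [memB_def w X]
    have : memB w (S f) = ⨆ j : X.Ix, (f j ⊓ X.val j) ⊓ eqB w (X.el j) := memB_def w (S f)
    rw [this]
    exact iSup_mono fun j => inf_le_inf_right _ inf_le_right
  constructor
  · intro hz w hw
    obtain ⟨W, rfl⟩ := exists_cls U w
    rw [EU_cls] at *
    refine U.up _ _ (U.inf _ _ hz hw) ?_
    rw [hP, iSup_inf_eq]
    refine iSup_le fun f => ?_
    refine le_trans ?_ (hS f W)
    refine le_trans ?_ (memB_congr_right W Z (S f))
    exact inf_le_inf_right _ inf_le_right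
  · intro h
    rw [EU_cls]
    have h1 : (⨅ w, memB w Z ⇨ memB w X) ∈ U.s := by
      rw [iInf_mem_iff U _ (Z5_ext X Z)]
      intro W
      rw [U.himp_mem]
      exact h (cls U W)
    refine U.up _ _ h1 ((subset_le X Z).trans ?_)
    rw [hP]
    refine le_iSup_of_le (fun i => memB (X.el i) Z) ?_
    rw [top_inf_eq]

end Pool.Agent.H5Z
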