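import Pool.Agent.Lib.H5Z.DForm

/-! Chunk DSB. -/

set_option autoImplicit false

open Set Function

namespace Pool.Agent.H5Z

open BSet Fml

variable {B : Type} [CompleteBooleanAlgebra B]

theorem DSB_fPair {M : Type*} (E : M → M → Prop) (p x y : ℕ)
    (hp : p ≠ 101 ∧ p ≠ 102) (hx : x ≠ 101 ∧ x ≠ 102) (hy : y ≠ 101 ∧ y ≠ 102)
    (v : ℕ → M) : Sat E (fPair p x y) v ↔ IsPair E (v p) (v x) (v y) := by
  obtain ⟨p1, p2⟩ := hp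
  obtain ⟨x1, x2⟩ := hx
  obtain ⟨y1, y2⟩ := hy
  simp only [fPair, sat_conj, sat_ex, sat_disj, sat_iff, sat_neg, Sat, IsPair, update_apply]
  simp [p1, p2, x1, x2, y1, y2]

theorem sat_fRel {M : Type*} (E : M → M → Prop) (x y r : ℕ)
    (hx : x ≠ 101 ∧ x ≠ 102 ∧ x ≠ 103) (hy : y ≠ 101 ∧ y ≠ 102 ∧ y ≠ 103)
    (hr : r ≠ 101 ∧ r ≠ 102 ∧ r ≠ 103)
    (v : ℕ → M) : Sat E (fRel x y r) v ↔ Rel E (v x) (v y) (v r) := by
  obtain ⟨x1, x2, x3⟩ := hx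
  obtain ⟨y1, y2, y3⟩ := hy
  obtain ⟨r1, r2, r3⟩ := hr
  have h1 := fun a => DSB_fPair E 103 x y (by decide) ⟨x1, x2⟩ ⟨y1, y2⟩ (update v 103 a)
  simp only [fRel, sat_conj, sat_ex, Sat, Rel, h1, update_apply]
  simp [x3, y3, r3]

end Pool.Agent.H5Z
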