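import Pool.Agent.Lib.H5Z.DForm

/-! Chunk DSA. -/

set_option autoImplicit false

open Set Function

namespace Pool.Agent.H5Z

open BSet Fml

variable {B : Type} [CompleteBooleanAlgebra B]

theorem sat_fInd {M : Type*} (E : M → M → Prop) (i : ℕ) (hi : i ≠ 101 ∧ i ≠ 102 ∧ i ≠ 103)
    (v : ℕ → M) : Sat E (fInd i) v ↔ IsInd E (v i) := by
  obtain ⟨h1, h2, h3⟩ := hi
  simp only [fInd, sat_conj, sat_ex, sat_disj, sat_iff, sat_neg, Sat, IsInd, update_apply]
  simp [h1, h2, h3]

theorem sat_fOmega {M : Type*} (E : M → M → Prop) (v : ℕ → M) :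
    Sat E (fOmega 0) v ↔ IsOmega E (v 0) := by
  have h1 := sat_fInd E 0 (by decide) v
  have h2 := fun a => sat_fInd E 104 (by decide) (update v 104 a)
  simp only [fOmega, sat_conj, Sat, IsOmega, h1, h2, update_apply]
  simp

end Pool.Agent.H5Z
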