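import Pool.Agent.Lib.H5Z.DForm
import Pool.Agent.Lib.H5Z.DSA
import Pool.Agent.Lib.H5Z.DSB

/-! Chunk DSC. -/

set_option autoImplicit false

open Set Function

namespace Pool.Agent.H5Z

open BSet Fml

variable {B : Type} [CompleteBooleanAlgebra B]

theorem DSC_fDom {M : Type*} (E : M → M → Prop) (w j t : ℕ) (hw : w < 99) (hj : j < 99)
    (ht : t < 99) (v : ℕ → M) : Sat E (fDom w j t) v ↔ Dom E (v w) (v j) (v t) := by
  have h1 := fun a => sat_fRel E j 104 t ⟨by omega, by omega, by omega⟩ (by decide)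
    ⟨by omega, by omega, by omega⟩ (update v 104 a)
  have e1 : w ≠ 104 := by omega
  have e2 : j ≠ 104 := by omega
  have e3 : t ≠ 104 := by omega
  simp only [fDom, sat_conj, sat_ex, Sat, Dom, h1, update_apply]
  simp [e1, e2, e3]

theorem DSC_rel {M : Type*} (E : M → M → Prop) (x y r : ℕ) (hx : x < 99) (hy : y < 99)
    (hr : r < 99) (v : ℕ → M) : Sat E (fRel x y r) v ↔ Rel E (v x) (v y) (v r) :=
  sat_fRel E x y r ⟨by omega, by omega, by omega⟩ ⟨by omega, by omega, by omega⟩
    ⟨by omega, by omega, by omega⟩ v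

theorem sat_gGap {M : Type*} (E : M → M → Prop) (v : ℕ → M) : Sat E gGap v ↔ GapIn E := by
  simp only [gGap, gBody, sat_conj, sat_ex, sat_fOmega, g1, g2, g3, g4, g5, g6, g6a, g6b, fAA, sat_disj,
    sat_iff, sat_neg, Sat, GapIn, AA,
    DSC_rel E 6 7 3 (by norm_num) (by norm_num) (by norm_num),
    DSC_rel E 6 8 3 (by norm_num) (by norm_num) (by norm_num),
    DSC_rel E 6 7 4 (by norm_num) (by norm_num) (by norm_num),
    DSC_rel E 3 6 10 (by norm_num) (by norm_num) (by norm_num),
    DSC_rel E 4 6 10 (by norm_num) (by norm_num) (by norm_num),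
    DSC_fDom E 0 6 3 (by norm_num) (by norm_num) (by norm_num),
    DSC_fDom E 0 6 4 (by norm_num) (by norm_num) (by norm_num),
    DSC_fDom E 0 6 5 (by norm_num) (by norm_num) (by norm_num)]
  simp

end Pool.Agent.H5Z
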