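import Pool.Agent.Lib.H5Z.DSA
import Pool.Agent.Lib.H5Z.DSB
import Pool.Agent.Lib.H5Z.DSC

/-! Chunk DS: satisfaction of the gap formula (simp only with sat_conj, sat_ex, ..., and `Function.update` at numerals). -/
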