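import Pool.Agent.Lib.H5Z.D6
import Pool.Agent.Lib.H5Z.DS
import Pool.Agent.Lib.H5Z.C4

/-! Chunk Z6: infinity in the quotient (from `bval_fInd_omB`, `sat_fInd` and `los`). -/

set_option autoImplicit false

open Set Function

namespace Pool.Agent.H5Z

open BSet

variable {B : Type} [CompleteBooleanAlgebra B]

theorem z_inf (U : UF B) : ∃ w : Mod U, (∃ e, EU U e w ∧ ∀ z, ¬ EU U z e) ∧
    ∀ x, EU U x w → ∃ s, EU U s w ∧ ∀ z, EU U z s ↔ EU U z x ∨ z = x := by
  refine ⟨cls U omB, ?_⟩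
  have h1 : bval (Fml.fInd 0) (fun _ => (omB : BSet B)) = ⊤ :=
    bval_fInd_omB 0 ⟨by norm_num, by norm_num, by norm_num⟩ _ rfl
  have h2 : Sat (EU U) (Fml.fInd 0) (fun i => cls U ((fun _ => (omB : BSet B)) i)) := by
    rw [los, h1]
    exact U.top
  exact (sat_fInd (EU U) 0 ⟨by norm_num, by norm_num, by norm_num⟩ _).1 h2

end Pool.Agent.H5Z
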