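import Pool.Agent.Lib.H5Z.C2
import Pool.Agent.Lib.H5Z.C4

/-! Chunk Z7: separation in the quotient; the name is `mk x.Ix x.el (fun i => x.val i ⊓ bval φ (update v 0 (x.el i)))`. -/

set_option autoImplicit false

open Set Function

namespace Pool.Agent.H5Z

open BSet

variable {B : Type} [CompleteBooleanAlgebra B]

theorem Z7_memB (G : BSet B → B) (hG : ExtB G) (A Z : BSet B) :
    memB Z (mk A.Ix A.el (fun i => A.val i ⊓ G (A.el i))) = memB Z A ⊓ G Z := by
  have h : memB Z (mk A.Ix A.el (fun i => A.val i ⊓ G (A.el i))) =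
      ⨆ i : A.Ix, (A.val i ⊓ G (A.el i)) ⊓ eqB Z (A.el i) := memB_def _ _
  rw [h, memB_def Z A]
  apply le_antisymm
  · refine iSup_le fun i => le_inf ?_ ?_
    · refine le_iSup_of_le i ?_
      exact le_inf (inf_le_left.trans inf_le_left) inf_le_right
    · refine le_trans ?_ (hG (A.el i) Z)
      rw [eqB_symm (A.el i) Z]
      exact le_inf inf_le_right (inf_le_left.trans inf_le_right)
  · rw [iSup_inf_eq]
    refine iSup_mono fun i => ?_
    refine le_inf (le_inf (inf_le_left.trans inf_le_left) ?_) (inf_le_left.trans inf_le_right)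
    refine le_trans ?_ (hG Z (A.el i))
    exact le_inf (inf_le_left.trans inf_le_right) inf_le_right

theorem z_sep (U : UF B) : ∀ (φ : Fml) (v : ℕ → Mod U) (a : Mod U),
    ∃ b, ∀ z, EU U z b ↔ EU U z a ∧ Sat (EU U) φ (update v 0 z) := by
  intro φ v a
  obtain ⟨A, rfl⟩ := exists_cls U a
  choose V hV using fun i => exists_cls U (v i)
  have hv : v = fun i => cls U (V i) := funext fun i => (hV i).symm
  subst hv
  refine ⟨cls U (mk A.Ix A.el (fun i => A.val i ⊓ bval φ (update V 0 (A.el i)))), fun z => ?_⟩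
  obtain ⟨Z, rfl⟩ := exists_cls U z
  have hup : update (fun i => cls U (V i)) 0 (cls U Z) = fun i => cls U (update V 0 Z i) := by
    funext i
    by_cases hi : i = 0
    · subst hi; simp
    · simp [update_of_ne hi]
  rw [hup, los, EU_cls, EU_cls, ← U.inf_mem,
    ← Z7_memB (fun z => bval φ (update V 0 z)) (extB_bval φ V 0) A Z]

end Pool.Agent.H5Z
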