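import Pool.Agent.Lib.H5Z.C2
import Pool.Agent.Lib.H5Z.C4

/-! Chunk Z8: replacement in the quotient; choose for each index `i` of `x` (by `maxp`) a name `y i` with the largest value of `bval φ (update (update v 0 (x.el i)) 1 y)`; the name is `mk x.Ix y (fun i => x.val i ⊓ bval φ (update (update v 0 (x.el i)) 1 (y i)))`. -/

set_option autoImplicit false

open Set Function

namespace Pool.Agent.H5Z

open BSet

variable {B : Type} [CompleteBooleanAlgebra B]

theorem Z8_extL (φ : Fml) (v : ℕ → BSet B) (y : BSet B) :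
    ExtB (fun x => bval φ (update (update v 0 x) 1 y)) := by
  have h := extB_bval φ (update v 1 y) 0
  have h2 : (fun x => bval φ (update (update v 0 x) 1 y)) =
      fun x => bval φ (update (update v 1 y) 0 x) := by
    funext x
    rw [update_comm (by norm_num : (0 : ℕ) ≠ 1)]
  rw [h2]
  exact h

theorem Z8_sat (U : UF B) (φ : Fml) (v : ℕ → BSet B) (x y : BSet B) :
    Sat (EU U) φ (update (update (fun i => cls U (v i)) 0 (cls U x)) 1 (cls U y)) ↔
      bval φ (update (update v 0 x) 1 y) ∈ U.s := by
  rw [← los]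
  have h : update (update (fun i => cls U (v i)) 0 (cls U x)) 1 (cls U y) =
      fun i => cls U (update (update v 0 x) 1 y i) := by
    funext j
    by_cases h1 : j = 1
    · subst h1
      rw [update_self, update_self]
    · rw [update_of_ne h1, update_of_ne h1]
      by_cases h0 : j = 0
      · subst h0
        rw [update_self, update_self]
      · rw [update_of_ne h0, update_of_ne h0]
  rw [h]

theorem z_repl (U : UF B) : ∀ (φ : Fml) (v : ℕ → Mod U) (a : Mod U),
    (∀ x, EU U x a → ∃! y, Sat (EU U) φ (update (update v 0 x) 1 y)) →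
      ∃ b, ∀ y, EU U y b ↔ ∃ x, EU U x a ∧ Sat (EU U) φ (update (update v 0 x) 1 y) := by
  intro φ v' a' hu
  have hv : ∃ v : ℕ → BSet B, v' = fun i => cls U (v i) := by
    choose v hv using fun i => exists_cls U (v' i)
    exact ⟨v, funext fun i => (hv i).symm⟩
  obtain ⟨v, rfl⟩ := hv
  obtain ⟨a, rfl⟩ := exists_cls U a'
  have hR : ∀ x : BSet B, ExtB (fun y => bval φ (update (update v 0 x) 1 y)) :=
    fun x => extB_bval φ (update v 0 x) 1
  choose y hy using fun i : a.Ix => maxp _ (hR (a.el i))
  have hy' : ∀ (i : a.Ix) (z : BSet B), bval φ (update (update v 0 (a.el i)) 1 z) ≤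
      bval φ (update (update v 0 (a.el i)) 1 (y i)) := fun i z => by
    rw [hy i]
    exact le_iSup (fun z => bval φ (update (update v 0 (a.el i)) 1 z)) z
  let b : BSet B := mk a.Ix y
    (fun i => a.val i ⊓ bval φ (update (update v 0 (a.el i)) 1 (y i)))
  refine ⟨cls U b, fun w' => ?_⟩
  obtain ⟨w, rfl⟩ := exists_cls U w'
  rw [EU_cls]
  constructor
  · intro h
    have h1 : memB w b ≤ ⨆ z, memB z a ⊓ bval φ (update (update v 0 z) 1 w) := by
      rw [iSup_memB _ (Z8_extL φ v w) a, memB_def]
      refine iSup_mono fun i => ?_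
      change a.val i ⊓ bval φ (update (update v 0 (a.el i)) 1 (y i)) ⊓ eqB w (y i) ≤ _
      refine le_inf (inf_le_left.trans inf_le_left) ?_
      refine le_trans (le_inf ?_ (inf_le_left.trans inf_le_right)) (hR (a.el i) (y i) w)
      rw [eqB_symm]
      exact inf_le_right
    have hE : ExtB (fun z => memB z a ⊓ bval φ (update (update v 0 z) 1 w)) := by
      intro z z'
      refine le_inf ?_ ?_
      · exact le_trans (inf_le_inf_left _ inf_le_left) (memB_congr_left z z' a)
      · exact le_trans (inf_le_inf_left _ inf_le_right) (Z8_extL φ v w z z')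
    obtain ⟨z, hz⟩ := (iSup_mem_iff U _ hE).1 (U.up _ _ h h1)
    rw [U.inf_mem] at hz
    exact ⟨cls U z, (EU_cls U z a).2 hz.1, (Z8_sat U φ v z w).2 hz.2⟩
  · rintro ⟨z', hz1, hz2⟩
    obtain ⟨z, rfl⟩ := exists_cls U z'
    have hm : memB z a ∈ U.s := (EU_cls U z a).1 hz1
    have hs : bval φ (update (update v 0 z) 1 w) ∈ U.s := (Z8_sat U φ v z w).1 hz2
    have hE : ExtB (fun u => memB u b ⊓ bval φ (update (update v 0 z) 1 u)) := by
      intro u u'
      refine le_inf ?_ ?_
      · exact le_trans (inf_le_inf_left _ inf_le_left) (memB_congr_left u u' b)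
      · exact le_trans (inf_le_inf_left _ inf_le_right) (hR z u u')
    have h1 : memB z a ⊓ bval φ (update (update v 0 z) 1 w) ≤
        ⨆ u, memB u b ⊓ bval φ (update (update v 0 z) 1 u) := by
      rw [memB_def, iSup_inf_eq]
      refine iSup_le fun i => ?_
      refine le_iSup_of_le (y i) ?_
      have h2 : a.val i ⊓ eqB z (a.el i) ⊓ bval φ (update (update v 0 z) 1 w) ≤
          bval φ (update (update v 0 (a.el i)) 1 (y i)) := by
        refine le_trans ?_ (hy' i w)
        refine le_trans ?_ (Z8_extL φ v w z (a.el i))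
        exact le_inf (inf_le_left.trans inf_le_right) inf_le_right
      refine le_inf ?_ ?_
      · refine le_trans ?_ (val_le_memB b i)
        change _ ≤ a.val i ⊓ bval φ (update (update v 0 (a.el i)) 1 (y i))
        exact le_inf (inf_le_left.trans inf_le_left) h2
      · refine le_trans (le_inf ?_ h2) (Z8_extL φ v (y i) (a.el i) z)
        rw [eqB_symm]
        exact inf_le_left.trans inf_le_right
    obtain ⟨u, hu1⟩ := (iSup_mem_iff U _ hE).1 (U.up _ _ (U.inf _ _ hm hs) h1)
    rw [U.inf_mem] at hu1
    obtain ⟨t, -, ht⟩ := hu (cls U z) hz1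
    have e1 : cls U u = t := ht _ ((Z8_sat U φ v z u).2 hu1.2)
    have e2 : cls U w = t := ht _ hz2
    have e3 : cls U w = cls U u := e2.trans e1.symm
    have : EU U (cls U u) (cls U b) := (EU_cls U u b).2 hu1.1
    rw [← e3] at this
    exact (EU_cls U w b).1 this

end Pool.Agent.H5Z
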