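import Pool.Agent.Lib.H5Z.C2
import Pool.Agent.Lib.H5Z.C4

/-! Chunk Z9: choice in the quotient. For a name `x` let `u = mk I el val` be the name of its union
(`I = Σ i : x.Ix, (x.el i).Ix`), take a well-order of `I` and the name `c = mk I el d`, where
`d p` is the value of `there is y ∈ x with el p ∈ y and el q ∉ y for all q < p` (as a supremum over
the indices of `x`), with the value of membership in the union. -/

set_option autoImplicit false

open Set Function

namespace Pool.Agent.H5Z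

open BSet

variable {B : Type} [CompleteBooleanAlgebra B]

theorem Z9_least {I : Type} (r : I → I → Prop) [IsWellOrder I r] (f : I → B) :
    ⨆ p, f p ≤ ⨆ p, (f p ⊓ ⨅ q, ⨅ (_ : r q p), (f q)ᶜ) := by
  refine iSup_le fun p => ?_
  induction p using (IsWellFounded.wf (r := r)).induction with
  | h p ih =>
    set A : B := ⨅ q, ⨅ (_ : r q p), (f q)ᶜ with hA
    have h1 : f p ≤ (f p ⊓ A) ⊔ Aᶜ := by
      calc f p = f p ⊓ (A ⊔ Aᶜ) := by simp
        _ = (f p ⊓ A) ⊔ (f p ⊓ Aᶜ) := inf_sup_left _ _ _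
        _ ≤ _ := sup_le_sup_left inf_le_right _
    refine h1.trans (sup_le ?_ ?_)
    · exact le_iSup (fun p => f p ⊓ ⨅ q, ⨅ (_ : r q p), (f q)ᶜ) p
    · rw [hA]
      simp only [compl_iInf, compl_compl]
      exact iSup_le fun q => iSup_le fun hq => ih q hq

theorem Z9_compl {e a b : B} (h : e ⊓ b ≤ a) : e ⊓ aᶜ ≤ bᶜ := by
  rw [le_compl_iff_disjoint_right, disjoint_iff_inf_le]
  calc (e ⊓ aᶜ) ⊓ b ≤ a ⊓ aᶜ :=
        le_inf ((le_inf (inf_le_left.trans inf_le_left) inf_le_right).trans h)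
          (inf_le_left.trans inf_le_right)
    _ ≤ ⊥ := by simp

/-- index type of the union -/
def Z9I (x : BSet B) : Type := Σ i : x.Ix, (x.el i).Ix

/-- elements of the union -/
def Z9el (x : BSet B) (p : Z9I x) : BSet B := (x.el p.1).el p.2

/-- value of: `p` is the first index of an element of `w` -/
noncomputable def Z9G (x : BSet B) (p : Z9I x) (w : BSet B) : B :=
  memB (Z9el x p) w ⊓ ⨅ q, ⨅ (_ : WellOrderingRel q p), (memB (Z9el x q) w)ᶜ

theorem Z9G_ext (x : BSet B) (p : Z9I x) : ExtB (Z9G x p) := by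
  intro w w'
  unfold Z9G
  refine le_inf ?_ ?_
  · exact (le_inf inf_le_left (inf_le_right.trans inf_le_left)).trans (memB_congr_right _ w w')
  · refine le_iInf fun q => le_iInf fun hq => ?_
    have h1 : eqB w w' ⊓ memB (Z9el x q) w' ≤ memB (Z9el x q) w := by
      rw [eqB_symm]
      exact memB_congr_right _ w' w
    refine le_trans ?_ (Z9_compl h1)
    refine le_inf inf_le_left (inf_le_right.trans (inf_le_right.trans ?_))
    exact (iInf_le _ q).trans (iInf_le _ hq)

theorem Z9G_disj (x : BSet B) (p q : Z9I x) (hpq : p ≠ q) (w : BSet B) :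
    Z9G x p w ⊓ Z9G x q w ≤ ⊥ := by
  have key : ∀ p q : Z9I x, WellOrderingRel p q → Z9G x p w ⊓ Z9G x q w ≤ ⊥ := by
    intro p q h
    unfold Z9G
    calc _ ≤ memB (Z9el x p) w ⊓ (memB (Z9el x p) w)ᶜ := by
          refine le_inf (inf_le_left.trans inf_le_left) (inf_le_right.trans (inf_le_right.trans ?_))
          exact (iInf_le _ p).trans (iInf_le _ h)
      _ ≤ ⊥ := by simp
  rcases trichotomous_of WellOrderingRel p q with h | h | h
  · exact key p q h
  · exact absurd h hpq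
  · rw [inf_comm]
    exact key q p h

/-- the choice set -/
noncomputable def Z9c (x : BSet B) : BSet B :=
  mk (Z9I x) (Z9el x) (fun p => ⨆ i : x.Ix, x.val i ⊓ Z9G x p (x.el i))

theorem Z9_d (x : BSet B) (p : Z9I x) (y : BSet B) :
    memB y x ⊓ Z9G x p y ≤ memB (Z9el x p) (Z9c x) := by
  refine le_trans ?_ (val_le_memB (Z9c x) p)
  change _ ≤ ⨆ i : x.Ix, x.val i ⊓ Z9G x p (x.el i)
  rw [memB_def y x, iSup_inf_eq]
  refine iSup_mono fun i => ?_
  refine le_inf (inf_le_left.trans inf_le_left) ?_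
  exact (le_inf (inf_le_left.trans inf_le_right) inf_le_right).trans (Z9G_ext x p y (x.el i))

theorem Z9_exists (x y : BSet B) :
    memB y x ⊓ (⨆ z, memB z y) ≤ ⨆ z, memB z (Z9c x) ⊓ memB z y := by
  have hA : memB y x ⊓ (⨆ z, memB z y) ≤ ⨆ p : Z9I x, memB (Z9el x p) y := by
    rw [inf_iSup_eq]
    refine iSup_le fun z => ?_
    rw [memB_def y x, iSup_inf_eq]
    refine iSup_le fun i => ?_
    have h1 : eqB y (x.el i) ⊓ memB z y ≤ memB z (x.el i) := memB_congr_right z y (x.el i)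
    rw [memB_def z (x.el i)] at h1
    have h2 : x.val i ⊓ eqB y (x.el i) ⊓ memB z y ≤
        eqB y (x.el i) ⊓ ⨆ j : (x.el i).Ix, (x.el i).val j ⊓ eqB z ((x.el i).el j) :=
      le_inf (inf_le_left.trans inf_le_right)
        ((le_inf (inf_le_left.trans inf_le_right) inf_le_right).trans h1)
    refine h2.trans ?_
    rw [inf_iSup_eq]
    refine iSup_le fun j => ?_
    refine le_trans ?_ (le_iSup (fun p : Z9I x => memB (Z9el x p) y) ⟨i, j⟩)
    change _ ≤ memB ((x.el i).el j) y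
    refine le_trans ?_ (memB_congr_right _ (x.el i) y)
    rw [eqB_symm (x.el i) y]
    exact le_inf inf_le_left (inf_le_right.trans (inf_le_left.trans (val_le_memB (x.el i) j)))
  have h2 : memB y x ⊓ (⨆ z, memB z y) ≤ memB y x ⊓ ⨆ p : Z9I x, Z9G x p y :=
    le_inf inf_le_left (hA.trans (Z9_least WellOrderingRel (fun p => memB (Z9el x p) y)))
  refine h2.trans ?_
  rw [inf_iSup_eq]
  refine iSup_le fun p => ?_
  refine le_trans ?_ (le_iSup (fun z => memB z (Z9c x) ⊓ memB z y) (Z9el x p))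
  exact le_inf (Z9_d x p y) (inf_le_right.trans inf_le_left)

/-- value of: `y` is the only element of `x` that meets `y` -/
noncomputable def Z9D (x y : BSet B) : B :=
  ⨅ y', ⨅ w, (memB y' x ⊓ memB w y ⊓ memB w y') ⇨ eqB y y'

theorem Z9_in (x y z : BSet B) :
    Z9D x y ⊓ (memB z (Z9c x) ⊓ memB z y) ≤ ⨆ p : Z9I x, eqB z (Z9el x p) ⊓ Z9G x p y := by
  have h0 : memB z (Z9c x) =
      ⨆ p : Z9I x, (⨆ i : x.Ix, x.val i ⊓ Z9G x p (x.el i)) ⊓ eqB z (Z9el x p) :=
    memB_def z (Z9c x)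
  rw [h0, iSup_inf_eq, inf_iSup_eq]
  refine iSup_mono fun p => ?_
  refine le_inf (inf_le_right.trans (inf_le_left.trans inf_le_right)) ?_
  rw [iSup_inf_eq, iSup_inf_eq, inf_iSup_eq]
  refine iSup_le fun i => ?_
  set L : B := Z9D x y ⊓ (x.val i ⊓ Z9G x p (x.el i) ⊓ eqB z (Z9el x p) ⊓ memB z y) with hL
  have a1 : L ≤ Z9D x y := inf_le_left
  have a2 : L ≤ x.val i := inf_le_right.trans (inf_le_left.trans (inf_le_left.trans inf_le_left))
  have a3 : L ≤ Z9G x p (x.el i) :=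
    inf_le_right.trans (inf_le_left.trans (inf_le_left.trans inf_le_right))
  have a4 : L ≤ eqB z (Z9el x p) := inf_le_right.trans (inf_le_left.trans inf_le_right)
  have a5 : L ≤ memB z y := inf_le_right.trans inf_le_right
  have a6 : L ≤ memB (Z9el x p) y := (le_inf a4 a5).trans (memB_congr_left z (Z9el x p) y)
  have a7 : L ≤ memB (Z9el x p) (x.el i) := a3.trans inf_le_left
  have a8 : L ≤ memB (x.el i) x := a2.trans (val_le_memB x i)
  have a9 : L ≤ eqB y (x.el i) := by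
    have b1 : L ≤ (memB (x.el i) x ⊓ memB (Z9el x p) y ⊓ memB (Z9el x p) (x.el i)) ⇨
        eqB y (x.el i) := a1.trans ((iInf_le _ (x.el i)).trans (iInf_le _ (Z9el x p)))
    have b2 := le_inf b1 (le_inf (le_inf a8 a6) a7)
    exact b2.trans himp_inf_le
  have a10 : L ≤ eqB (x.el i) y := by rw [eqB_symm]; exact a9
  exact (le_inf a10 a3).trans (Z9G_ext x p (x.el i) y)

theorem Z9_unique (x y z z' : BSet B) :
    Z9D x y ⊓ ((memB z (Z9c x) ⊓ memB z y) ⊓ (memB z' (Z9c x) ⊓ memB z' y)) ≤ eqB z z' := by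
  have h1 := Z9_in x y z
  have h2 := Z9_in x y z'
  have h3 : Z9D x y ⊓ ((memB z (Z9c x) ⊓ memB z y) ⊓ (memB z' (Z9c x) ⊓ memB z' y)) ≤
      (⨆ p : Z9I x, eqB z (Z9el x p) ⊓ Z9G x p y) ⊓
        (⨆ p : Z9I x, eqB z' (Z9el x p) ⊓ Z9G x p y) :=
    le_inf ((le_inf inf_le_left (inf_le_right.trans inf_le_left)).trans h1)
      ((le_inf inf_le_left (inf_le_right.trans inf_le_right)).trans h2)
  refine h3.trans ?_
  rw [iSup_inf_eq]
  refine iSup_le fun p => ?_
  rw [inf_iSup_eq]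
  refine iSup_le fun q => ?_
  by_cases hpq : p = q
  · subst hpq
    refine le_trans ?_ (eqB_trans z (Z9el x p) z')
    rw [eqB_symm (Z9el x p) z']
    exact le_inf (inf_le_left.trans inf_le_left) (inf_le_right.trans inf_le_left)
  · refine le_trans ?_ bot_le
    exact (le_inf (inf_le_left.trans inf_le_right) (inf_le_right.trans inf_le_right)).trans
      (Z9G_disj x p q hpq y)

theorem Z9_extB_himp {F G : BSet B → B} (hF : ExtB F) (hG : ExtB G) :
    ExtB (fun a => F a ⇨ G a) := by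
  intro a a'
  rw [le_himp_iff]
  have h1 : eqB a a' ⊓ F a' ≤ F a := by
    rw [eqB_symm]
    exact hF a' a
  have h2 : eqB a a' ⊓ (F a ⇨ G a) ⊓ F a' ≤ eqB a a' ⊓ G a := by
    refine le_inf (inf_le_left.trans inf_le_left) ?_
    have h3 : eqB a a' ⊓ (F a ⇨ G a) ⊓ F a' ≤ (F a ⇨ G a) ⊓ F a :=
      le_inf (inf_le_left.trans inf_le_right)
        ((le_inf (inf_le_left.trans inf_le_left) inf_le_right).trans h1)
    exact h3.trans himp_inf_le
  exact h2.trans (hG a a')

theorem Z9_extB_inf {F G : BSet B → B} (hF : ExtB F) (hG : ExtB G) :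
    ExtB (fun a => F a ⊓ G a) := by
  intro a a'
  exact le_inf ((le_inf inf_le_left (inf_le_right.trans inf_le_left)).trans (hF a a'))
    ((le_inf inf_le_left (inf_le_right.trans inf_le_right)).trans (hG a a'))

theorem Z9_extB_iInf {ι : Type*} {F : ι → BSet B → B} (hF : ∀ i, ExtB (F i)) :
    ExtB (fun a => ⨅ i, F i a) := by
  intro a a'
  refine le_iInf fun i => ?_
  exact (le_inf inf_le_left (inf_le_right.trans (iInf_le _ i))).trans (hF i a a')

theorem Z9_extB_const (b : B) : ExtB (fun _ : BSet B => b) := fun _ _ => inf_le_right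

theorem z_choice (U : UF B) : ∀ x : Mod U, (∀ y, EU U y x → ∃ z, EU U z y) →
    (∀ y y' z, EU U y x → EU U y' x → EU U z y → EU U z y' → y = y') →
      ∃ c, ∀ y, EU U y x → ∃! z, EU U z c ∧ EU U z y := by
  intro x' hne hdis
  obtain ⟨x, rfl⟩ := exists_cls U x'
  refine ⟨cls U (Z9c x), ?_⟩
  intro y' hy'
  obtain ⟨y, rfl⟩ := exists_cls U y'
  rw [EU_cls] at hy'
  obtain ⟨z0', hz0'⟩ := hne (cls U y) hy'
  obtain ⟨z0, rfl⟩ := exists_cls U z0'
  rw [EU_cls] at hz0'
  have hN : (⨆ z, memB z y) ∈ U.s := U.up _ _ hz0' (le_iSup (fun z => memB z y) z0)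
  have hE := U.up _ _ (U.inf _ _ hy' hN) (Z9_exists x y)
  rw [iSup_mem_iff U (fun z => memB z (Z9c x) ⊓ memB z y)
    (Z9_extB_inf (extB_memB_left _) (extB_memB_left _))] at hE
  obtain ⟨z, hz⟩ := hE
  have hD : Z9D x y ∈ U.s := by
    unfold Z9D
    rw [iInf_mem_iff U (fun y' => ⨅ w, (memB y' x ⊓ memB w y ⊓ memB w y') ⇨ eqB y y')]
    · intro y'
      rw [iInf_mem_iff U (fun w => (memB y' x ⊓ memB w y ⊓ memB w y') ⇨ eqB y y')]
      · intro w
        rw [U.himp_mem, U.inf_mem, U.inf_mem]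
        rintro ⟨⟨h1, h2⟩, h3⟩
        have := hdis (cls U y) (cls U y') (cls U w) hy' h1 h2 h3
        rwa [cls_eq] at this
      · exact Z9_extB_himp (Z9_extB_inf (Z9_extB_inf (Z9_extB_const _) (extB_memB_left _))
          (extB_memB_left _)) (Z9_extB_const _)
    · refine Z9_extB_iInf fun w => ?_
      exact Z9_extB_himp (Z9_extB_inf (Z9_extB_inf (extB_memB_left _) (Z9_extB_const _))
          (extB_memB_right _)) (extB_eqB_right _)
  refine ⟨cls U z, ?_, ?_⟩
  · rw [U.inf_mem] at hz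
    exact hz
  · rintro z'' ⟨h1, h2⟩
    obtain ⟨z', rfl⟩ := exists_cls U z''
    rw [EU_cls] at h1 h2
    rw [cls_eq]
    exact U.up _ _ (U.inf _ _ hD (U.inf _ _ (U.inf _ _ h1 h2) hz)) (Z9_unique x y z' z)

end Pool.Agent.H5Z
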