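import Pool.Agent.Lib.H5Z.D2

/-! Chunk D3A. -/

set_option autoImplicit false

open Set Function

namespace Pool.Agent.H5Z

open BSet Fml

variable {B : Type} [CompleteBooleanAlgebra B]

theorem D3A_lat (a b c d : B) (h : a ⊓ b ⊓ c ≤ d) :
    (a ⊔ a ⊓ b) ⊓ (a ⊓ c ⊔ ((a ⊔ b) ⊓ (c ⊔ d)) ⊓ ((a ⊔ c) ⊓ (b ⊔ d))) ⊓
      ((a ⊔ a ⊓ c) ⊓ (a ⊓ b ⊔ ((a ⊔ b) ⊓ (c ⊔ d)) ⊓ ((a ⊔ c) ⊓ (b ⊔ d)))) = a ⊓ d := by
  set E : B := ((a ⊔ b) ⊓ (c ⊔ d)) ⊓ ((a ⊔ c) ⊓ (b ⊔ d)) with hE
  rw [sup_inf_self, sup_inf_self]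
  have hE1 : E ≤ b ⊓ c ⊔ d := by
    rw [sup_inf_right]
    refine le_inf ?_ ?_
    · exact inf_le_right.trans inf_le_right
    · exact inf_le_left.trans inf_le_right
  have hE2 : a ⊓ E ≤ d := by
    refine (inf_le_inf_left a hE1).trans ?_
    rw [inf_sup_left, ← inf_assoc]
    exact sup_le h inf_le_right
  apply le_antisymm
  · refine le_inf (inf_le_left.trans inf_le_left) ?_
    have h1 : (a ⊓ (a ⊓ c ⊔ E)) ⊓ (a ⊓ (a ⊓ b ⊔ E)) ≤ a ⊓ ((a ⊓ c ⊔ E) ⊓ (a ⊓ b ⊔ E)) := by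
      refine le_inf (inf_le_left.trans inf_le_left) (le_inf ?_ ?_)
      · exact inf_le_left.trans inf_le_right
      · exact inf_le_right.trans inf_le_right
    refine h1.trans ?_
    rw [← sup_inf_right, inf_sup_left]
    refine sup_le ?_ hE2
    refine le_trans (le_inf (le_inf inf_le_left ?_) ?_) h
    · exact inf_le_right.trans (inf_le_right.trans inf_le_right)
    · exact inf_le_right.trans (inf_le_left.trans inf_le_right)
  · have h2 : a ⊓ d ≤ E := by
      refine le_inf (le_inf ?_ ?_) (le_inf ?_ ?_)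
      · exact inf_le_left.trans le_sup_left
      · exact inf_le_right.trans le_sup_right
      · exact inf_le_left.trans le_sup_left
      · exact inf_le_right.trans le_sup_right
    refine le_inf (le_inf inf_le_left ?_) (le_inf inf_le_left ?_)
    · exact h2.trans le_sup_right
    · exact h2.trans le_sup_right

theorem eqB_opair (x y x' y' : BSet B) :
    eqB (opair x y) (opair x' y') = eqB x x' ⊓ eqB y y' := by
  have h : eqB x x' ⊓ eqB x y' ⊓ eqB y x' ≤ eqB y y' := by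
    refine le_trans (le_inf inf_le_right (le_inf (inf_le_left.trans inf_le_left)
      (inf_le_left.trans inf_le_right))) ?_
    · refine (inf_le_inf_left _ ?_).trans (eqB_trans y x' y')
      rw [eqB_symm x x']
      exact eqB_trans x' x y'
  rw [← D3A_lat _ _ _ _ h]
  simp only [opair, eqB, iInf_bool_eq, iSup_bool_eq, top_himp, top_inf_eq, iSup_unique,
    iInf_unique, cond_true, cond_false]
  have e0 : ∀ p q : B, (p ⊔ q) ⊓ (p ⊓ q) = p ⊓ q := fun p q =>
    inf_eq_right.mpr (inf_le_left.trans le_sup_left)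
  have e1 : ∀ p q : B, p ⊓ q ⊓ (p ⊔ q) = p ⊓ q := fun p q =>
    inf_eq_left.mpr (inf_le_left.trans le_sup_left)
  simp only [inf_idem, e0, e1]

end Pool.Agent.H5Z
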