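import Pool.Agent.Lib.H5Z.D2
import Pool.Agent.Lib.H5Z.D3A

/-! Chunk D3B. -/

set_option autoImplicit false

open Set Function

namespace Pool.Agent.H5Z

open BSet Fml

variable {B : Type} [CompleteBooleanAlgebra B]

theorem memB_tn (s : ℕ → ℕ → B) (j k : ℕ) : memB (opair (nchk j) (nchk k)) (tn s) = s j k := by
  rw [tn, memB]
  apply le_antisymm
  · refine iSup_le fun p => ?_
    rw [eqB_opair, eqB_nchk, eqB_nchk]
    by_cases h1 : j = p.1
    · by_cases h2 : k = p.2
      · rw [← h1, ← h2]
        exact inf_le_left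
      · rw [if_neg h2, inf_bot_eq, inf_bot_eq]
        exact bot_le
    · rw [if_neg h1, bot_inf_eq, inf_bot_eq]
      exact bot_le
  · refine le_iSup_of_le (j, k) ?_
    rw [eqB_refl, inf_top_eq]

end Pool.Agent.H5Z
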