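import Pool.Agent.Lib.H5Z.DNames

/-! Chunk D4A. -/

set_option autoImplicit false

open Set Function

namespace Pool.Agent.H5Z

open BSet Fml

variable {B : Type} [CompleteBooleanAlgebra B]

theorem D4A_ext (x y : BSet B) :
    (⨅ z, (memB z x ⇨ memB z y) ⊓ (memB z y ⇨ memB z x)) = eqB x y := by
  refine le_antisymm (ext_le x y) (le_iInf fun z => le_inf ?_ ?_)
  · rw [le_himp_iff]
    exact memB_congr_right z x y
  · rw [le_himp_iff, eqB_symm]
    exact memB_congr_right z y x

theorem D4A_sg (z x : BSet B) :
    memB z (BSet.mk Unit (fun _ => x) (fun _ => ⊤)) = eqB z x := by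
  change (⨆ _ : Unit, (⊤ : B) ⊓ eqB z x) = _
  rw [iSup_const, top_inf_eq]

theorem D4A_pr (z x y : BSet B) :
    memB z (BSet.mk Bool (fun c => cond c x y) (fun _ => ⊤)) = eqB z x ⊔ eqB z y := by
  change (⨆ c : Bool, (⊤ : B) ⊓ eqB z (cond c x y)) = _
  rw [iSup_bool_eq, top_inf_eq, top_inf_eq]
  rfl

theorem D4A_op (z x y : BSet B) :
    memB z (opair x y) = eqB z (BSet.mk Unit (fun _ => x) (fun _ => ⊤)) ⊔
      eqB z (BSet.mk Bool (fun c => cond c x y) (fun _ => ⊤)) := by
  change (⨆ b : Bool, (⊤ : B) ⊓ eqB z (cond b (BSet.mk Unit (fun _ => x) (fun _ => ⊤))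
    (BSet.mk Bool (fun c => cond c x y) (fun _ => ⊤)))) = _
  rw [iSup_bool_eq, top_inf_eq, top_inf_eq]
  rfl

theorem bval_fPair (p x y : ℕ) (hp : p ≠ 101) (hx : x ≠ 101 ∧ x ≠ 102) (hy : y ≠ 101 ∧ y ≠ 102)
    (v : ℕ → BSet B) : bval (fPair p x y) v = eqB (v p) (opair (v x) (v y)) := by
  have e102 : (101 : ℕ) ≠ 102 := by decide
  have key : ∀ a : BSet B,
      bval (Fml.iff (mem 101 p) (disj (all 102 (Fml.iff (mem 102 101) (eq 102 x)))
        (all 102 (Fml.iff (mem 102 101) (disj (eq 102 x) (eq 102 y)))))) (update v 101 a) =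
      (memB a (v p) ⇨ memB a (opair (v x) (v y))) ⊓ (memB a (opair (v x) (v y)) ⇨ memB a (v p)) := by
    intro a
    have h1 : bval (mem 101 p) (update v 101 a) = memB a (v p) := by
      change memB (update v 101 a 101) (update v 101 a p) = _
      rw [update_self, update_of_ne hp]
    have h2 : bval (all 102 (Fml.iff (mem 102 101) (eq 102 x))) (update v 101 a) =
        eqB a (BSet.mk Unit (fun _ => v x) (fun _ => ⊤)) := by
      rw [← D4A_ext]
      change (⨅ b, bval (Fml.iff (mem 102 101) (eq 102 x)) (update (update v 101 a) 102 b)) = _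
      refine iInf_congr fun b => ?_
      rw [bval_iff, D4A_sg]
      change (memB (update (update v 101 a) 102 b 102) (update (update v 101 a) 102 b 101) ⇨
        eqB (update (update v 101 a) 102 b 102) (update (update v 101 a) 102 b x)) ⊓ (_ ⇨ _) = _
      rw [update_self, update_of_ne e102, update_self, update_of_ne hx.2, update_of_ne hx.1]
      congr 1
      change (eqB (update (update v 101 a) 102 b 102) (update (update v 101 a) 102 b x) ⇨
        memB (update (update v 101 a) 102 b 102) (update (update v 101 a) 102 b 101)) = _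
      rw [update_self, update_of_ne e102, update_self, update_of_ne hx.2, update_of_ne hx.1]
    have h3 : bval (all 102 (Fml.iff (mem 102 101) (disj (eq 102 x) (eq 102 y))))
        (update v 101 a) = eqB a (BSet.mk Bool (fun c => cond c (v x) (v y)) (fun _ => ⊤)) := by
      rw [← D4A_ext]
      change (⨅ b, bval (Fml.iff (mem 102 101) (disj (eq 102 x) (eq 102 y)))
        (update (update v 101 a) 102 b)) = _
      refine iInf_congr fun b => ?_
      have e1 : bval (mem 102 101) (update (update v 101 a) 102 b) = memB b a := by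
        change memB (update (update v 101 a) 102 b 102) (update (update v 101 a) 102 b 101) = _
        rw [update_self, update_of_ne e102, update_self]
      have e2 : bval (eq 102 x) (update (update v 101 a) 102 b) = eqB b (v x) := by
        change eqB (update (update v 101 a) 102 b 102) (update (update v 101 a) 102 b x) = _
        rw [update_self, update_of_ne hx.2, update_of_ne hx.1]
      have e3 : bval (eq 102 y) (update (update v 101 a) 102 b) = eqB b (v y) := by
        change eqB (update (update v 101 a) 102 b 102) (update (update v 101 a) 102 b y) = _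
        rw [update_self, update_of_ne hy.2, update_of_ne hy.1]
      rw [bval_iff, bval_disj, e1, e2, e3, D4A_pr]
    rw [bval_iff, bval_disj, h1, h2, h3, D4A_op]
  rw [← D4A_ext]
  exact iInf_congr key

end Pool.Agent.H5Z
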