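import Pool.Agent.Lib.H5Z.DNames
import Pool.Agent.Lib.H5Z.D4A

/-! Chunk D4B. -/

set_option autoImplicit false

open Set Function

namespace Pool.Agent.H5Z

open BSet Fml

variable {B : Type} [CompleteBooleanAlgebra B]

theorem bval_fRel (x y r : ℕ)
    (hx : x ≠ 101 ∧ x ≠ 102 ∧ x ≠ 103) (hy : y ≠ 101 ∧ y ≠ 102 ∧ y ≠ 103)
    (hr : r ≠ 101 ∧ r ≠ 102 ∧ r ≠ 103)
    (v : ℕ → BSet B) : bval (fRel x y r) v = memB (opair (v x) (v y)) (v r) := by
  unfold fRel
  rw [bval_ex]
  have key : ∀ a : BSet B, bval (conj (fPair 103 x y) (mem 103 r)) (update v 103 a) =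
      eqB a (opair (v x) (v y)) ⊓ memB a (v r) := by
    intro a
    rw [bval_conj, bval_fPair 103 x y (by decide) ⟨hx.1, hx.2.1⟩ ⟨hy.1, hy.2.1⟩]
    have e1 : bval (mem 103 r) (update v 103 a) = memB a (v r) := by
      change memB (update v 103 a 103) (update v 103 a r) = _
      rw [update_self, update_of_ne hr.2.2]
    rw [e1, update_self, update_of_ne hx.2.2, update_of_ne hy.2.2]
  simp_rw [key]
  apply le_antisymm
  · exact iSup_le fun a => memB_congr_left a _ _
  · refine le_iSup_of_le (opair (v x) (v y)) ?_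
    rw [eqB_refl, top_inf_eq]

end Pool.Agent.H5Z
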