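import Pool.Agent.Lib.H5Z.D2
import Pool.Agent.Lib.H5Z.D3
import Pool.Agent.Lib.H5Z.D4

/-! Chunk D5: Boolean value of the formula for the domain. -/

set_option autoImplicit false

open Set Function

namespace Pool.Agent.H5Z

open BSet Fml

variable {B : Type} [CompleteBooleanAlgebra B]

theorem extB_opair_left (y r : BSet B) : ExtB (fun x => memB (opair x y) r) := by
  intro a a'
  refine le_trans (inf_le_inf_right _ ?_) (memB_congr_left (opair a y) (opair a' y) r)
  rw [eqB_opair, eqB_refl, inf_top_eq]

theorem extB_opair_right (x r : BSet B) : ExtB (fun y => memB (opair x y) r) := by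
  intro a a'
  refine le_trans (inf_le_inf_right _ ?_) (memB_congr_left (opair x a) (opair x a') r)
  rw [eqB_opair, eqB_refl, top_inf_eq]

theorem bval_fDom (j t : ℕ) (hj : j < 101) (ht : t < 101) (v : ℕ → BSet B) (h0 : v 0 = omB) :
    bval (fDom 0 j t) v = ⨆ k : ℕ, memB (opair (v j) (nchk k)) (v t) := by
  unfold fDom
  rw [bval_ex, ← iSup_omB (fun z => memB (opair (v j) z) (v t)) (extB_opair_right _ _)]
  refine iSup_congr fun a => ?_
  rw [bval_conj, bval_fRel j 104 t (by omega) (by omega) (by omega)]
  have e1 : bval (mem 104 0) (update v 104 a) = memB a omB := by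
    change memB (update v 104 a 104) (update v 104 a 0) = _
    rw [update_self, update_of_ne (by decide), h0]
  rw [e1, update_self, update_of_ne (show j ≠ 104 by omega), update_of_ne (show t ≠ 104 by omega)]

end Pool.Agent.H5Z
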