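import Pool.Agent.Lib.H5Z.DNames

/-! Chunk D2A. -/

set_option autoImplicit false

open Set Function

namespace Pool.Agent.H5Z

open BSet Fml

variable {B : Type} [CompleteBooleanAlgebra B]

theorem D2A_lt (m : ℕ) : ∀ n, m < n → eqB (nchk m : BSet B) (nchk n) = ⊥ := by
  induction m using Nat.strong_induction_on with
  | _ m ih =>
    intro n hmn
    rw [eq_bot_iff, nchk_eq n, eqB_symm, nchk_eq m, eqB]
    refine inf_le_left.trans ((iInf_le _ (⟨m, hmn⟩ : Fin n)).trans ?_)
    rw [top_himp]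
    refine iSup_le fun i => ?_
    rw [eqB_symm, ih i.1 i.2 m i.2]
    exact inf_le_right

theorem eqB_nchk (m n : ℕ) :
    eqB (nchk m : BSet B) (nchk n) = if m = n then ⊤ else ⊥ := by
  rcases lt_trichotomy m n with h | h | h
  · rw [if_neg (Nat.ne_of_lt h), D2A_lt m n h]
  · subst h
    rw [if_pos rfl, eqB_refl]
  · rw [if_neg (Nat.ne_of_gt h), eqB_symm, D2A_lt n m h]

theorem memB_nchk (m n : ℕ) :
    memB (nchk m : BSet B) (nchk n) = if m < n then ⊤ else ⊥ := by
  rw [nchk_eq n, memB]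
  by_cases h : m < n
  · rw [if_pos h, eq_top_iff]
    refine le_iSup_of_le (⟨m, h⟩ : Fin n) ?_
    rw [eqB_refl, top_inf_eq]
  · rw [if_neg h, eq_bot_iff]
    refine iSup_le fun j => ?_
    rw [eqB_nchk, if_neg (by have := j.2; omega)]
    exact inf_le_right

end Pool.Agent.H5Z
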