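import Pool.Agent.Lib.H5Z.DNames
import Pool.Agent.Lib.H5Z.D2A

/-! Chunk D2B. -/

set_option autoImplicit false

open Set Function

namespace Pool.Agent.H5Z

open BSet Fml

variable {B : Type} [CompleteBooleanAlgebra B]

theorem D2B_iInf (x : BSet B) (F : BSet B → B) (hF : ExtB F) :
    (⨅ z, memB z x ⇨ F z) = ⨅ i : x.Ix, x.val i ⇨ F (x.el i) := by
  apply le_antisymm
  · refine le_iInf fun i => ?_
    refine (iInf_le _ (x.el i)).trans ?_
    exact himp_le_himp_right (val_le_memB x i)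
  · refine le_iInf fun z => ?_
    rw [le_himp_iff, memB_def, inf_iSup_eq]
    refine iSup_le fun i => ?_
    have h1 : (⨅ i : x.Ix, x.val i ⇨ F (x.el i)) ⊓ x.val i ≤ F (x.el i) := by
      rw [← le_himp_iff]
      exact iInf_le _ i
    have h2 : eqB (x.el i) z ⊓ F (x.el i) ≤ F z := hF _ _
    rw [eqB_symm z (x.el i)]
    refine le_trans (le_inf ?_ ?_) h2
    · exact inf_le_right.trans inf_le_right
    · refine le_trans (le_inf inf_le_left ?_) h1
      exact inf_le_right.trans inf_le_left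

theorem D2B_iSup (x : BSet B) (F : BSet B → B) (hF : ExtB F) :
    (⨆ z, memB z x ⊓ F z) = ⨆ i : x.Ix, x.val i ⊓ F (x.el i) := by
  apply le_antisymm
  · refine iSup_le fun z => ?_
    rw [memB_def, iSup_inf_eq]
    refine iSup_mono fun i => ?_
    refine le_inf (inf_le_left.trans inf_le_left) ?_
    have h2 : eqB z (x.el i) ⊓ F z ≤ F (x.el i) := hF _ _
    refine le_trans (le_inf ?_ inf_le_right) h2
    exact inf_le_left.trans inf_le_right
  · refine iSup_le fun i => ?_
    refine le_iSup_of_le (x.el i) ?_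
    exact inf_le_inf_right _ (val_le_memB x i)

theorem iInf_omB (F : BSet B → B) (hF : ExtB F) :
    (⨅ z, memB z omB ⇨ F z) = ⨅ n : ℕ, F (nchk n) := by
  rw [D2B_iInf _ _ hF]
  refine iInf_congr fun n => ?_
  exact top_himp

theorem iSup_omB (F : BSet B → B) (hF : ExtB F) :
    (⨆ z, memB z omB ⊓ F z) = ⨆ n : ℕ, F (nchk n) := by
  rw [D2B_iSup _ _ hF]
  refine iSup_congr fun n => ?_
  exact top_inf_eq _

theorem memB_TB (k : ℕ) : memB (nchk k : BSet B) TB = if Even k then ⊤ else ⊥ := by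
  rw [TB, memB]
  by_cases h : Even k
  · rw [if_pos h, eq_top_iff]
    refine le_iSup_of_le k ?_
    rw [if_pos h, eqB_refl, top_inf_eq]
  · rw [if_neg h, eq_bot_iff]
    refine iSup_le fun j => ?_
    rw [eqB_nchk]
    by_cases hj : k = j
    · subst hj
      rw [if_neg h]
      exact inf_le_left
    · rw [if_neg hj]
      exact inf_le_right

theorem iInf_WB (ι : Type) (s : ι → ℕ → ℕ → B) (F : BSet B → B) (hF : ExtB F) :
    (⨅ z, memB z (WB ι s) ⇨ F z) = ⨅ i : ι, F (tn (s i)) := by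
  rw [D2B_iInf _ _ hF]
  refine iInf_congr fun n => ?_
  exact top_himp

theorem iSup_WB (ι : Type) (s : ι → ℕ → ℕ → B) (F : BSet B → B) (hF : ExtB F) :
    (⨆ z, memB z (WB ι s) ⊓ F z) = ⨆ i : ι, F (tn (s i)) := by
  rw [D2B_iSup _ _ hF]
  refine iSup_congr fun n => ?_
  exact top_inf_eq _

end Pool.Agent.H5Z
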