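import Pool.Agent.Lib.H5Z.D1
import Pool.Agent.Lib.H5Z.D2

/-! Chunk D7: almost all. -/

set_option autoImplicit false

open Set Function

namespace Pool.Agent.H5Z

open BSet Fml

variable {B : Type} [CompleteBooleanAlgebra B]

theorem bval_fAA (φ : Fml) (hφ : fresh 99 φ = true) (v : ℕ → BSet B) (h0 : v 0 = omB) :
    bval (fAA 0 6 φ) v = AAb (fun j => bval φ (update v 6 (nchk j))) := by
  unfold fAA AAb
  rw [bval_ex]
  have e1 : (fun a : BSet B => bval (conj (mem 99 0) (all 6 (imp (mem 6 0)
      (imp (neg (mem 6 99)) φ)))) (update v 99 a)) =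
      fun a => memB a omB ⊓ bval (all 6 (imp (mem 6 0) (imp (neg (mem 6 99)) φ)))
        (update v 99 a) := by
    funext a
    rw [bval_conj]
    congr 1
    show memB (update v 99 a 99) (update v 99 a 0) = memB a omB
    rw [update_self, update_of_ne (by decide), h0]
  have e2 : (⨆ a : BSet B, bval (conj (mem 99 0) (all 6 (imp (mem 6 0)
      (imp (neg (mem 6 99)) φ)))) (update v 99 a)) =
      ⨆ m : ℕ, bval (all 6 (imp (mem 6 0) (imp (neg (mem 6 99)) φ)))
        (update v 99 (nchk m)) := by
    rw [← iSup_omB (fun a => bval (all 6 (imp (mem 6 0) (imp (neg (mem 6 99)) φ)))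
      (update v 99 a)) (extB_bval _ v 99)]
    exact congrArg iSup e1
  rw [e2]
  refine iSup_congr fun m => ?_
  have e3 : bval (all 6 (imp (mem 6 0) (imp (neg (mem 6 99)) φ))) (update v 99 (nchk m)) =
      ⨅ b : BSet B, memB b omB ⇨ bval (imp (neg (mem 6 99)) φ)
        (update (update v 99 (nchk m)) 6 b) := by
    show (⨅ b : BSet B, memB (update (update v 99 (nchk m)) 6 b 6)
      (update (update v 99 (nchk m)) 6 b 0) ⇨ _) = _
    refine iInf_congr fun b => ?_
    rw [update_self, update_of_ne (by decide), update_of_ne (by decide), h0]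
  rw [e3, iInf_omB _ (extB_bval _ _ 6)]
  refine iInf_congr fun n => ?_
  have e4 : bval (imp (neg (mem 6 99)) φ) (update (update v 99 (nchk m)) 6 (nchk n)) =
      (memB (nchk n : BSet B) (nchk m))ᶜ ⇨ bval φ (update v 6 (nchk n)) := by
    show bval (neg (mem 6 99)) (update (update v 99 (nchk m)) 6 (nchk n)) ⇨
      bval φ (update (update v 99 (nchk m)) 6 (nchk n)) = _
    rw [bval_neg, update_comm (by decide : (99 : ℕ) ≠ 6), bval_fresh 99 φ hφ]
    congr 2
  rw [e4, memB_nchk]
  by_cases h : n < m
  · rw [if_pos h, compl_top, bot_himp, iInf_neg (by omega)]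
  · rw [if_neg h, compl_bot, top_himp, iInf_pos (by omega)]

end Pool.Agent.H5Z
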