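import Pool.Agent.Lib.H5Z.D3
import Pool.Agent.Lib.H5Z.D5
import Pool.Agent.Lib.H5Z.D7

/-! Chunk E1: the clause g1 of the gap formula. -/

set_option autoImplicit false

open Set Function

namespace Pool.Agent.H5Z

open BSet Fml

variable {B : Type} [CompleteBooleanAlgebra B]

theorem E1_extB_const (b : B) : ExtB (fun _ : BSet B => b) := fun _ _ => inf_le_right

theorem E1_extB_himp {F G : BSet B → B} (hF : ExtB F) (hG : ExtB G) : ExtB (fun x => F x ⇨ G x) := by
  intro a a'
  rw [le_himp_iff]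
  have h1 : eqB a a' ⊓ F a' ≤ F a := by
    have := hF a' a
    rwa [eqB_symm] at this
  have h2 : eqB a a' ⊓ (F a ⇨ G a) ⊓ F a' ≤ eqB a a' ⊓ G a := by
    refine le_inf (inf_le_left.trans inf_le_left) ?_
    have h3 : eqB a a' ⊓ (F a ⇨ G a) ⊓ F a' ≤ (F a ⇨ G a) ⊓ F a :=
      le_inf (inf_le_left.trans inf_le_right)
        (le_trans (le_inf (inf_le_left.trans inf_le_left) inf_le_right) h1)
    exact h3.trans himp_inf_le
  exact h2.trans (hG a a')

theorem E1_extB_inf {F G : BSet B → B} (hF : ExtB F) (hG : ExtB G) : ExtB (fun x => F x ⊓ G x) := by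
  intro a a'
  exact le_inf (le_trans (inf_le_inf_left _ inf_le_left) (hF a a'))
    (le_trans (inf_le_inf_left _ inf_le_right) (hG a a'))

theorem E1_extB_sup {F G : BSet B → B} (hF : ExtB F) (hG : ExtB G) : ExtB (fun x => F x ⊔ G x) := by
  intro a a'
  rw [inf_sup_left]
  exact sup_le_sup (hF a a') (hG a a')

theorem E1_extB_compl {F : BSet B → B} (hF : ExtB F) : ExtB (fun x => (F x)ᶜ) := by
  have h := E1_extB_himp hF (E1_extB_const (⊥ : B))
  intro a a'
  have := h a a'
  simpa only [himp_bot] using this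

theorem E1_extB_iInf {ι : Sort*} {F : ι → BSet B → B} (hF : ∀ i, ExtB (F i)) :
    ExtB (fun x => ⨅ i, F i x) := by
  intro a a'
  exact le_iInf fun i => le_trans (inf_le_inf_left _ (iInf_le _ i)) (hF i a a')

theorem E1_extB_iSup {ι : Sort*} {F : ι → BSet B → B} (hF : ∀ i, ExtB (F i)) :
    ExtB (fun x => ⨆ i, F i x) := by
  intro a a'
  rw [inf_iSup_eq]
  exact iSup_mono fun i => hF i a a'

theorem E1_extB_AAb {F : ℕ → BSet B → B} (hF : ∀ i, ExtB (F i)) :
    ExtB (fun x => AAb (fun j => F j x)) := by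
  unfold AAb
  exact E1_extB_iSup fun n => E1_extB_iInf fun j => E1_extB_iInf fun _ => hF j

theorem E1_extB_iffB {F G : BSet B → B} (hF : ExtB F) (hG : ExtB G) :
    ExtB (fun x => iffB (F x) (G x)) := by
  unfold iffB
  exact E1_extB_inf (E1_extB_himp hF hG) (E1_extB_himp hG hF)

/-- bounded universal quantifier over `ω` -/
theorem E1_om {F : BSet B → B} (hF : ExtB F) (h : ∀ n : ℕ, F (nchk n) = ⊤) (z : BSet B) :
    memB z omB ⇨ F z = ⊤ := by
  have h1 := iInf_omB F hF
  rw [eq_top_iff]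
  refine le_trans ?_ (iInf_le (fun z => memB z omB ⇨ F z) z)
  rw [h1]
  exact le_iInf fun n => (h n).ge

/-- bounded universal quantifier over the family -/
theorem E1_W (ι : Type) (s : ι → ℕ → ℕ → B) {F : BSet B → B} (hF : ExtB F)
    (h : ∀ i : ι, F (tn (s i)) = ⊤) (z : BSet B) : memB z (WB ι s) ⇨ F z = ⊤ := by
  have h1 := iInf_WB ι s F hF
  rw [eq_top_iff]
  refine le_trans ?_ (iInf_le (fun z => memB z (WB ι s) ⇨ F z) z)
  rw [h1]
  exact le_iInf fun n => (h n).ge

/-- value of `j ∈ dom t` at a numeral -/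
def E1_D (j : ℕ) (t : BSet B) : B := ⨆ k : ℕ, memB (opair (nchk j) (nchk k)) t

theorem E1_extB_D (j : ℕ) : ExtB (fun t : BSet B => E1_D j t) :=
  E1_extB_iSup fun _ => extB_memB_right _

theorem E1_D_tn (j : ℕ) (s : ℕ → ℕ → B) : E1_D j (tn s) = dmB s j := by
  unfold E1_D dmB
  exact iSup_congr fun k => memB_tn s j k

theorem E1_fDom (j n t : ℕ) (hj : j < 101) (ht : t < 101) (v : ℕ → BSet B) (h0 : v 0 = omB)
    (hn : v j = nchk n) : bval (fDom 0 j t) v = E1_D n (v t) := by
  rw [bval_fDom j t hj ht v h0, hn]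
  rfl

theorem bval_g1 (ι : Type) (s : ι → ℕ → ℕ → B)
    (h : ∀ i j k k', k ≠ k' → s i j k ⊓ s i j k' = ⊥)
    (v : ℕ → BSet B) (h0 : v 0 = omB) (h1 : v 1 = WB ι s) : bval g1 v = ⊤ := by
  unfold g1
  simp only [bval]
  rw [eq_top_iff]
  refine le_iInf fun t => le_iInf fun a => le_iInf fun b => le_iInf fun c => ?_
  rw [bval_fRel 6 7 3 (by decide) (by decide) (by decide),
    bval_fRel 6 8 3 (by decide) (by decide) (by decide)]
  simp only [Function.update_self, Function.update_of_ne, ne_eq,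
    Nat.reduceEqDiff, not_false_eq_true,
    OfNat.zero_ne_ofNat, OfNat.one_ne_ofNat, h0, h1]
  refine (E1_W ι s (F := fun t => memB a omB ⇨ (memB b omB ⇨ (memB c omB ⇨
    (memB (opair a b) t ⇨ (memB (opair a c) t ⇨ eqB b c))))) ?_ (fun i => ?_) t).ge
  · refine E1_extB_himp (E1_extB_const _) (E1_extB_himp (E1_extB_const _)
      (E1_extB_himp (E1_extB_const _) (E1_extB_himp (extB_memB_right _)
        (E1_extB_himp (extB_memB_right _) (E1_extB_const _)))))
  refine E1_om (F := fun a => memB b omB ⇨ (memB c omB ⇨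
    (memB (opair a b) (tn (s i)) ⇨ (memB (opair a c) (tn (s i)) ⇨ eqB b c)))) ?_ (fun j => ?_) a
  · refine E1_extB_himp (E1_extB_const _) (E1_extB_himp (E1_extB_const _)
      (E1_extB_himp (extB_opair_left _ _) (E1_extB_himp (extB_opair_left _ _) (E1_extB_const _))))
  refine E1_om (F := fun b => memB c omB ⇨ (memB (opair (nchk j) b) (tn (s i)) ⇨
    (memB (opair (nchk j) c) (tn (s i)) ⇨ eqB b c))) ?_ (fun k => ?_) b
  · refine E1_extB_himp (E1_extB_const _)
      (E1_extB_himp (extB_opair_right _ _) (E1_extB_himp (E1_extB_const _) (extB_eqB_left _)))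
  refine E1_om (F := fun c => memB (opair (nchk j) (nchk k)) (tn (s i)) ⇨
    (memB (opair (nchk j) c) (tn (s i)) ⇨ eqB (nchk k) c)) ?_ (fun k' => ?_) c
  · exact E1_extB_himp (E1_extB_const _) (E1_extB_himp (extB_opair_right _ _) (extB_eqB_right _))
  rw [memB_tn, memB_tn, eqB_nchk]
  by_cases hk : k = k'
  · rw [if_pos hk, himp_top, himp_top]
  · rw [if_neg hk, himp_himp, himp_bot, h i j k k' hk]
    exact compl_bot

end Pool.Agent.H5Z
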