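import Pool.Agent.Lib.H5Z.D2

/-! Chunk D6A. -/

set_option autoImplicit false

open Set Function

namespace Pool.Agent.H5Z

open BSet Fml

variable {B : Type} [CompleteBooleanAlgebra B]

/-- Boolean value of `w is inductive` -/
def D6A_ind (w : BSet B) : B :=
  (⨆ e, memB e w ⊓ ⨅ z, (memB z e)ᶜ) ⊓
    ⨅ x, memB x w ⇨ ⨆ s, memB s w ⊓ ⨅ z, (memB z s ⇨ (memB z x ⊔ eqB z x)) ⊓
      ((memB z x ⊔ eqB z x) ⇨ memB z s)

theorem D6A_bval_fInd (i : ℕ) (hi : i ≠ 101 ∧ i ≠ 102 ∧ i ≠ 103) (v : ℕ → BSet B) :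
    bval (fInd i) v = D6A_ind (v i) := by
  obtain ⟨h1, h2, h3⟩ := hi
  simp only [fInd, bval_conj, bval_ex, bval_neg, bval_iff, bval_disj, bval, update_apply, D6A_ind]
  simp [h1, h2, h3]

theorem D6A_memB_zero (z : BSet B) : memB z (nchk 0) = ⊥ := by
  rw [nchk_eq]
  simp [memB]

theorem D6A_memB_nchk (z : BSet B) (n : ℕ) :
    memB z (nchk n) = ⨆ k : Fin n, eqB z (nchk k.1) := by
  rw [nchk_eq]
  simp only [memB, top_inf_eq]

theorem D6A_memB_succ (z : BSet B) (n : ℕ) :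
    memB z (nchk (n + 1)) = memB z (nchk n) ⊔ eqB z (nchk n) := by
  rw [D6A_memB_nchk, D6A_memB_nchk]
  apply le_antisymm
  · refine iSup_le fun j => ?_
    rcases Nat.lt_succ_iff_lt_or_eq.1 j.2 with h | h
    · exact le_sup_of_le_left (le_iSup (fun k : Fin n => eqB z (nchk k.1)) ⟨j.1, h⟩)
    · rw [h]
      exact le_sup_right
  · refine sup_le (iSup_le fun j => ?_) ?_
    · exact le_iSup (fun k : Fin (n + 1) => eqB z (nchk k.1)) ⟨j.1, by omega⟩
    · exact le_iSup (fun k : Fin (n + 1) => eqB z (nchk k.1)) ⟨n, by omega⟩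

theorem D6A_memB_omB (z : BSet B) : memB z omB = ⨆ n : ℕ, eqB z (nchk n) := by
  simp [omB, memB]

theorem D6A_nchk_omB (n : ℕ) : memB (nchk n : BSet B) omB = ⊤ := by
  rw [D6A_memB_omB, eq_top_iff]
  refine le_iSup_of_le n ?_
  rw [eqB_refl]

theorem bval_fInd_omB (i : ℕ) (hi : i ≠ 101 ∧ i ≠ 102 ∧ i ≠ 103) (v : ℕ → BSet B)
    (h0 : v i = omB) : bval (fInd i) v = ⊤ := by
  rw [D6A_bval_fInd i hi, h0, eq_top_iff]
  refine le_inf ?_ (le_iInf fun x => ?_)
  · refine le_iSup_of_le (nchk 0) (le_inf ?_ (le_iInf fun z => ?_))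
    · rw [D6A_nchk_omB]
    · rw [D6A_memB_zero, compl_bot]
  · rw [le_himp_iff, top_inf_eq, D6A_memB_omB]
    refine iSup_le fun n => ?_
    refine le_iSup_of_le (nchk (n + 1)) (le_inf ?_ (le_iInf fun z => ?_))
    · rw [D6A_nchk_omB]
      exact le_top
    · rw [D6A_memB_succ, le_inf_iff, le_himp_iff, le_himp_iff, inf_sup_left, inf_sup_left]
      constructor
      · refine sup_le (le_sup_of_le_left ?_) (le_sup_of_le_right ?_)
        · rw [eqB_symm]
          exact memB_congr_right z (nchk n) x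
        · rw [eqB_symm x, inf_comm]
          exact eqB_trans z (nchk n) x
      · refine sup_le (le_sup_of_le_left ?_) (le_sup_of_le_right ?_)
        · exact memB_congr_right z x (nchk n)
        · rw [inf_comm]
          exact eqB_trans z x (nchk n)

end Pool.Agent.H5Z
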