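import Pool.Agent.Lib.H5Z.D2
import Pool.Agent.Lib.H5Z.D6A

/-! Chunk D6B. -/

set_option autoImplicit false

open Set Function

namespace Pool.Agent.H5Z

open BSet Fml

variable {B : Type} [CompleteBooleanAlgebra B]

theorem D6B_ind_le (w : BSet B) (n : ℕ) : D6A_ind w ≤ memB (nchk n) w := by
  induction n with
  | zero =>
    refine inf_le_left.trans (iSup_le fun e => ?_)
    have h1 : (⨅ z, (memB z e)ᶜ) ≤ eqB e (nchk 0) := by
      refine le_trans (le_iInf fun z => ?_) (ext_le e (nchk 0))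
      refine (iInf_le _ z).trans ?_
      rw [D6A_memB_zero, himp_bot, bot_himp, inf_top_eq]
    refine le_trans ?_ (memB_congr_left e (nchk 0) w)
    rw [inf_comm]
    exact inf_le_inf_right _ h1
  | succ n ih =>
    have h1 : D6A_ind w ≤ ⨆ s, memB s w ⊓ ⨅ z, (memB z s ⇨ (memB z (nchk n) ⊔ eqB z (nchk n))) ⊓
      ((memB z (nchk n) ⊔ eqB z (nchk n)) ⇨ memB z s) := by
      refine le_trans (le_inf ?_ ih) himp_inf_le
      exact inf_le_right.trans (iInf_le _ (nchk n))
    refine h1.trans (iSup_le fun s => ?_)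
    have h2 : (⨅ z, (memB z s ⇨ (memB z (nchk n) ⊔ eqB z (nchk n))) ⊓
      ((memB z (nchk n) ⊔ eqB z (nchk n)) ⇨ memB z s)) ≤ eqB s (nchk (n + 1)) := by
      refine le_trans (le_iInf fun z => ?_) (ext_le s (nchk (n + 1)))
      refine (iInf_le _ z).trans ?_
      rw [D6A_memB_succ]
    refine le_trans ?_ (memB_congr_left s (nchk (n + 1)) w)
    rw [inf_comm]
    exact inf_le_inf_right _ h2

theorem bval_fInd_le (i : ℕ) (hi : i ≠ 101 ∧ i ≠ 102 ∧ i ≠ 103) (v : ℕ → BSet B) (n : ℕ) :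
    bval (fInd i) v ≤ memB (nchk n) (v i) := by
  rw [D6A_bval_fInd i hi]
  exact D6B_ind_le (v i) n

end Pool.Agent.H5Z
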