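import Pool.Agent.Lib.H5Z.D2
import Pool.Agent.Lib.H5Z.D6A
import Pool.Agent.Lib.H5Z.D6B

/-! Chunk D6C. -/

set_option autoImplicit false

open Set Function

namespace Pool.Agent.H5Z

open BSet Fml

variable {B : Type} [CompleteBooleanAlgebra B]

theorem bval_fOmega (v : ℕ → BSet B) (h0 : v 0 = omB) : bval (fOmega 0) v = ⊤ := by
  have h1 := bval_fInd_omB 0 (by decide) v h0
  have h2 := fun a => D6A_bval_fInd 104 (by decide) (update v 104 a)
  simp only [fOmega, bval_conj, bval, h1, h2, update_apply, top_inf_eq]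
  rw [eq_top_iff]
  refine le_iInf fun a => ?_
  rw [le_himp_iff, top_inf_eq]
  refine le_iInf fun z => ?_
  rw [le_himp_iff]
  simp only [reduceIte, Nat.reduceEqDiff, OfNat.zero_ne_ofNat, h0]
  rw [D6A_memB_omB, inf_iSup_eq]
  refine iSup_le fun n => ?_
  have h3 := D6B_ind_le a n
  refine le_trans (inf_le_inf_right _ h3) ?_
  rw [inf_comm, eqB_symm]
  exact memB_congr_left (nchk n) z a

end Pool.Agent.H5Z
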