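import Pool.Agent.Lib.H5Z.D6A
import Pool.Agent.Lib.H5Z.D6B
import Pool.Agent.Lib.H5Z.D6C

/-! Chunk D6: the name of omega is the least inductive set. -/
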