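import Mathlib

/-!
# The complete Boolean algebra of regular open subsets of a preorder
-/

set_option autoImplicit false

open Set Function

namespace Pool.Agent.H5Z

/-- Regular open subsets of `P`. -/
structure RO (P : Type) [Preorder P] where
  s : Set P
  reg : ∀ p, p ∈ s ↔ ∀ q ≤ p, ∃ r ≤ q, r ∈ s

namespace RO

variable {P : Type} [Preorder P]

theorem ext' {a b : RO P} (h : a.s = b.s) : a = b := by
  cases a; cases b; cases h; rfl

theorem lower (a : RO P) {p q : P} (hp : p ∈ a.s) (h : q ≤ p) : q ∈ a.s :=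
  (a.reg q).2 fun r hr => (a.reg p).1 hp r (hr.trans h)

theorem mem_of_dense (a : RO P) {p : P} (h : ∀ q ≤ p, ∃ r ≤ q, r ∈ a.s) : p ∈ a.s :=
  (a.reg p).2 h

/-- The regular open set generated by an arbitrary set (its elements are the conditions below
which the downward closure of the set is dense). -/
def gen (A : Set P) : RO P where
  s := {p | ∀ q ≤ p, ∃ r ≤ q, ∃ a ∈ A, r ≤ a}
  reg p := by
    constructor
    · intro hp q hq
      exact ⟨q, le_rfl, fun r hr => hp r (hr.trans hq)⟩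
    · intro h q hq
      obtain ⟨r, hr, hr'⟩ := h q hq
      obtain ⟨r2, hr2, a, ha, h2⟩ := hr' r le_rfl
      exact ⟨r2, hr2.trans hr, a, ha, h2⟩

theorem mem_gen (A : Set P) (p : P) : p ∈ (gen A).s ↔ ∀ q ≤ p, ∃ r ≤ q, ∃ a ∈ A, r ≤ a := Iff.rfl

instance : PartialOrder (RO P) where
  le a b := a.s ⊆ b.s
  le_refl a := Subset.rfl
  le_trans a b c h h' := Subset.trans h h'
  le_antisymm a b h h' := ext' (Subset.antisymm h h')

theorem le_def (a b : RO P) : a ≤ b ↔ a.s ⊆ b.s := Iff.rfl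

/-- intersection -/
def infR (a b : RO P) : RO P where
  s := a.s ∩ b.s
  reg p := by
    constructor
    · intro hp q hq
      exact ⟨q, le_rfl, a.lower hp.1 hq, b.lower hp.2 hq⟩
    · intro h
      refine ⟨a.mem_of_dense fun q hq => ?_, b.mem_of_dense fun q hq => ?_⟩
      · obtain ⟨r, hr, hr'⟩ := h q hq
        exact ⟨r, hr, hr'.1⟩
      · obtain ⟨r, hr, hr'⟩ := h q hq
        exact ⟨r, hr, hr'.2⟩

/-- intersection of a set -/
def sInfR (S : Set (RO P)) : RO P where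
  s := {p | ∀ a ∈ S, p ∈ a.s}
  reg p := by
    constructor
    · intro hp q hq
      exact ⟨q, le_rfl, fun a ha => a.lower (hp a ha) hq⟩
    · intro h a ha
      refine a.mem_of_dense fun q hq => ?_
      obtain ⟨r, hr, hr'⟩ := h q hq
      exact ⟨r, hr, hr' a ha⟩

/-- supremum of a set -/
def sSupR (S : Set (RO P)) : RO P where
  s := {p | ∀ q ≤ p, ∃ r ≤ q, ∃ a ∈ S, r ∈ a.s}
  reg p := by
    constructor
    · intro hp q hq
      exact ⟨q, le_rfl, fun r hr => hp r (hr.trans hq)⟩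
    · intro h q hq
      obtain ⟨r, hr, hr'⟩ := h q hq
      obtain ⟨r2, hr2, a, ha, h2⟩ := hr' r le_rfl
      exact ⟨r2, hr2.trans hr, a, ha, h2⟩

/-- complement -/
def complR (a : RO P) : RO P where
  s := {p | ∀ q ≤ p, q ∉ a.s}
  reg p := by
    constructor
    · intro hp q hq
      exact ⟨q, le_rfl, fun r hr => hp r (hr.trans hq)⟩
    · intro h q hq hqa
      obtain ⟨r, hr, hr'⟩ := h q hq
      exact hr' r le_rfl (a.lower hqa hr)

/-- the whole poset -/
def topR : RO P where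
  s := univ
  reg p := by simp only [mem_univ, true_iff]; exact fun q _ => ⟨q, le_rfl, trivial⟩

/-- the empty set -/
def botR : RO P where
  s := ∅
  reg p := by
    simp only [mem_empty_iff_false, false_iff, not_forall, not_exists, not_and]
    exact ⟨p, le_rfl, fun q _ h => h⟩

instance : CompleteBooleanAlgebra (RO P) where
  inf := infR
  sInf := sInfR
  sSup := sSupR
  sup a b := sSupR {a, b}
  compl := complR
  top := topR
  bot := botR
  inf_le_left a b := fun p hp => hp.1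
  inf_le_right a b := fun p hp => hp.2
  le_inf a b c h h' := fun p hp => ⟨h hp, h' hp⟩
  le_sup_left a b := fun p hp => fun q hq => ⟨q, le_rfl, a, Or.inl rfl, a.lower hp hq⟩
  le_sup_right a b := fun p hp => fun q hq => ⟨q, le_rfl, b, Or.inr rfl, b.lower hp hq⟩
  sup_le a b c h h' := fun p hp => c.mem_of_dense fun q hq => by
    obtain ⟨r, hr, x, hx, hx'⟩ := hp q hq
    rcases hx with rfl | hx
    · exact ⟨r, hr, h hx'⟩
    · rw [mem_singleton_iff] at hx
      subst hx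
      exact ⟨r, hr, h' hx'⟩
  isLUB_sSup S := ⟨fun a ha p hp q hq => ⟨q, le_rfl, a, ha, a.lower hp hq⟩,
    fun b hb p hp => b.mem_of_dense fun q hq => by
      obtain ⟨r, hr, a, ha, h⟩ := hp q hq
      exact ⟨r, hr, hb ha h⟩⟩
  isGLB_sInf S := ⟨fun a ha p hp => hp a ha, fun b hb p hp a ha => hb ha hp⟩
  le_top a := fun p _ => trivial
  bot_le a := fun p hp => hp.elim
  le_sup_inf a b c := by
    rintro p ⟨h1, h2⟩ q hq
    obtain ⟨r, hr, x, hx, hx'⟩ := h1 q hq
    rcases hx with rfl | hx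
    · exact ⟨r, hr, x, Or.inl rfl, hx'⟩
    · rw [mem_singleton_iff] at hx
      subst hx
      obtain ⟨r2, hr2, y, hy, hy'⟩ := h2 r (hr.trans hq)
      rcases hy with rfl | hy
      · exact ⟨r2, hr2.trans hr, y, Or.inl rfl, hy'⟩
      · rw [mem_singleton_iff] at hy
        subst hy
        exact ⟨r2, hr2.trans hr, _, Or.inr rfl, x.lower hx' hr2, hy'⟩
  inf_compl_le_bot a := fun p hp => hp.2 p le_rfl hp.1
  top_le_sup_compl a := by
    intro p _ q _
    by_cases h : ∃ r ≤ q, r ∈ a.s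
    · obtain ⟨r, hr, hr'⟩ := h
      exact ⟨r, hr, a, Or.inl rfl, hr'⟩
    · push Not at h
      exact ⟨q, le_rfl, complR a, Or.inr rfl, fun r hr => h r hr⟩

theorem mem_inf (a b : RO P) (p : P) : p ∈ (a ⊓ b).s ↔ p ∈ a.s ∧ p ∈ b.s := Iff.rfl

theorem mem_compl (a : RO P) (p : P) : p ∈ (aᶜ).s ↔ ∀ q ≤ p, q ∉ a.s := Iff.rfl

theorem mem_top (p : P) : p ∈ (⊤ : RO P).s := trivial

theorem mem_bot (p : P) : p ∈ (⊥ : RO P).s ↔ False := Iff.rfl

theorem mem_iInf {ι : Sort*} (f : ι → RO P) (p : P) : p ∈ (⨅ i, f i).s ↔ ∀ i, p ∈ (f i).s :=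
  ⟨fun h i => h (f i) ⟨i, rfl⟩, by rintro h _ ⟨i, rfl⟩; exact h i⟩

theorem mem_iSup {ι : Sort*} (f : ι → RO P) (p : P) :
    p ∈ (⨆ i, f i).s ↔ ∀ q ≤ p, ∃ r ≤ q, ∃ i, r ∈ (f i).s := by
  constructor
  · intro h q hq
    obtain ⟨r, hr, _, ⟨i, rfl⟩, h2⟩ := h q hq
    exact ⟨r, hr, i, h2⟩
  · intro h q hq
    obtain ⟨r, hr, i, h2⟩ := h q hq
    exact ⟨r, hr, f i, ⟨i, rfl⟩, h2⟩

theorem mem_sup (a b : RO P) (p : P) :
    p ∈ (a ⊔ b).s ↔ ∀ q ≤ p, ∃ r ≤ q, r ∈ a.s ∨ r ∈ b.s := by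
  constructor
  · intro h q hq
    obtain ⟨r, hr, x, hx, h2⟩ := h q hq
    rcases hx with rfl | hx
    · exact ⟨r, hr, Or.inl h2⟩
    · rw [mem_singleton_iff] at hx
      subst hx
      exact ⟨r, hr, Or.inr h2⟩
  · intro h q hq
    obtain ⟨r, hr, h2 | h2⟩ := h q hq
    · exact ⟨r, hr, a, Or.inl rfl, h2⟩
    · exact ⟨r, hr, b, Or.inr rfl, h2⟩

theorem mem_himp (a b : RO P) (p : P) : p ∈ (a ⇨ b).s ↔ ∀ q ≤ p, q ∈ a.s → q ∈ b.s := by
  constructor
  · intro h q hq ha
    have h1 : (a ⇨ b) ⊓ a ≤ b := himp_inf_le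
    exact h1 ⟨(a ⇨ b).lower h hq, ha⟩
  · intro h
    have h1 : gen {p} ≤ a ⇨ b := by
      rw [le_himp_iff]
      rintro q ⟨hq, hqa⟩
      refine b.mem_of_dense fun r hr => ?_
      obtain ⟨r2, hr2, x, hx, h2⟩ := hq r hr
      rw [mem_singleton_iff] at hx
      subst hx
      exact ⟨r2, hr2, h r2 h2 (a.lower hqa (hr2.trans hr))⟩
    exact h1 fun q hq => ⟨q, le_rfl, p, rfl, hq⟩

theorem eq_top_iff' (a : RO P) : a = ⊤ ↔ ∀ p, p ∈ a.s := by
  constructor
  · rintro rfl p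
    trivial
  · intro h
    exact ext' (eq_univ_of_forall h)

theorem eq_bot_iff' (a : RO P) : a = ⊥ ↔ ∀ p, p ∉ a.s := by
  constructor
  · rintro rfl p h
    exact h
  · intro h
    exact ext' (eq_empty_of_forall_notMem h)

/-- `gen A` is the least regular open set containing `A`. -/
theorem gen_le_iff (A : Set P) (a : RO P) : gen A ≤ a ↔ ∀ p ∈ A, p ∈ a.s := by
  constructor
  · intro h p hp
    exact h fun q hq => ⟨q, le_rfl, p, hp, hq⟩
  · intro h p hp
    refine a.mem_of_dense fun q hq => ?_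
    obtain ⟨r, hr, x, hx, h2⟩ := hp q hq
    exact ⟨r, hr, a.lower (h x hx) h2⟩

instance [Nonempty P] : Nontrivial (RO P) := by
  obtain ⟨p⟩ := (inferInstance : Nonempty P)
  refine ⟨⊤, ⊥, fun h => ?_⟩
  have := (eq_bot_iff' (⊤ : RO P)).1 h p
  exact this trivial

end RO

end Pool.Agent.H5Z
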