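import Pool.Agent.Lib.H5Z.ABase

/-! Chunk A1b. -/

set_option autoImplicit false

open Set Function Filter

namespace Pool.Agent.H5Z

theorem A1b_sing (u x : ZFSet.{0}) : (∀ z : ZFSet.{0}, z ∈ u ↔ z = x) ↔ u = {x} := by
  constructor
  · intro h
    apply ZFSet.ext
    intro z
    rw [h z, ZFSet.mem_singleton]
  · intro h z
    rw [h, ZFSet.mem_singleton]

theorem A1b_upair (u x y : ZFSet.{0}) : (∀ z : ZFSet.{0}, z ∈ u ↔ z = x ∨ z = y) ↔ u = {x, y} := by
  constructor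
  · intro h
    apply ZFSet.ext
    intro z
    rw [h z, ZFSet.mem_pair]
  · intro h z
    rw [h, ZFSet.mem_pair]

theorem A1b_pair (p x y : ZFSet.{0}) :
    IsPair (fun x y : ZFSet.{0} => x ∈ y) p x y ↔ p = ZFSet.pair x y := by
  have h1 : IsPair (fun x y : ZFSet.{0} => x ∈ y) p x y ↔
      ∀ z : ZFSet.{0}, z ∈ p ↔ z = {x} ∨ z = {x, y} := by
    refine forall_congr' fun z => ?_
    exact iff_congr Iff.rfl (or_congr (A1b_sing z x) (A1b_upair z x y))
  rw [h1]
  exact A1b_upair p {x} {x, y}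

theorem rel_iff (x y r : ZFSet.{0}) :
    Rel (fun x y : ZFSet.{0} => x ∈ y) x y r ↔ ZFSet.pair x y ∈ r := by
  constructor
  · rintro ⟨p, hp, hr⟩
    rw [A1b_pair] at hp
    rw [← hp]
    exact hr
  · intro h
    exact ⟨ZFSet.pair x y, (A1b_pair _ _ _).mpr rfl, h⟩

end Pool.Agent.H5Z
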