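import Pool.Agent.Lib.H5Z.ABase

/-! Chunk A1a. -/

set_option autoImplicit false

open Set Function Filter

namespace Pool.Agent.H5Z

/-- the numeral `n` in `ZFSet` -/
noncomputable def zn : ℕ → ZFSet.{0}
  | 0 => ∅
  | n + 1 => insert (zn n) (zn n)

theorem A1a_mem_zn (z : ZFSet.{0}) (n : ℕ) : z ∈ zn n ↔ ∃ m, m < n ∧ z = zn m := by
  induction n with
  | zero => simp [zn]
  | succ n ih =>
    rw [zn, ZFSet.mem_insert_iff, ih]
    constructor
    · rintro (h | ⟨m, hm, h⟩)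
      · exact ⟨n, Nat.lt_succ_self n, h⟩
      · exact ⟨m, Nat.lt_succ_of_lt hm, h⟩
    · rintro ⟨m, hm, h⟩
      rcases Nat.lt_succ_iff_lt_or_eq.mp hm with hm | hm
      · exact Or.inr ⟨m, hm, h⟩
      · subst hm
        exact Or.inl h

theorem A1a_ne {m n : ℕ} (h : m < n) : zn m ≠ zn n := by
  intro he
  have h1 : zn m ∈ zn n := (A1a_mem_zn _ _).mpr ⟨m, h, rfl⟩
  rw [he] at h1
  exact ZFSet.mem_irrefl _ h1

theorem zn_inj {m n : ℕ} (h : zn m = zn n) : m = n := by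
  rcases lt_trichotomy m n with h1 | h1 | h1
  · exact absurd h (A1a_ne h1)
  · exact h1
  · exact absurd h.symm (A1a_ne h1)

theorem zn_mem_iff (m n : ℕ) : zn m ∈ zn n ↔ m < n := by
  rw [A1a_mem_zn]
  constructor
  · rintro ⟨k, hk, h⟩
    rw [zn_inj h]
    exact hk
  · intro h
    exact ⟨m, h, rfl⟩

theorem A1a_zn_mem_of_ind (w : ZFSet.{0}) (h : IsInd (fun x y : ZFSet.{0} => x ∈ y) w) (n : ℕ) :
    zn n ∈ w := by
  induction n with
  | zero =>
    obtain ⟨⟨e, he, hz⟩, -⟩ := h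
    have : e = ∅ := (ZFSet.eq_empty e).mpr hz
    rw [zn, ← this]
    exact he
  | succ n ih =>
    obtain ⟨s, hs, hz⟩ := h.2 _ ih
    have : s = zn (n + 1) := by
      apply ZFSet.ext
      intro z
      rw [zn, ZFSet.mem_insert_iff]
      exact (hz z).trans or_comm
    rw [← this]
    exact hs

theorem A1a_ind_range : IsInd (fun x y : ZFSet.{0} => x ∈ y) (ZFSet.range zn) := by
  refine ⟨⟨∅, ?_, fun z => ZFSet.notMem_empty z⟩, ?_⟩
  · change ∅ ∈ ZFSet.range zn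
    rw [ZFSet.mem_range]
    exact ⟨0, rfl⟩
  · intro x hx
    change x ∈ ZFSet.range zn at hx
    rw [ZFSet.mem_range] at hx
    obtain ⟨n, rfl⟩ := hx
    refine ⟨zn (n + 1), ?_, ?_⟩
    · change zn (n + 1) ∈ ZFSet.range zn
      rw [ZFSet.mem_range]
      exact ⟨n + 1, rfl⟩
    · intro z
      change z ∈ zn (n + 1) ↔ z ∈ zn n ∨ z = zn n
      rw [zn, ZFSet.mem_insert_iff]
      exact or_comm

theorem isOmega_iff (w : ZFSet.{0}) (h : IsOmega (fun x y : ZFSet.{0} => x ∈ y) w) :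
    ∀ z, z ∈ w ↔ ∃ n, z = zn n := by
  intro z
  constructor
  · intro hz
    have h1 := h.2 _ A1a_ind_range z hz
    change z ∈ ZFSet.range zn at h1
    rw [ZFSet.mem_range] at h1
    obtain ⟨n, hn⟩ := h1
    exact ⟨n, hn.symm⟩
  · rintro ⟨n, rfl⟩
    exact A1a_zn_mem_of_ind w h.1 n

end Pool.Agent.H5Z
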