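import Pool.Agent.Lib.H5Z.ABase
import Pool.Agent.Lib.H5Z.A1a
import Pool.Agent.Lib.H5Z.A1b

/-! Chunk A1c. -/

set_option autoImplicit false

open Set Function Filter

namespace Pool.Agent.H5Z

theorem A1c_aa (w : ZFSet.{0}) (hw : ∀ z, z ∈ w ↔ ∃ n, z = zn n) (P : ZFSet.{0} → Prop) :
    AA (fun x y : ZFSet.{0} => x ∈ y) w P ↔ ∀ᶠ j in atTop, P (zn j) := by
  rw [eventually_atTop]
  constructor
  · rintro ⟨n, hn, h⟩
    obtain ⟨m, rfl⟩ := (hw n).mp hn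
    refine ⟨m, fun b hb => ?_⟩
    refine h (zn b) ((hw _).mpr ⟨b, rfl⟩) fun hc => ?_
    have := (zn_mem_iff b m).mp hc
    omega
  · rintro ⟨m, h⟩
    refine ⟨zn m, (hw _).mpr ⟨m, rfl⟩, fun j hj hjm => ?_⟩
    obtain ⟨b, rfl⟩ := (hw j).mp hj
    refine h b ?_
    by_contra hc
    exact hjm ((zn_mem_iff b m).mpr (by omega))

theorem A1c_dom (w : ZFSet.{0}) (hw : ∀ z, z ∈ w ↔ ∃ n, z = zn n) (j : ℕ) (t : ZFSet.{0}) :
    Dom (fun x y : ZFSet.{0} => x ∈ y) w (zn j) t ↔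
      ∃ k, Rel (fun x y : ZFSet.{0} => x ∈ y) (zn j) (zn k) t := by
  constructor
  · rintro ⟨k, hk, h⟩
    obtain ⟨m, rfl⟩ := (hw k).mp hk
    exact ⟨m, h⟩
  · rintro ⟨k, h⟩
    exact ⟨zn k, (hw _).mpr ⟨k, rfl⟩, h⟩

theorem lgap_of_gapIn (h : GapIn (fun x y : ZFSet.{0} => x ∈ y)) :
    ∃ (I : Type 1) (t : I → ℕ → ℕ → Prop) (T : Set ℕ), IsLGap I t T := by
  obtain ⟨w, W, T, hom, h1, h2, h3, h4, h5, h6⟩ := h
  have hw := isOmega_iff w hom
  have hmem : ∀ n, zn n ∈ w := fun n => (hw _).mpr ⟨n, rfl⟩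
  refine ⟨{t : ZFSet.{0} // t ∈ W},
    fun i j k => Rel (fun x y : ZFSet.{0} => x ∈ y) (zn j) (zn k) i.1, {k | zn k ∈ T}, ?_⟩
  refine ⟨?_, ?_, ?_, ?_, ?_, ?_⟩
  · intro i j k k' hk hk'
    exact zn_inj (h1 i.1 (zn j) (zn k) (zn k') i.2 (hmem _) (hmem _) (hmem _) hk hk')
  · intro i i'
    obtain ⟨t'', ht'', h⟩ := h2 i.1 i'.1 i.2 i'.2
    refine ⟨⟨t'', ht''⟩, ?_⟩
    rw [A1c_aa w hw] at h
    filter_upwards [h] with j hj hd
    refine (A1c_dom w hw j t'').mp (hj ?_)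
    rw [A1c_dom w hw, A1c_dom w hw]
    exact hd
  · intro i hi
    refine h3 i.1 i.2 ?_
    rw [A1c_aa w hw]
    filter_upwards [hi] with j hj
    exact (A1c_dom w hw j i.1).mpr hj
  · intro Y
    obtain ⟨t, ht, h⟩ := h4 (ZFSet.sep (fun z => ∃ n ∈ Y, z = zn n) w)
    have hY : ∀ j, zn j ∈ ZFSet.sep (fun z => ∃ n ∈ Y, z = zn n) w ↔ j ∈ Y := by
      intro j
      rw [ZFSet.mem_sep]
      constructor
      · rintro ⟨-, n, hn, he⟩
        rw [zn_inj he]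
        exact hn
      · intro hj
        exact ⟨hmem j, j, hj, rfl⟩
    refine ⟨⟨t, ht⟩, ?_⟩
    rw [A1c_aa w hw, A1c_aa w hw] at h
    rcases h with h | h
    · left
      filter_upwards [h] with j hj hjY
      exact (A1c_dom w hw j t).mp (hj ((hY j).mpr hjY))
    · right
      filter_upwards [h] with j hj hjY
      exact (A1c_dom w hw j t).mp (hj fun hc => hjY ((hY j).mp hc))
  · intro i i' k
    have h := h5 i.1 i'.1 (zn k) i.2 i'.2 (hmem k)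
    rw [A1c_aa w hw] at h
    filter_upwards [h] with j hj hd hd'
    exact hj ((A1c_dom w hw j _).mpr hd) ((A1c_dom w hw j _).mpr hd')
  · rintro d ⟨ha, hb⟩
    set D : ZFSet.{0} := ZFSet.sep (fun p => ∃ (i : {t : ZFSet.{0} // t ∈ W}) (j : ℕ),
      p = ZFSet.pair i.1 (zn j) ∧ d i j) (ZFSet.prod W w) with hD
    have hDi : ∀ (i : {t : ZFSet.{0} // t ∈ W}) (j : ℕ),
        Rel (fun x y : ZFSet.{0} => x ∈ y) i.1 (zn j) D ↔ d i j := by
      intro i j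
      rw [rel_iff, hD, ZFSet.mem_sep]
      constructor
      · rintro ⟨-, i', j', he, hd⟩
        obtain ⟨he1, he2⟩ := ZFSet.pair_injective he
        have e1 : i = i' := Subtype.ext he1
        have e2 : j = j' := zn_inj he2
        rw [e1, e2]
        exact hd
      · intro hd
        refine ⟨?_, i, j, rfl, hd⟩
        rw [ZFSet.pair_mem_prod]
        exact ⟨i.2, hmem j⟩
    refine h6 D ⟨?_, ?_⟩
    · intro t t' ht ht'
      rw [A1c_aa w hw]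
      filter_upwards [ha ⟨t, ht⟩ ⟨t', ht'⟩] with j hj hd hd'
      rw [hDi ⟨t, ht⟩ j, hDi ⟨t', ht'⟩ j]
      exact hj ((A1c_dom w hw j _).mp hd) ((A1c_dom w hw j _).mp hd')
    · intro t k ht hk
      obtain ⟨m, rfl⟩ := (hw k).mp hk
      rw [A1c_aa w hw]
      filter_upwards [hb ⟨t, ht⟩ m] with j hj hd
      rw [hDi ⟨t, ht⟩ j]
      exact hj hd

end Pool.Agent.H5Z
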