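import Pool.Agent.Lib.H5Z.A1a
import Pool.Agent.Lib.H5Z.A1b
import Pool.Agent.Lib.H5Z.A1c

/-! Chunk A1: from the gap property in the universe of sets to the gap property of `ℕ`. -/
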