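import Pool.Agent.Lib.H5Z.ABase

/-! Chunk A2b. -/

set_option autoImplicit false

open Set Function Filter Topology

namespace Pool.Agent.H5Z

/-- membership of a nonprincipal ultrafilter: infinite sets are members of some `u ∈ ω*` -/
theorem exists_mem_of_infinite (S : Set ℕ) (hS : S.Infinite) : ∃ u : OmegaStar, S ∈ u.1 := by
  have hne : (cofinite ⊓ 𝓟 S : Filter ℕ).NeBot := cofinite_inf_principal_neBot_iff.2 hS
  have hle : ((Ultrafilter.of (cofinite ⊓ 𝓟 S : Filter ℕ) : Ultrafilter ℕ) : Filter ℕ) ≤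
      cofinite ⊓ 𝓟 S := Ultrafilter.of_le _
  refine ⟨⟨Ultrafilter.of (cofinite ⊓ 𝓟 S : Filter ℕ), ?_⟩, ?_⟩
  · intro n hn
    have h1 : ({n}ᶜ : Set ℕ) ∈ (cofinite ⊓ 𝓟 S : Filter ℕ) :=
      mem_inf_of_left (by simp)
    have h2 : ({n}ᶜ : Set ℕ) ∈ (Ultrafilter.of (cofinite ⊓ 𝓟 S : Filter ℕ)) := hle h1
    rw [hn] at h2
    exact h2 rfl
  · exact hle (mem_inf_of_right (mem_principal_self S))

theorem mem_of_eventually (u : OmegaStar) (S : Set ℕ) (hS : ∀ᶠ j in atTop, j ∈ S) : S ∈ u.1 := by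
  by_contra hc
  rw [← Ultrafilter.compl_mem_iff_notMem] at hc
  have hfin : Sᶜ.Finite := by
    rw [← Nat.cofinite_eq_atTop] at hS
    exact hS
  obtain ⟨n, _, hn⟩ := Ultrafilter.eq_pure_of_finite_mem hfin hc
  exact u.2 n hn

end Pool.Agent.H5Z
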