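import Pool.Agent.Lib.H5Z.ABase
import Pool.Agent.Lib.H5Z.A2b

/-! Chunk A2a. -/

set_option autoImplicit false

open Set Function Filter Topology

namespace Pool.Agent.H5Z

/-- The ultrafilter: `Y ∈ x` iff the complement of `Y` is covered modulo a finite set by the domain
of some `t i`. -/
theorem exists_ultrafilter (I : Type 1) (t : I → ℕ → ℕ → Prop) (T : Set ℕ) (h : IsLGap I t T) :
    ∃ x : OmegaStar, ∀ Y : Set ℕ, Y ∈ x.1 ↔ ∃ i, ∀ᶠ j in atTop, j ∉ Y → LDom (t i) j := by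
  obtain ⟨i0, _⟩ := h.ult ∅
  let F : Filter ℕ :=
    { sets := {Y | ∃ i, ∀ᶠ j in atTop, j ∉ Y → LDom (t i) j}
      univ_sets := ⟨i0, Eventually.of_forall fun j hj => absurd (mem_univ j) hj⟩
      sets_of_superset := by
        rintro Y Z ⟨i, hi⟩ hYZ
        exact ⟨i, hi.mono fun j hj hjZ => hj fun hjY => hjZ (hYZ hjY)⟩
      inter_sets := by
        rintro Y Z ⟨i, hi⟩ ⟨i', hi'⟩
        obtain ⟨i'', hi''⟩ := h.dir i i'
        refine ⟨i'', ?_⟩
        filter_upwards [hi, hi', hi''] with j h1 h2 h3 h4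
        apply h3
        by_cases hY : j ∈ Y
        · exact Or.inr (h2 fun hZ => h4 ⟨hY, hZ⟩)
        · exact Or.inl (h1 hY) }
  have hF : ∀ Y : Set ℕ, Y ∈ F ↔ ∃ i, ∀ᶠ j in atTop, j ∉ Y → LDom (t i) j := fun Y => Iff.rfl
  have hbot : (∅ : Set ℕ) ∉ F := by
    rw [hF]
    rintro ⟨i, hi⟩
    exact h.coinf i (hi.mono fun j hj => hj (notMem_empty j))
  have hc : ∀ s : Set ℕ, sᶜ ∉ F ↔ s ∈ F := by
    intro s
    constructor
    · intro hs
      obtain ⟨i, hi | hi⟩ := h.ult s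
      · exact absurd ((hF _).2 ⟨i, hi.mono fun j hj hjs => hj (not_not.1 hjs)⟩) hs
      · exact (hF _).2 ⟨i, hi⟩
    · intro hs hs'
      have := F.inter_sets hs hs'
      rw [inter_compl_self] at this
      exact hbot this
  refine ⟨⟨Ultrafilter.ofComplNotMemIff F hc, ?_⟩, fun Y => Iff.rfl⟩
  intro n hn
  have h1 : ({n}ᶜ : Set ℕ) ∈ Ultrafilter.ofComplNotMemIff F hc := by
    change ({n}ᶜ : Set ℕ) ∈ F
    rw [hF]
    refine ⟨i0, ?_⟩
    filter_upwards [eventually_gt_atTop n] with j hj hj'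
    exact absurd (not_not.1 hj') (by simpa using hj.ne')
  rw [hn] at h1
  exact h1 rfl

theorem exists_dom (I : Type 1) (t : I → ℕ → ℕ → Prop) (T : Set ℕ) (h : IsLGap I t T)
    (x : OmegaStar) (hx : ∀ Y : Set ℕ, Y ∈ x.1 ↔ ∃ i, ∀ᶠ j in atTop, j ∉ Y → LDom (t i) j)
    (u : OmegaStar) (hu : u ≠ x) : ∃ i, {j | LDom (t i) j} ∈ u.1 := by
  have hne : u.1 ≠ x.1 := fun hc => hu (Subtype.ext hc)
  obtain ⟨Y, hY, hY'⟩ : ∃ Y : Set ℕ, Y ∈ x.1 ∧ Y ∉ u.1 := by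
    by_contra hc
    push Not at hc
    apply hne
    have hle : (u.1 : Filter ℕ) ≤ (x.1 : Filter ℕ) := fun Y hY => hc Y hY
    exact Ultrafilter.coe_injective ((Ultrafilter.unique x.1 hle).trans rfl)
  obtain ⟨i, hi⟩ := (hx Y).1 hY
  refine ⟨i, ?_⟩
  have h1 := mem_of_eventually u _ hi
  have h2 : Yᶜ ∈ u.1 := Ultrafilter.compl_mem_iff_notMem.2 hY'
  exact mem_of_superset (inter_mem h1 h2) fun j hj => hj.1 hj.2

end Pool.Agent.H5Z
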