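import Pool.Agent.Lib.H5Z.ABase
import Pool.Agent.Lib.H5Z.A2a
import Pool.Agent.Lib.H5Z.A2b

/-! Chunk A2c. -/

set_option autoImplicit false

open Set Function Filter Topology

namespace Pool.Agent.H5Z

/-- the set of all `u` that contain `{t i = k}` for some `i` -/
def A2cC (I : Type 1) (t : I → ℕ → ℕ → Prop) (x : OmegaStar) (k : ℕ) :
    Set {y : OmegaStar // y ≠ x} := {u | ∃ i, {j | t i j k} ∈ u.1.1}

theorem A2cC_dom (I : Type 1) (t : I → ℕ → ℕ → Prop) (u : Ultrafilter ℕ) (i : I) (k : ℕ)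
    (h : {j | t i j k} ∈ u) : {j | LDom (t i) j} ∈ u :=
  mem_of_superset h fun _ hj => ⟨k, hj⟩

theorem A2cC_open (I : Type 1) (t : I → ℕ → ℕ → Prop) (x : OmegaStar) (k : ℕ) :
    IsOpen (A2cC I t x k) := by
  have hc : Continuous (fun u : {y : OmegaStar // y ≠ x} => u.1.1) :=
    continuous_subtype_val.comp continuous_subtype_val
  have : A2cC I t x k = ⋃ i, (fun u : {y : OmegaStar // y ≠ x} => u.1.1) ⁻¹'
      {u : Ultrafilter ℕ | {j | t i j k} ∈ u} := by
    ext u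
    simp [A2cC]
  rw [this]
  exact isOpen_iUnion fun i => (ultrafilter_isOpen_basic _).preimage hc

/-- coherence along an ultrafilter -/
theorem A2cC_coh (I : Type 1) (t : I → ℕ → ℕ → Prop) (T : Set ℕ) (h : IsLGap I t T)
    (u : OmegaStar) (i i' : I) (k : ℕ) (hi : {j | LDom (t i) j} ∈ u.1)
    (hi' : {j | t i' j k} ∈ u.1) : {j | t i j k} ∈ u.1 := by
  have h1 := mem_of_eventually u _ (h.coh i i' k)
  refine mem_of_superset (inter_mem h1 (inter_mem hi hi')) ?_
  rintro j ⟨hj1, hj2, hj3⟩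
  exact (hj1 hj2 ⟨k, hj3⟩).2 hj3

theorem A2cC_closed (I : Type 1) (t : I → ℕ → ℕ → Prop) (T : Set ℕ) (h : IsLGap I t T)
    (x : OmegaStar) (hx : ∀ Y : Set ℕ, Y ∈ x.1 ↔ ∃ i, ∀ᶠ j in atTop, j ∉ Y → LDom (t i) j)
    (k : ℕ) : IsClosed (A2cC I t x k) := by
  have hc : Continuous (fun u : {y : OmegaStar // y ≠ x} => u.1.1) :=
    continuous_subtype_val.comp continuous_subtype_val
  rw [← isOpen_compl_iff]
  rw [isOpen_iff_mem_nhds]
  intro u hu
  obtain ⟨i, hi⟩ := exists_dom I t T h x hx u.1 u.2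
  have hn : {j | t i j k} ∉ u.1.1 := fun hc => hu ⟨i, hc⟩
  have ho : IsOpen ((fun u : {y : OmegaStar // y ≠ x} => u.1.1) ⁻¹'
      ({v : Ultrafilter ℕ | {j | LDom (t i) j} ∈ v} ∩ {v : Ultrafilter ℕ | {j | t i j k}ᶜ ∈ v})) :=
    ((ultrafilter_isOpen_basic _).inter (ultrafilter_isOpen_basic _)).preimage hc
  refine mem_of_superset (ho.mem_nhds ⟨hi, Ultrafilter.compl_mem_iff_notMem.2 hn⟩) ?_
  rintro v ⟨hv1, hv2⟩ ⟨i', hi'⟩
  exact Ultrafilter.compl_mem_iff_notMem.1 hv2 (A2cC_coh I t T h v.1 i i' k hv1 hi')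

theorem A2cC_disj (I : Type 1) (t : I → ℕ → ℕ → Prop) (T : Set ℕ) (h : IsLGap I t T)
    (x : OmegaStar) (k k' : ℕ) (u : {y : OmegaStar // y ≠ x}) (hu : u ∈ A2cC I t x k)
    (hu' : u ∈ A2cC I t x k') : k = k' := by
  obtain ⟨i, hi⟩ := hu
  obtain ⟨i', hi'⟩ := hu'
  have h1 := A2cC_coh I t T h u.1 i i' k' (A2cC_dom I t u.1.1 i k hi) hi'
  obtain ⟨j, hj, hj'⟩ := u.1.1.nonempty_of_mem (inter_mem hi h1)
  exact h.func i j k k' hj hj'

/-- The continuous function: its value at `u` is `2⁻ᵏ` with the sign `+` if `k ∈ T` and `-` if not,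
if `{t i = k}` belongs to `u` (for some `i`). On the clopen set of all `u` containing the
domain of `t i` it is the limit along `u` of the function `j ↦ ± 2 ^ (- t i j)`. -/
theorem exists_fun (I : Type 1) (t : I → ℕ → ℕ → Prop) (T : Set ℕ) (h : IsLGap I t T)
    (x : OmegaStar) (hx : ∀ Y : Set ℕ, Y ∈ x.1 ↔ ∃ i, ∀ᶠ j in atTop, j ∉ Y → LDom (t i) j) :
    ∃ f : C({y : OmegaStar // y ≠ x}, ℝ), (∀ u, |f u| ≤ 1) ∧
      ∀ (u : {y : OmegaStar // y ≠ x}) (i : I) (k : ℕ), {j | t i j k} ∈ u.1.1 →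
        (k ∈ T → 0 < f u) ∧ (k ∉ T → f u < 0) := by
  classical
  let a : ℕ → ℝ := fun k => (if k ∈ T then 1 else -1) * (1 / 2 : ℝ) ^ (k + 1)
  have ha : ∀ k, |a k| = (1 / 2 : ℝ) ^ (k + 1) := by
    intro k
    simp only [a]
    split_ifs <;> simp [abs_of_pos]
  let F : ℕ → {y : OmegaStar // y ≠ x} → ℝ := fun k => (A2cC I t x k).indicator (fun _ => a k)
  have hFc : ∀ k, Continuous (F k) := fun k =>
    continuous_const.indicator fun u hu => by
      rw [(show IsClopen (A2cC I t x k) from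
        ⟨A2cC_closed I t T h x hx k, A2cC_open I t x k⟩).frontier_eq] at hu
      exact hu.elim
  have hFb : ∀ k u, ‖F k u‖ ≤ (1 / 2 : ℝ) ^ (k + 1) := by
    intro k u
    simp only [F, indicator]
    split_ifs
    · rw [Real.norm_eq_abs, ha]
    · simp
  have hsum : Summable (fun k : ℕ => (1 / 2 : ℝ) ^ (k + 1)) :=
    (summable_nat_add_iff 1).2 (summable_geometric_of_lt_one (by norm_num) (by norm_num))
  have hval : ∀ (u : {y : OmegaStar // y ≠ x}) (k : ℕ), u ∈ A2cC I t x k →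
      ∑' k, F k u = a k := by
    intro u k hk
    rw [tsum_eq_single k]
    · simp only [F]
      exact indicator_of_mem hk _
    · intro k' hk'
      simp only [F]
      exact indicator_of_notMem (fun hc => hk' (A2cC_disj I t T h x k' k u hc hk)) _
  refine ⟨⟨fun u => ∑' k, F k u, continuous_tsum hFc hsum hFb⟩, ?_, ?_⟩
  · intro u
    change |∑' k, F k u| ≤ 1
    by_cases hu : ∃ k, u ∈ A2cC I t x k
    · obtain ⟨k, hk⟩ := hu
      rw [hval u k hk, ha]
      exact pow_le_one₀ (by norm_num) (by norm_num)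
    · push Not at hu
      have : ∀ k, F k u = 0 := fun k => indicator_of_notMem (hu k) _
      simp [this]
  · intro u i k hk
    change (k ∈ T → 0 < ∑' k, F k u) ∧ (k ∉ T → ∑' k, F k u < 0)
    rw [hval u k ⟨i, hk⟩]
    simp only [a]
    constructor
    · intro hT
      rw [if_pos hT]
      positivity
    · intro hT
      rw [if_neg hT]
      have : (0 : ℝ) < (1 / 2 : ℝ) ^ (k + 1) := by positivity
      linarith

end Pool.Agent.H5Z
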