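import Pool.Agent.Lib.H5Z.ABase

/-! Chunk A2d. -/

set_option autoImplicit false

open Set Function Filter Topology

namespace Pool.Agent.H5Z

theorem A2d_closed : IsClosed OmegaStar := by
  have : OmegaStarᶜ = ⋃ n : ℕ, {u : Ultrafilter ℕ | ({n} : Set ℕ) ∈ u} := by
    ext u
    simp only [OmegaStar, mem_compl_iff, mem_ofPred_eq, not_forall, not_not, mem_iUnion]
    constructor
    · rintro ⟨n, rfl⟩
      exact ⟨n, rfl⟩
    · rintro ⟨n, hn⟩
      obtain ⟨m, hm, h⟩ := Ultrafilter.eq_pure_of_finite_mem (finite_singleton n) hn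
      exact ⟨m, h⟩
  rw [← isOpen_compl_iff, this]
  exact isOpen_iUnion fun n => ultrafilter_isOpen_basic _

theorem A2d_compact (x : OmegaStar) (A : Set ℕ) (hA : A ∉ x.1) :
    IsCompact {u : {y : OmegaStar // y ≠ x} | A ∈ u.1.1} := by
  have he : IsEmbedding (fun u : {y : OmegaStar // y ≠ x} => u.1.1) :=
    IsEmbedding.subtypeVal.comp IsEmbedding.subtypeVal
  rw [he.isCompact_iff]
  have : (fun u : {y : OmegaStar // y ≠ x} => u.1.1) '' {u | A ∈ u.1.1} =
      OmegaStar ∩ {u : Ultrafilter ℕ | A ∈ u} := by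
    ext u
    constructor
    · rintro ⟨v, hv, rfl⟩
      exact ⟨v.1.2, hv⟩
    · rintro ⟨h1, h2⟩
      refine ⟨⟨⟨u, h1⟩, ?_⟩, h2, rfl⟩
      intro hc
      apply hA
      rw [← hc]
      exact h2
  rw [this]
  exact (A2d_closed.inter (ultrafilter_isClosed_basic A)).isCompact

/-- separation of disjoint compact sets of ultrafilters -/
theorem A2d_sep (K L : Set (Ultrafilter ℕ)) (hK : IsCompact K) (hL : IsCompact L)
    (hd : Disjoint K L) : ∃ D : Set ℕ, (∀ u ∈ K, D ∈ u) ∧ ∀ u ∈ L, D ∉ u := by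
  have hLc : IsOpen Lᶜ := hL.isClosed.isOpen_compl
  have h1 : ∀ u ∈ K, ∃ s : Set ℕ, s ∈ u ∧ ∀ v ∈ L, s ∉ v := by
    intro u hu
    have hu' : u ∈ Lᶜ := fun h => Set.disjoint_left.1 hd hu h
    obtain ⟨V, hV, huV, hVL⟩ := (ultrafilterBasis_is_basis (α := ℕ)).exists_subset_of_mem_open hu' hLc
    obtain ⟨s, rfl⟩ := hV
    exact ⟨s, huV, fun v hv hs => hVL hs hv⟩
  choose! s hs hs' using h1
  obtain ⟨F, hF, hcov⟩ := hK.elim_nhds_subcover (fun u => {v : Ultrafilter ℕ | s u ∈ v})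
    (fun u hu => (ultrafilter_isOpen_basic _).mem_nhds (hs u hu))
  refine ⟨⋃ u ∈ F, s u, ?_, ?_⟩
  · intro v hv
    have := hcov hv
    simp only [mem_iUnion, mem_ofPred_eq] at this
    obtain ⟨u, hu, hsu⟩ := this
    exact mem_of_superset hsu (subset_biUnion_of_mem (u := s) hu)
  · intro v hv hc
    have hfin : (F : Set (Ultrafilter ℕ)).Finite := F.finite_toSet
    have h2 : (⋃ u ∈ (F : Set (Ultrafilter ℕ)), s u) ∈ v := hc
    rw [Ultrafilter.finite_biUnion_mem_iff hfin] at h2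
    obtain ⟨u, hu, hsu⟩ := h2
    exact hs' u (hF u hu) v hv hsu

/-- A clopen subset of a compact clopen piece of `ω* ∖ {x}` is given by a subset of `ℕ`. -/
theorem exists_trace (x : OmegaStar) (E : Set {y : OmegaStar // y ≠ x}) (hE : IsClopen E)
    (A : Set ℕ) (hA : A ∉ x.1) :
    ∃ D : Set ℕ, ∀ u : {y : OmegaStar // y ≠ x}, A ∈ u.1.1 → (D ∈ u.1.1 ↔ u ∈ E) := by
  have hP := A2d_compact x A hA
  have hc : Continuous (fun u : {y : OmegaStar // y ≠ x} => u.1.1) :=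
    continuous_subtype_val.comp continuous_subtype_val
  have hK : IsCompact ((fun u : {y : OmegaStar // y ≠ x} => u.1.1) ''
      ({u : {y : OmegaStar // y ≠ x} | A ∈ u.1.1} ∩ E)) := (hP.inter_right hE.1).image hc
  have hL : IsCompact ((fun u : {y : OmegaStar // y ≠ x} => u.1.1) ''
      ({u : {y : OmegaStar // y ≠ x} | A ∈ u.1.1} ∩ Eᶜ)) :=
    (hP.inter_right hE.compl.1).image hc
  have hinj : Injective (fun u : {y : OmegaStar // y ≠ x} => u.1.1) :=
    Subtype.val_injective.comp Subtype.val_injective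
  have hd : Disjoint ((fun u : {y : OmegaStar // y ≠ x} => u.1.1) ''
      ({u : {y : OmegaStar // y ≠ x} | A ∈ u.1.1} ∩ E))
      ((fun u : {y : OmegaStar // y ≠ x} => u.1.1) ''
      ({u : {y : OmegaStar // y ≠ x} | A ∈ u.1.1} ∩ Eᶜ)) := by
    rw [disjoint_image_iff hinj]
    exact Set.disjoint_left.2 fun u hu hu' => hu'.2 hu.2
  obtain ⟨D, hD1, hD2⟩ := A2d_sep _ _ hK hL hd
  refine ⟨D, fun u hu => ⟨fun h => ?_, fun h => hD1 _ ⟨u, ⟨hu, h⟩, rfl⟩⟩⟩
  by_contra hc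
  exact hD2 _ ⟨u, ⟨hu, hc⟩, rfl⟩ h

end Pool.Agent.H5Z
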