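import Pool.Agent.Lib.H5Z.A2a
import Pool.Agent.Lib.H5Z.A2b
import Pool.Agent.Lib.H5Z.A2c
import Pool.Agent.Lib.H5Z.A2d

/-! Chunk A2: the ultrafilter, and the continuous function on `ω* ∖ {x}`. -/
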