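import Pool.Agent.Lib.H5Z.Defs

/-! Chunk A3: in a Parovicenko compactification the positive and the negative part of a bounded
continuous function are separated by a clopen set. -/

set_option autoImplicit false

open Set Function Filter Topology

namespace Pool.Agent.H5Z

theorem A3_sep {Y : Type} [TopologicalSpace Y] (hb : TopologicalSpace.IsTopologicalBasis {U : Set Y | IsClopen U})
    (K L : Set Y) (hK : IsCompact K) (hL : IsClosed L) (hd : Disjoint K L) :
    ∃ E : Set Y, IsClopen E ∧ K ⊆ E ∧ Disjoint E L := by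
  have h1 : ∀ y ∈ K, ∃ V : Set Y, IsClopen V ∧ y ∈ V ∧ V ⊆ Lᶜ := by
    intro y hy
    have hy' : y ∈ Lᶜ := fun h => Set.disjoint_left.1 hd hy h
    obtain ⟨V, hV, hyV, hVL⟩ := hb.exists_subset_of_mem_open hy' hL.isOpen_compl
    exact ⟨V, hV, hyV, hVL⟩
  choose! V hV hyV hVL using h1
  obtain ⟨F, hF, hcov⟩ := hK.elim_nhds_subcover V (fun y hy => (hV y hy).2.mem_nhds (hyV y hy))
  refine ⟨⋃ y ∈ F, V y, ?_, hcov, ?_⟩
  · exact isClopen_biUnion_finset fun y hy => hV y (hF y hy)
  · rw [Set.disjoint_left]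
    intro z hz hzL
    simp only [mem_iUnion] at hz
    obtain ⟨y, hy, hzy⟩ := hz
    exact hVL y (hF y hy) hzy hzL

theorem exists_clopen_sep (X : Type) [TopologicalSpace X] (h : IsParovicenko (StoneCech X))
    (f : C(X, ℝ)) (hf : ∀ u, |f u| ≤ 1) :
    ∃ E : Set X, IsClopen E ∧ (∀ u, 0 < f u → u ∈ E) ∧ ∀ u, f u < 0 → u ∉ E := by
  -- the extension
  have hfc : Continuous (fun u : X => (⟨f u, abs_le.1 (hf u)⟩ : Icc (-1 : ℝ) 1)) :=
    f.continuous.subtype_mk _
  let F : StoneCech X → Icc (-1 : ℝ) 1 := stoneCechExtend hfc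
  have hF : Continuous F := continuous_stoneCechExtend hfc
  have hFu : ∀ u : X, ((F (stoneCechUnit u) : Icc (-1 : ℝ) 1) : ℝ) = f u := by
    intro u
    have := congrFun (stoneCechExtend_extends hfc) u
    change ((stoneCechExtend hfc ∘ stoneCechUnit) u : Icc (-1 : ℝ) 1).1 = f u
    rw [this]
  let G : C(StoneCech X, ℝ) := ⟨fun y => (F y : ℝ), continuous_subtype_val.comp hF⟩
  let g : C({y : StoneCech X // G y ≠ 0}, ℝ) :=
    ⟨fun y => G y.1 / |G y.1|, by
      refine Continuous.div (G.continuous.comp continuous_subtype_val)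
        ((G.continuous.comp continuous_subtype_val).abs) ?_
      intro y
      exact abs_ne_zero.2 y.2⟩
  have hg : ∀ y, g y = G y.1 / |G y.1| := fun y => rfl
  obtain ⟨H, hH⟩ := h.fSpace G g ⟨1, fun y => by
    rw [hg, abs_div, abs_abs, div_self (abs_ne_zero.2 y.2)]⟩
  have hcomp : CompactSpace (StoneCech X) := h.compact
  obtain ⟨E, hE, hKE, hEL⟩ := A3_sep h.zeroDim {y | 1 ≤ H y} {y | H y ≤ -1}
    (isClosed_le continuous_const H.continuous).isCompact
    (isClosed_le H.continuous continuous_const) (by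
      rw [Set.disjoint_left]
      intro y hy hy'
      simp only [mem_ofPred_eq] at hy hy'
      linarith)
  refine ⟨stoneCechUnit ⁻¹' E, hE.preimage continuous_stoneCechUnit, ?_, ?_⟩
  · intro u hu
    apply hKE
    have h1 : G (stoneCechUnit u) = f u := hFu u
    have h2 : G (stoneCechUnit u) ≠ 0 := by rw [h1]; exact hu.ne'
    have h3 := hH ⟨stoneCechUnit u, h2⟩
    rw [hg] at h3
    simp only [h1, abs_of_pos hu, div_self hu.ne'] at h3
    simp only [mem_ofPred_eq]
    exact h3.ge
  · intro u hu hc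
    refine Set.disjoint_left.1 hEL hc ?_
    have h1 : G (stoneCechUnit u) = f u := hFu u
    have h2 : G (stoneCechUnit u) ≠ 0 := by rw [h1]; exact hu.ne
    have h3 := hH ⟨stoneCechUnit u, h2⟩
    rw [hg] at h3
    simp only [h1, abs_of_neg hu, div_neg, div_self hu.ne] at h3
    simp only [mem_ofPred_eq]
    exact h3.le

end Pool.Agent.H5Z
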