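import Pool.Agent.Lib.H5Z.A1
import Pool.Agent.Lib.H5Z.A2
import Pool.Agent.Lib.H5Z.A3

/-! Chunk A4: the topological consequence. -/

set_option autoImplicit false

open Set Function Filter Topology

namespace Pool.Agent.H5Z

theorem not_parovicenko (I : Type 1) (t : I → ℕ → ℕ → Prop) (T : Set ℕ) (h : IsLGap I t T) :
    ∃ x : OmegaStar, ¬ IsParovicenko (StoneCech {y : OmegaStar // y ≠ x}) := by
  obtain ⟨x, hx⟩ := exists_ultrafilter I t T h
  refine ⟨x, fun hP => ?_⟩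
  obtain ⟨f, hf1, hf⟩ := exists_fun I t T h x hx
  obtain ⟨E, hE, hE1, hE2⟩ := exists_clopen_sep _ hP f hf1
  have hA : ∀ i, {j | LDom (t i) j} ∉ x.1 := by
    intro i hi
    obtain ⟨i', hi'⟩ := (hx _).1 hi
    obtain ⟨i'', hi''⟩ := h.dir i i'
    refine h.coinf i'' ?_
    filter_upwards [hi', hi''] with j h1 h2
    apply h2
    by_cases h3 : LDom (t i) j
    · exact Or.inl h3
    · exact Or.inr (h1 h3)
  choose D hD using fun i => exists_trace x E hE _ (hA i)
  have hne : ∀ (u : OmegaStar) (i : I), {j | LDom (t i) j} ∈ u.1 → u ≠ x := by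
    intro u i hu hc
    rw [hc] at hu
    exact hA i hu
  refine h.noD (fun i j => j ∈ D i) ⟨?_, ?_⟩
  · intro i i'
    by_contra hcon
    rw [← Nat.cofinite_eq_atTop] at hcon
    have hinf : {j | ¬ (LDom (t i) j → LDom (t i') j → (j ∈ D i ↔ j ∈ D i'))}.Infinite := hcon
    obtain ⟨u, hu⟩ := exists_mem_of_infinite _ hinf
    have h1 : {j | LDom (t i) j} ∈ u.1 := mem_of_superset hu fun j hj => by
      simp only [mem_ofPred_eq] at hj ⊢
      by_contra hc
      exact hj fun h => absurd h hc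
    have h2 : {j | LDom (t i') j} ∈ u.1 := mem_of_superset hu fun j hj => by
      simp only [mem_ofPred_eq] at hj ⊢
      by_contra hc
      exact hj fun _ h => absurd h hc
    have hux := hne u i h1
    have h3 := hD i ⟨u, hux⟩ h1
    have h4 := hD i' ⟨u, hux⟩ h2
    have h5 : D i ∈ u.1 ↔ D i' ∈ u.1 := h3.trans h4.symm
    by_cases h6 : D i ∈ u.1
    · obtain ⟨j, ⟨hj1, hj2⟩, hj3⟩ := u.1.nonempty_of_mem (inter_mem (inter_mem h6 (h5.1 h6)) hu)
      exact hj3 fun _ _ => ⟨fun _ => hj2, fun _ => hj1⟩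
    · have h7 : D i' ∉ u.1 := fun hc => h6 (h5.2 hc)
      rw [← Ultrafilter.compl_mem_iff_notMem] at h6 h7
      obtain ⟨j, ⟨hj1, hj2⟩, hj3⟩ := u.1.nonempty_of_mem (inter_mem (inter_mem h6 h7) hu)
      exact hj3 fun _ _ => ⟨fun h => absurd h hj1, fun h => absurd h hj2⟩
  · intro i k
    by_contra hcon
    rw [← Nat.cofinite_eq_atTop] at hcon
    have hinf : {j | ¬ (t i j k → (j ∈ D i ↔ k ∈ T))}.Infinite := hcon
    obtain ⟨u, hu⟩ := exists_mem_of_infinite _ hinf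
    have h1 : {j | t i j k} ∈ u.1 := mem_of_superset hu fun j hj => by
      simp only [mem_ofPred_eq] at hj ⊢
      by_contra hc
      exact hj fun h => absurd h hc
    have h2 : {j | LDom (t i) j} ∈ u.1 := mem_of_superset h1 fun j hj => ⟨k, hj⟩
    have hux := hne u i h2
    have h3 : D i ∈ u.1 ↔ (⟨u, hux⟩ : {y : OmegaStar // y ≠ x}) ∈ E := hD i ⟨u, hux⟩ h2
    obtain ⟨h4, h5⟩ := hf ⟨u, hux⟩ i k h1
    by_cases hT : k ∈ T
    · have h6 := h3.2 (hE1 _ (h4 hT))
      obtain ⟨j, hj1, hj3⟩ := u.1.nonempty_of_mem (inter_mem h6 hu)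
      exact hj3 fun _ => ⟨fun _ => hT, fun _ => hj1⟩
    · have h6 : D i ∉ u.1 := fun hc => hE2 _ (h5 hT) (h3.1 hc)
      rw [← Ultrafilter.compl_mem_iff_notMem] at h6
      obtain ⟨j, hj1, hj3⟩ := u.1.nonempty_of_mem (inter_mem h6 hu)
      exact hj3 fun _ => ⟨fun h => absurd h hj1, fun h => absurd h hT⟩

theorem not_parovicenko_of_gapIn (h : GapIn (fun x y : ZFSet.{0} => x ∈ y)) :
    ∃ x : OmegaStar, ¬ IsParovicenko (StoneCech {y : OmegaStar // y ≠ x}) := by
  obtain ⟨I, t, T, hI⟩ := lgap_of_gapIn h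
  exact not_parovicenko I t T hI

end Pool.Agent.H5Z
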