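import Pool.Agent.Lib.H5Z.Defs

/-!
# The gap property for genuine natural numbers
-/

set_option autoImplicit false

open Set Function Filter

namespace Pool.Agent.H5Z

/-- `j` is in the domain of the relation `t`. -/
def LDom (t : ℕ → ℕ → Prop) (j : ℕ) : Prop := ∃ k, t j k

/-- The gap property of the family `t`. -/
structure IsLGap (I : Type 1) (t : I → ℕ → ℕ → Prop) (T : Set ℕ) : Prop where
  func : ∀ i j k k', t i j k → t i j k' → k = k'
  dir : ∀ i i', ∃ i'', ∀ᶠ j in atTop, LDom (t i) j ∨ LDom (t i') j → LDom (t i'') j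
  coinf : ∀ i, ¬ ∀ᶠ j in atTop, LDom (t i) j
  ult : ∀ Y : Set ℕ, ∃ i, (∀ᶠ j in atTop, j ∈ Y → LDom (t i) j) ∨
    ∀ᶠ j in atTop, j ∉ Y → LDom (t i) j
  coh : ∀ i i' k, ∀ᶠ j in atTop, LDom (t i) j → LDom (t i') j → (t i j k ↔ t i' j k)
  noD : ∀ d : I → ℕ → Prop, ¬ ((∀ i i', ∀ᶠ j in atTop, LDom (t i) j → LDom (t i') j →
    (d i j ↔ d i' j)) ∧ ∀ i k, ∀ᶠ j in atTop, t i j k → (d i j ↔ k ∈ T))

end Pool.Agent.H5Z
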