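import Pool.Agent.Lib.H5Z.BCond

/-! Chunk BBigDef. -/

set_option autoImplicit false

open Set Function Cardinal

namespace Pool.Agent.H5Z

/-- The properties of the index set and of the bookkeeping function. -/
structure Big (ι : Type) [LinearOrder ι] (e : ι → Raw ι) : Prop where
  bdd : ∀ S : Set ι, #S ≤ ℵ₁ → ∃ b, ∀ s ∈ S, s < b
  book : ∀ (y : Raw ι) (α : ι), ∃ η, α < η ∧ e η = y

end Pool.Agent.H5Z
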