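import Pool.Agent.Lib.H5Z.BCond
import Pool.Agent.Lib.H5Z.BBigDef

/-! Chunk BBigA. -/

set_option autoImplicit false

open Set Function Cardinal

namespace Pool.Agent.H5Z

/-- the finite code of a condition -/
def BBigA_code {ι : Type} [LinearOrder ι] (p : Cond ι) :
    Finset ι × ℕ × Finset (ι × ℕ × Option ℕ) × Finset (ι × ℕ) :=
  (p.F, p.n, (p.F ×ˢ Finset.range p.n).image (fun a => (a.1, a.2, p.t a.1 a.2)),
    p.F.image (fun ξ => (ξ, p.k ξ)))

theorem BBigA_code_inj {ι : Type} [LinearOrder ι] : Injective (BBigA_code (ι := ι)) := by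
  intro p q h
  have h1 : p.F = q.F := congrArg Prod.fst h
  have h2 : p.n = q.n := congrArg (fun a => a.2.1) h
  have h3 : (p.F ×ˢ Finset.range p.n).image (fun a => (a.1, a.2, p.t a.1 a.2)) =
      (q.F ×ˢ Finset.range q.n).image (fun a => (a.1, a.2, q.t a.1 a.2)) :=
    congrArg (fun a => a.2.2.1) h
  have h4 : p.F.image (fun ξ => (ξ, p.k ξ)) = q.F.image (fun ξ => (ξ, q.k ξ)) :=
    congrArg (fun a => a.2.2.2) h
  have ht : p.t = q.t := by
    funext ξ j
    by_cases hm : ξ ∈ p.F ∧ j < p.n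
    · have h5 : (ξ, j, p.t ξ j) ∈ (p.F ×ˢ Finset.range p.n).image
          (fun a => (a.1, a.2, p.t a.1 a.2)) :=
        Finset.mem_image.2 ⟨(ξ, j), Finset.mem_product.2 ⟨hm.1, Finset.mem_range.2 hm.2⟩, rfl⟩
      rw [h3, Finset.mem_image] at h5
      obtain ⟨⟨ξ', j'⟩, -, h6⟩ := h5
      simp only [Prod.mk.injEq] at h6
      obtain ⟨rfl, rfl, h7⟩ := h6
      exact h7.symm
    · have hp : p.t ξ j = none := by
        by_contra hc
        exact hm (p.t_out ξ j hc)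
      have hq : q.t ξ j = none := by
        by_contra hc
        have := q.t_out ξ j hc
        rw [← h1, ← h2] at this
        exact hm this
      rw [hp, hq]
  have hk : p.k = q.k := by
    funext ξ
    by_cases hm : ξ ∈ p.F
    · have h5 : (ξ, p.k ξ) ∈ p.F.image (fun ξ => (ξ, p.k ξ)) := Finset.mem_image.2 ⟨ξ, hm, rfl⟩
      rw [h4, Finset.mem_image] at h5
      obtain ⟨ξ', -, h6⟩ := h5
      simp only [Prod.mk.injEq] at h6
      obtain ⟨rfl, h7⟩ := h6
      exact h7.symm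
    · have hp : p.k ξ = 0 := by
        by_contra hc
        exact hm (p.k_out ξ hc)
      have hq : q.k ξ = 0 := by
        by_contra hc
        have := q.k_out ξ hc
        rw [← h1] at this
        exact hm this
      rw [hp, hq]
  exact Cond.ext h1 h2 ht hk

theorem BBigA_cond {ι : Type} [LinearOrder ι] {κ : Cardinal.{0}} (hκ : ℵ₀ ≤ κ) (hι : #ι = κ) :
    #(Cond ι) ≤ κ := by
  haveI : Infinite ι := by rw [infinite_iff, hι]; exact hκ
  have h1 := mk_le_of_injective (BBigA_code_inj (ι := ι))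
  refine h1.trans ?_
  have e1 : #(Finset ι) = κ := by rw [mk_finset_of_infinite, hι]
  have e2 : #(ι × ℕ × Option ℕ) = κ := by
    rw [mk_prod, mk_prod]
    simp only [lift_id, lift_uzero]
    rw [hι, mk_eq_aleph0 ℕ, mk_eq_aleph0 (Option ℕ), aleph0_mul_aleph0]
    exact mul_aleph0_eq hκ
  have e3 : #(ι × ℕ) = κ := by
    rw [mk_prod]
    simp only [lift_id, lift_uzero]
    rw [hι, mk_eq_aleph0 ℕ]
    exact mul_aleph0_eq hκ
  have e4 : #(Finset (ι × ℕ × Option ℕ)) = κ := by rw [mk_finset_of_infinite, e2]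
  have e5 : #(Finset (ι × ℕ)) = κ := by rw [mk_finset_of_infinite, e3]
  rw [mk_prod, mk_prod, mk_prod]
  simp only [lift_id, lift_uzero]
  rw [e1, e4, e5, mk_eq_aleph0 ℕ, mul_eq_self hκ, aleph0_mul_eq hκ, mul_eq_self hκ]

theorem BBigA_raw {ι : Type} [LinearOrder ι] (hι : #ι = 2 ^ (ℵ₁ : Cardinal.{0})) :
    #(Raw ι) ≤ 2 ^ (ℵ₁ : Cardinal.{0}) := by
  have hκ : (ℵ₀ : Cardinal.{0}) ≤ 2 ^ (ℵ₁ : Cardinal.{0}) :=
    (aleph0_le_aleph 1).trans (cantor _).le
  have h0 := BBigA_cond hκ hι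
  have h1 : #(Option (Cond ι)) ≤ 2 ^ (ℵ₁ : Cardinal.{0}) := by
    rw [mk_option]
    exact (add_le_add_left h0 1).trans (add_one_eq hκ).le
  have h2 : ((2 : Cardinal.{0}) ^ (ℵ₁ : Cardinal.{0})) ^ (ℵ₀ : Cardinal.{0}) = 2 ^ (ℵ₁ : Cardinal.{0}) := by
    rw [← power_mul, mul_aleph0_eq (aleph0_le_aleph 1)]
  have h3 : #(ℕ → Option (Cond ι)) ≤ 2 ^ (ℵ₁ : Cardinal.{0}) := by
    rw [mk_arrow]
    simp only [lift_id, lift_uzero]
    rw [mk_eq_aleph0 ℕ]
    exact (power_le_power_right h1).trans h2.le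
  show #(ℕ → ℕ → Option (Cond ι)) ≤ 2 ^ (ℵ₁ : Cardinal.{0})
  rw [mk_arrow]
  simp only [lift_id, lift_uzero]
  rw [mk_eq_aleph0 ℕ]
  exact (power_le_power_right h3).trans h2.le

/-- A well-order of type the initial ordinal of `2 ^ ℵ₁`: its cofinality is larger than `ℵ₁`
(Konig), there are `2 ^ ℵ₁` conditions, and `(2 ^ ℵ₁) ^ ℵ₀ = 2 ^ ℵ₁` raw names. -/
theorem exists_big : ∃ (ι : Type) (_ : LinearOrder ι) (_ : WellFoundedLT ι) (e : ι → Raw ι),
    Big ι e := by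
  have hκ : (ℵ₀ : Cardinal.{0}) ≤ 2 ^ (ℵ₁ : Cardinal.{0}) :=
    (aleph0_le_aleph 1).trans (cantor _).le
  have hι : #((2 ^ (ℵ₁ : Cardinal.{0}) : Cardinal.{0}).ord.ToType) = 2 ^ (ℵ₁ : Cardinal.{0}) :=
    mk_ord_toType _
  have hraw := BBigA_raw hι
  haveI : Nonempty (Raw ((2 ^ (ℵ₁ : Cardinal.{0}) : Cardinal.{0}).ord.ToType)) :=
    ⟨fun _ _ => none⟩
  have h1 : #((2 ^ (ℵ₁ : Cardinal.{0}) : Cardinal.{0}).ord.ToType ×
      Raw ((2 ^ (ℵ₁ : Cardinal.{0}) : Cardinal.{0}).ord.ToType)) = 2 ^ (ℵ₁ : Cardinal.{0}) := by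
    rw [mk_prod]
    simp only [lift_id]
    rw [hι]
    exact mul_eq_left hκ hraw (mk_ne_zero _)
  obtain ⟨φ⟩ := Cardinal.eq.1 (hι.trans h1.symm)
  refine ⟨(2 ^ (ℵ₁ : Cardinal.{0}) : Cardinal.{0}).ord.ToType, inferInstance, inferInstance,
    fun η => (φ η).2, ?_, ?_⟩
  · intro S hS
    rw [← not_isCofinal_iff]
    intro hc
    have h2 := Order.cof_le hc
    rw [Ordinal.cof_toType] at h2
    have h3 := lt_cof_ord_power (a := (ℵ₁ : Cardinal.{0})) (b := 2) (aleph0_le_aleph 1) one_lt_two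
    exact absurd (h2.trans hS) (not_le.2 h3)
  · intro y α
    by_contra hc
    push Not at hc
    have h2 : ∀ i : (2 ^ (ℵ₁ : Cardinal.{0}) : Cardinal.{0}).ord.ToType, φ.symm (i, y) ∈ Iic α := by
      intro i
      rw [mem_Iic]
      by_contra hn
      exact hc _ (not_le.1 hn) (by simp)
    have h3 : Injective (fun i : (2 ^ (ℵ₁ : Cardinal.{0}) : Cardinal.{0}).ord.ToType =>
        (⟨φ.symm (i, y), h2 i⟩ : Iic α)) := by
      intro i i' h
      have h4 := congrArg Subtype.val h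
      simpa using h4
    have h4 := mk_le_of_injective h3
    have h5 := mk_Iic_lt α (by rw [hι, Ordinal.type_toType]) (by rw [hι]; exact hκ)
    exact absurd h4 (not_le.2 h5)

end Pool.Agent.H5Z
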