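import Pool.Agent.Lib.H5Z.BCond
import Pool.Agent.Lib.H5Z.BBigDef

/-! Chunk BBigB. -/

set_option autoImplicit false

open Set Function Cardinal

namespace Pool.Agent.H5Z

/-- A sequence of type `ω₁` which is closed under `g`, and its supremum. -/
theorem exists_seq {ι : Type} [LinearOrder ι] [WellFoundedLT ι] (e : ι → Raw ι) (hb : Big ι e)
    (g : ι → ι) (α0 : ι) :
    ∃ (W : Type) (β : W → ι) (α : ι), Uncountable W ∧ α0 < α ∧
      (∀ w, β w < α ∧ g (β w) ≤ α) ∧ ∀ x < α, {w | β w ≤ x}.Countable := by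
  let W : Type := (ℵ₁ : Cardinal.{0}).ord.ToType
  have hW : #W = ℵ₁ := mk_ord_toType _
  have hunc : Uncountable W := by
    rw [← Cardinal.aleph0_lt_mk_iff, hW]
    exact aleph0_lt_aleph_one
  have hIio : ∀ w : W, (Iio w).Countable := by
    intro w
    rw [← Cardinal.le_aleph0_iff_set_countable]
    have h1 := mk_Iio_toType_ord_lt w
    rw [← Order.lt_succ_iff, succ_aleph0]
    exact h1
  -- the recursion
  have hbound : ∀ (w : W) (prev : ∀ v : W, v < w → ι), ∃ b : ι, α0 < b ∧
      ∀ v (hv : v < w), prev v hv < b ∧ g (prev v hv) < b := by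
    intro w prev
    let S : Set ι := {α0} ∪ ⋃ v : Iio w, {prev v.1 v.2, g (prev v.1 v.2)}
    have hS : S.Countable := by
      refine (countable_singleton α0).union ?_
      have : Countable (Iio w) := (hIio w).to_subtype
      refine countable_iUnion fun v => ?_
      exact (Set.toFinite _).countable
    obtain ⟨b, hb'⟩ := hb.bdd S ((Cardinal.le_aleph0_iff_set_countable.2 hS).trans
      (Cardinal.aleph0_le_aleph 1))
    refine ⟨b, hb' α0 (Or.inl rfl), fun v hv => ⟨?_, ?_⟩⟩
    · exact hb' _ (Or.inr (mem_iUnion.2 ⟨⟨v, hv⟩, by simp⟩))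
    · exact hb' _ (Or.inr (mem_iUnion.2 ⟨⟨v, hv⟩, by simp⟩))
  let β : W → ι := (wellFounded_lt : WellFounded ((· < ·) : W → W → Prop)).fix
    fun w prev => Classical.choose (hbound w prev)
  have hβ : ∀ w, α0 < β w ∧ ∀ v, v < w → β v < β w ∧ g (β v) < β w := by
    intro w
    have heq : β w = Classical.choose (hbound w fun v _ => β v) :=
      (wellFounded_lt : WellFounded ((· < ·) : W → W → Prop)).fix_eq
        (C := fun _ => ι) (fun w prev => Classical.choose (hbound w prev)) w
    have hsp := Classical.choose_spec (hbound w fun v _ => β v)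
    rw [← heq] at hsp
    exact hsp
  -- the supremum
  obtain ⟨b, hbd⟩ := hb.bdd (range β) (by
    have := mk_range_le (f := β)
    rw [hW] at this
    exact this)
  have hne : {x : ι | ∀ w, β w < x}.Nonempty := ⟨b, fun w => hbd _ (mem_range_self w)⟩
  let α : ι := (wellFounded_lt : WellFounded ((· < ·) : ι → ι → Prop)).min {x : ι | ∀ w, β w < x} hne
  have hα : ∀ w, β w < α :=
    (wellFounded_lt : WellFounded ((· < ·) : ι → ι → Prop)).min_mem {x : ι | ∀ w, β w < x} hne
  have hmin : ∀ x < α, ∃ w, x ≤ β w := by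
    intro x hx
    by_contra hc
    push Not at hc
    exact (wellFounded_lt : WellFounded ((· < ·) : ι → ι → Prop)).not_lt_min
      {x : ι | ∀ w, β w < x} hc hx
  have hnomax : ∀ w : W, ∃ w', w < w' := by
    intro w
    by_contra hc
    push Not at hc
    have h1 : (univ : Set W) ⊆ insert w (Iio w) := by
      intro v _
      rcases (hc v).lt_or_eq with h | h
      · exact Or.inr h
      · exact Or.inl h
    exact not_countable_univ (((hIio w).insert w).mono h1)
  obtain ⟨w0⟩ : Nonempty W := inferInstance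
  refine ⟨W, β, α, hunc, (hβ w0).1.trans (hα w0), fun w => ⟨hα w, ?_⟩, ?_⟩
  · obtain ⟨w', hw'⟩ := hnomax w
    exact (((hβ w').2 w hw').2.trans (hα w')).le
  · intro x hx
    obtain ⟨w, hw⟩ := hmin x hx
    refine ((hIio w).insert w).mono ?_
    intro v hv
    rcases lt_trichotomy v w with h | h | h
    · exact Or.inr h
    · exact Or.inl h
    · exact absurd (hv.trans hw) (not_le.2 ((hβ v).2 w h).1)

end Pool.Agent.H5Z
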