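import Pool.Agent.Lib.H5Z.BBigDef
import Pool.Agent.Lib.H5Z.BBigA
import Pool.Agent.Lib.H5Z.BBigB

/-! Chunk BBig: the length of the iteration and the bookkeeping function. -/
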