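import Pool.Agent.Lib.H5Z.BCond

/-! Chunk BDeltaA. -/

set_option autoImplicit false

open Set Function

namespace Pool.Agent.H5Z

theorem BDeltaA_card {W X : Type} [DecidableEq X] (n : ℕ) : ∀ (A : Set W) (_ : ¬ A.Countable)
    (f : W → Finset X) (_ : ∀ w ∈ A, (f w).card = n),
    ∃ S ⊆ A, ¬ S.Countable ∧ ∃ R : Finset X, ∀ w ∈ S, ∀ w' ∈ S, w ≠ w' → f w ∩ f w' = R := by
  induction n with
  | zero =>
    intro A hA f hf
    refine ⟨A, subset_rfl, hA, ∅, ?_⟩
    intro w hw w' hw' _
    have : f w = ∅ := Finset.card_eq_zero.mp (hf w hw)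
    rw [this, Finset.empty_inter]
  | succ n ih =>
    intro A hA f hf
    by_cases hx : ∃ x : X, ¬ ({w ∈ A | x ∈ f w} : Set W).Countable
    · obtain ⟨x, hx⟩ := hx
      obtain ⟨S, hSA, hS, R, hR⟩ := ih {w ∈ A | x ∈ f w} hx (fun w => (f w).erase x) (by
        rintro w ⟨hw, hxw⟩
        rw [Finset.card_erase_of_mem hxw, hf w hw]; rfl)
      refine ⟨S, fun w hw => (hSA hw).1, hS, insert x R, ?_⟩
      intro w hw w' hw' hne
      have h1 := hR w hw w' hw' hne
      have hxw := (hSA hw).2
      have hxw' := (hSA hw').2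
      rw [← h1]
      ext y
      simp only [Finset.mem_inter, Finset.mem_insert, Finset.mem_erase]
      constructor
      · rintro ⟨a, b⟩
        by_cases hy : y = x
        · exact Or.inl hy
        · exact Or.inr ⟨⟨hy, a⟩, ⟨hy, b⟩⟩
      · rintro (rfl | ⟨⟨_, a⟩, ⟨_, b⟩⟩)
        · exact ⟨hxw, hxw'⟩
        · exact ⟨a, b⟩
    · push Not at hx
      -- a maximal subset with pairwise disjoint values
      obtain ⟨S, hSmax⟩ := zorn_subset
        {S : Set W | S ⊆ A ∧ ∀ w ∈ S, ∀ w' ∈ S, w ≠ w' → f w ∩ f w' = ∅} (by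
          intro c hc hchain
          refine ⟨⋃₀ c, ⟨?_, ?_⟩, fun s hs => subset_sUnion_of_mem hs⟩
          · exact sUnion_subset fun s hs => (hc hs).1
          · intro w hw w' hw' hne
            obtain ⟨s, hs, hws⟩ := hw
            obtain ⟨s', hs', hws'⟩ := hw'
            rcases hchain.total hs hs' with h | h
            · exact (hc hs').2 w (h hws) w' hws' hne
            · exact (hc hs).2 w hws w' (h hws') hne)
      have hS := hSmax.prop
      refine ⟨S, hS.1, ?_, ∅, hS.2⟩
      intro hcount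
      have hY : (⋃ w ∈ S, {w' ∈ A | ∃ x ∈ f w, x ∈ f w'} : Set W).Countable := by
        refine hcount.biUnion fun w _ => ?_
        have : ({w' ∈ A | ∃ x ∈ f w, x ∈ f w'} : Set W) = ⋃ x ∈ (f w : Set X), {w' ∈ A | x ∈ f w'} := by
          ext w'
          simp only [Set.mem_setOf_eq, Set.mem_iUnion, Finset.mem_coe, exists_prop]
          constructor
          · rintro ⟨a, x, hx, hx'⟩; exact ⟨x, hx, a, hx'⟩
          · rintro ⟨x, hx, a, hx'⟩; exact ⟨a, x, hx, hx'⟩
        rw [this]
        exact (Finset.countable_toSet _).biUnion fun x _ => hx x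
      have : ∃ w₀ ∈ A, w₀ ∉ (⋃ w ∈ S, {w' ∈ A | ∃ x ∈ f w, x ∈ f w'} : Set W) := by
        by_contra hcon
        push Not at hcon
        exact hA (hY.mono hcon)
      obtain ⟨w₀, hw₀A, hw₀⟩ := this
      have hdis : ∀ w ∈ S, f w ∩ f w₀ = ∅ := by
        intro w hw
        by_contra hne
        obtain ⟨x, hx⟩ := Finset.nonempty_iff_ne_empty.mpr hne
        rw [Finset.mem_inter] at hx
        exact hw₀ (Set.mem_biUnion hw ⟨hw₀A, x, hx.1, hx.2⟩)
      have hmem : insert w₀ S ∈ {S : Set W | S ⊆ A ∧ ∀ w ∈ S, ∀ w' ∈ S, w ≠ w' → f w ∩ f w' = ∅} := by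
        refine ⟨insert_subset hw₀A hS.1, ?_⟩
        intro w hw w' hw' hne
        rcases hw with rfl | hw
        · rcases hw' with rfl | hw'
          · exact absurd rfl hne
          · rw [Finset.inter_comm]; exact hdis w' hw'
        · rcases hw' with rfl | hw'
          · exact hdis w hw
          · exact hS.2 w hw w' hw' hne
      have hin : w₀ ∈ S := by
        have := hSmax.eq_of_subset hmem (subset_insert _ _)
        rw [this]; exact mem_insert _ _
      have h0 := hdis w₀ hin
      rw [Finset.inter_self] at h0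
      have := hf w₀ hw₀A
      rw [h0] at this
      simp at this

theorem delta_system {W X : Type} [DecidableEq X] (A : Set W) (hA : ¬ A.Countable)
    (f : W → Finset X) :
    ∃ S ⊆ A, ¬ S.Countable ∧ ∃ R : Finset X, ∀ w ∈ S, ∀ w' ∈ S, w ≠ w' → f w ∩ f w' = R := by
  have : ∃ n : ℕ, ¬ ({w ∈ A | (f w).card = n} : Set W).Countable := by
    by_contra hcon
    push Not at hcon
    apply hA
    have h := Set.countable_iUnion hcon
    refine h.mono ?_
    intro w hw
    exact Set.mem_iUnion.mpr ⟨(f w).card, hw, rfl⟩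
  obtain ⟨n, hn⟩ := this
  obtain ⟨S, hS, hS2, R, hR⟩ := BDeltaA_card n _ hn f (fun w hw => hw.2)
  exact ⟨S, fun w hw => (hS hw).1, hS2, R, hR⟩

end Pool.Agent.H5Z
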