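import Pool.Agent.Lib.H5Z.BCond
import Pool.Agent.Lib.H5Z.BDeltaA

/-! Chunk BDeltaB. -/

set_option autoImplicit false

open Set Function

namespace Pool.Agent.H5Z

/-- pigeonhole for maps to a countable type -/
theorem pigeon_countable {W Y : Type} [Countable Y] (A : Set W) (hA : ¬ A.Countable) (f : W → Y) :
    ∃ S ⊆ A, ¬ S.Countable ∧ ∃ y, ∀ w ∈ S, f w = y := by
  by_contra hc
  apply hA
  have h1 : A = ⋃ y : Y, {w ∈ A | f w = y} := by
    ext w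
    simp
  rw [h1]
  refine countable_iUnion fun y => ?_
  by_contra hy
  exact hc ⟨{w ∈ A | f w = y}, fun w hw => hw.1, hy, y, fun w hw => hw.2⟩

theorem delta_cond {W ι : Type} [LinearOrder ι] (A : Set W) (hA : ¬ A.Countable)
    (f : W → Cond ι) :
    ∃ S ⊆ A, ¬ S.Countable ∧ ∃ (R : Finset ι) (n : ℕ), (∀ w ∈ S, (f w).n = n) ∧
      (∀ w ∈ S, ∀ w' ∈ S, w ≠ w' → (f w).F ∩ (f w').F = R) ∧
      ∀ w ∈ S, ∀ w' ∈ S, ∀ ξ ∈ R, ∀ j, (f w).t ξ j = (f w').t ξ j := by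
  obtain ⟨S1, hS1, hc1, R, hR⟩ := delta_system A hA (fun w => (f w).F)
  obtain ⟨S2, hS2, hc2, n, hn⟩ := pigeon_countable S1 hc1 (fun w => (f w).n)
  obtain ⟨S3, hS3, hc3, τ, hτ⟩ := pigeon_countable S2 hc2
    (fun w => fun x : {ξ // ξ ∈ R} × Fin n => (f w).t x.1.1 x.2.1)
  refine ⟨S3, hS3.trans (hS2.trans hS1), hc3, R, n, fun w hw => hn w (hS3 hw),
    fun w hw w' hw' hne => hR w (hS2 (hS3 hw)) w' (hS2 (hS3 hw')) hne, ?_⟩
  intro w hw w' hw' ξ hξ j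
  by_cases hj : j < n
  · have h1 := congrFun (hτ w hw) (⟨ξ, hξ⟩, ⟨j, hj⟩)
    have h2 := congrFun (hτ w' hw') (⟨ξ, hξ⟩, ⟨j, hj⟩)
    exact h1.trans h2.symm
  · have key : ∀ x ∈ S3, (f x).t ξ j = none := by
      intro x hx
      by_contra hne
      have h1 := ((f x).t_out ξ j hne).2
      have h2 := hn x (hS3 hx)
      omega
    rw [key w hw, key w' hw']

end Pool.Agent.H5Z
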