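import Pool.Agent.Lib.H5Z.BDeltaA
import Pool.Agent.Lib.H5Z.BDeltaB

/-! Chunk BDelta: the Delta-system lemma for uncountable families of finite sets, and for
conditions. -/
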