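import Pool.Agent.Lib.H5Z.BExt

/-! Chunk BNames: the names of the generic partial functions. -/

set_option autoImplicit false

open Set Function

namespace Pool.Agent.H5Z

variable {ι : Type} [LinearOrder ι] [WellFoundedLT ι] (e : ι → Raw ι)

/-- Boolean value of `s_i(j) = k`. -/
def sR (i : ι) (j k : ℕ) : RO (PP e) :=
  RO.gen {p : PP e | i ∈ Cond.F p ∧ j < Cond.n p ∧ Cond.t p i j = some k}

/-- Every condition has an extension which decides `s_i(j)`. -/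
theorem exists_det (p : PP e) (i : ι) (j : ℕ) :
    ∃ q : PP e, q ≤ p ∧ i ∈ Cond.F q ∧ j < Cond.n q := by
  obtain ⟨q1, h1, h2, _, _⟩ := ext_coord e p {i}
  obtain ⟨q2, h3, h4, h5, _⟩ := ext_n e q1 (j + 1)
  refine ⟨q2, LE_trans e h3 h1, ?_, ?_⟩
  · change i ∈ q2.F
    rw [h4, h2]
    exact Finset.mem_union_right _ (Finset.mem_singleton_self i)
  · change j < q2.n
    rw [h5]
    exact lt_max_of_lt_left (Nat.lt_succ_self j)

theorem mem_sR (p : PP e) (i : ι) (j k : ℕ) (hi : i ∈ Cond.F p) (hj : j < Cond.n p) :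
    p ∈ (sR e i j k).s ↔ Cond.t p i j = some k := by
  constructor
  · intro h
    obtain ⟨r, hr, a, ⟨ha1, ha2, ha3⟩, hra⟩ := h p le_rfl
    have h1 : Cond.t r i j = Cond.t p i j := hr.1.t i hi j hj
    have h2 : Cond.t r i j = Cond.t a i j := hra.1.t i ha1 j ha2
    rw [← h1, h2, ha3]
  · intro h q hq
    exact ⟨q, le_rfl, p, ⟨hi, hj, h⟩, hq⟩

theorem mem_dm (p : PP e) (i : ι) (j : ℕ) (hi : i ∈ Cond.F p) (hj : j < Cond.n p) :
    p ∈ (dmB (sR e i) j).s ↔ Cond.t p i j ≠ none := by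
  unfold dmB
  rw [RO.mem_iSup]
  constructor
  · intro h hc
    obtain ⟨r, hr, k, hk⟩ := h p le_rfl
    have h1 : Cond.t r i j = Cond.t p i j := hr.1.t i hi j hj
    rw [mem_sR e r i j k (hr.1.F hi) (hj.trans_le hr.1.n), h1, hc] at hk
    exact absurd hk (by simp)
  · intro h q hq
    obtain ⟨k, hk⟩ := Option.ne_none_iff_exists'.1 h
    have h1 : Cond.t q i j = Cond.t p i j := hq.1.t i hi j hj
    refine ⟨q, le_rfl, k, ?_⟩
    rw [mem_sR e q i j k (hq.1.F hi) (hj.trans_le hq.1.n), h1, hk]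

theorem mem_AAb (f : ℕ → RO (PP e)) (p : PP e) :
    p ∈ (AAb f).s ↔ ∀ q ≤ p, ∃ r ≤ q, ∃ n, ∀ j, n ≤ j → r ∈ (f j).s := by
  unfold AAb
  rw [RO.mem_iSup]
  simp only [RO.mem_iInf]

theorem mem_iffB (a b : RO (PP e)) (p : PP e) :
    p ∈ (iffB a b).s ↔ ∀ q ≤ p, (q ∈ a.s ↔ q ∈ b.s) := by
  unfold iffB
  rw [RO.mem_inf, RO.mem_himp, RO.mem_himp]
  exact ⟨fun h q hq => ⟨h.1 q hq, h.2 q hq⟩, fun h => ⟨fun q hq => (h q hq).1,
    fun q hq => (h q hq).2⟩⟩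

end Pool.Agent.H5Z
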