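import Pool.Agent.Lib.H5Z.BGlue
import Pool.Agent.Lib.H5Z.BNames

/-! Chunk BSuppA. -/

set_option autoImplicit false

open Set Function

namespace Pool.Agent.H5Z

variable {ι : Type} [LinearOrder ι] [WellFoundedLT ι] (e : ι → Raw ι)

/-- restriction, as a map of `PP e` -/
def resP (α : ι) (p : PP e) : PP e := res α p

/-- `b` depends only on the coordinates below `α`. -/
def SuppR (α : ι) (b : RO (PP e)) : Prop := ∀ r : PP e, r ∈ b.s → resP e α r ∈ b.s

theorem SuppR.mono {α β : ι} (h : α ≤ β) {b : RO (PP e)} (hb : SuppR e α b) : SuppR e β b := by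
  intro r hr
  have h1 : (resP e β r) ≤ resP e α r := by
    have h2 : LE e (res β r) (res α (res β r)) := LE_res e α (res β r)
    have h3 : res α (res β r) = res α r := res_res h r
    rw [h3] at h2
    exact h2
  exact b.lower (hb r hr) h1

theorem supp_gen (α : ι) (A : Set (PP e)) (hA : ∀ a ∈ A, Below α (a : Cond ι)) :
    SuppR e α (RO.gen A) := by
  intro r hr q hq
  have h1 : LE e (res α q) (res α r) := by
    have := LE_res_mono e (α := α) hq
    have h2 : res α (resP e α r) = res α r := res_res le_rfl r
    rw [h2] at this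
    exact this
  obtain ⟨z, hz1, hz2, _⟩ := amalg e r (res α q) α (below_res α q) h1
  obtain ⟨s, hs, a, ha, hsa⟩ := hr z hz1
  have h3 : LE e (res α s) (res α q) := by
    have := LE_res_mono e (α := α) (LE_trans e hs hz2)
    have h4 : res α (res α q) = res α q := res_res le_rfl q
    rw [h4] at this
    exact this
  obtain ⟨y, hy1, hy2, _⟩ := amalg e q (res α s) α (below_res α s) h3
  refine ⟨y, hy1, a, ha, LE_trans e hy2 ?_⟩
  have := LE_res_mono e (α := α) hsa
  rw [res_of_below (hA a ha)] at this
  exact this

theorem supp_compl (α : ι) (b : RO (PP e)) (hb : SuppR e α b) : SuppR e α bᶜ := by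
  intro r hr
  rw [RO.mem_compl] at hr ⊢
  intro q hq hqb
  have h1 : LE e (res α q) (res α r) := by
    have := LE_res_mono e (α := α) hq
    have h2 : res α (resP e α r) = res α r := res_res le_rfl r
    rw [h2] at this
    exact this
  obtain ⟨z, hz1, hz2, _⟩ := amalg e r (res α q) α (below_res α q) h1
  exact hr z hz1 (b.lower (hb q hqb) hz2)

end Pool.Agent.H5Z
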