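import Pool.Agent.Lib.H5Z.BGlue
import Pool.Agent.Lib.H5Z.BNames
import Pool.Agent.Lib.H5Z.BSuppA

/-! Chunk BSuppB. -/

set_option autoImplicit false

open Set Function

namespace Pool.Agent.H5Z

variable {ι : Type} [LinearOrder ι] [WellFoundedLT ι] (e : ι → Raw ι)

theorem supp_inf (α : ι) (a b : RO (PP e)) (ha : SuppR e α a) (hb : SuppR e α b) :
    SuppR e α (a ⊓ b) := by
  intro r hr
  exact ⟨ha r hr.1, hb r hr.2⟩

theorem supp_himp (α : ι) (a b : RO (PP e)) (ha : SuppR e α a) (hb : SuppR e α b) :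
    SuppR e α (a ⇨ b) := by
  have : a ⇨ b = (a ⊓ bᶜ)ᶜ := by
    rw [himp_eq, compl_inf, compl_compl, sup_comm]
  rw [this]
  exact supp_compl e α _ (supp_inf e α _ _ ha (supp_compl e α _ hb))

theorem supp_top (α : ι) : SuppR e α ⊤ := by
  intro r _
  exact RO.mem_top _

theorem supp_bot (α : ι) : SuppR e α ⊥ := by
  intro r hr
  exact hr.elim

theorem supp_iffB (α : ι) (a b : RO (PP e)) (ha : SuppR e α a) (hb : SuppR e α b) :
    SuppR e α (iffB a b) :=
  supp_inf e α _ _ (supp_himp e α _ _ ha hb) (supp_himp e α _ _ hb ha)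

theorem supp_sR (α i : ι) (h : i < α) (j k : ℕ) : SuppR e α (sR e i j k) := by
  -- every condition in the generating set lies below its restriction, which is in the set
  have hgen : sR e i j k = RO.gen {p : PP e | Below α (p : Cond ι) ∧ i ∈ Cond.F p ∧
      j < Cond.n p ∧ Cond.t p i j = some k} := by
    apply le_antisymm
    · rw [sR, RO.gen_le_iff]
      rintro p ⟨h1, h2, h3⟩ q hq
      refine ⟨q, le_rfl, resP e α p, ⟨below_res α p, mem_res_F.2 ⟨h1, h⟩, h2, ?_⟩,
        LE_trans e hq (LE_res e α p)⟩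
      exact (res_t_lt h (p : Cond ι) j).trans h3
    · rw [RO.gen_le_iff]
      rintro p ⟨_, h1, h2, h3⟩ q hq
      exact ⟨q, le_rfl, p, ⟨h1, h2, h3⟩, hq⟩
  rw [hgen]
  exact supp_gen e α _ fun a ha => ha.1

end Pool.Agent.H5Z
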