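import Pool.Agent.Lib.H5Z.BSuppA
import Pool.Agent.Lib.H5Z.BSuppB

/-! Chunk BSupp: regular open sets that only depend on the coordinates below `α`. -/
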