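import Pool.Agent.Lib.H5Z.BExt
import Pool.Agent.Lib.H5Z.BSupp
import Pool.Agent.Lib.H5Z.BDelta
import Pool.Agent.Lib.H5Z.BBig

/-! Chunk BCccA. -/

set_option autoImplicit false

open Set Function

namespace Pool.Agent.H5Z

variable {ι : Type} [LinearOrder ι] [WellFoundedLT ι] (e : ι → Raw ι)

theorem ccc (A : Set (PP e)) (hA : ∀ p ∈ A, ∀ q ∈ A, p ≠ q → ¬ ∃ r : PP e, r ≤ p ∧ r ≤ q) :
    A.Countable := by
  by_contra hc
  obtain ⟨S, hSA, hSc, R, n, hn, hR, ht⟩ := delta_cond A hc (fun p => (p : Cond ι))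
  have hS2 : ∃ p ∈ S, ∃ q ∈ S, p ≠ q := by
    by_contra h
    apply hSc
    have hsub : S.Subsingleton := by
      intro p hp q hq
      by_contra hne
      exact h ⟨p, hp, q, hq, hne⟩
    exact hsub.countable
  obtain ⟨p, hp, q, hq, hne⟩ := hS2
  obtain ⟨r, hr1, hr2, _⟩ := join e (p : Cond ι) (q : Cond ι) ((hn p hp).trans (hn q hq).symm)
    (fun ξ h1 h2 j => ht p hp q hq ξ (by
      rw [← hR p hp q hq hne]
      exact Finset.mem_inter.2 ⟨h1, h2⟩) j) 0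
  exact hA p (hSA hp) q (hSA hq) hne ⟨r, hr1, hr2⟩

end Pool.Agent.H5Z
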