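import Pool.Agent.Lib.H5Z.BExt
import Pool.Agent.Lib.H5Z.BSupp
import Pool.Agent.Lib.H5Z.BDelta
import Pool.Agent.Lib.H5Z.BBig
import Pool.Agent.Lib.H5Z.BCccA

/-! Chunk BCccB. -/

set_option autoImplicit false

open Set Function

namespace Pool.Agent.H5Z

variable {ι : Type} [LinearOrder ι] [WellFoundedLT ι] (e : ι → Raw ι)

/-- every regular open set is generated by a countable set of conditions -/
theorem exists_gen (b : RO (PP e)) :
    ∃ f : ℕ → Option (Cond ι), b = RO.gen {p : PP e | ∃ i, f i = some p} := by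
  -- a maximal antichain inside `b`
  obtain ⟨A, hmax⟩ := zorn_subset
    {A : Set (PP e) | A ⊆ b.s ∧ ∀ p ∈ A, ∀ q ∈ A, p ≠ q → ¬ ∃ r : PP e, r ≤ p ∧ r ≤ q} (by
      intro c hc hchain
      refine ⟨⋃₀ c, ⟨sUnion_subset fun s hs => (hc hs).1, ?_⟩, fun s hs => subset_sUnion_of_mem hs⟩
      rintro p ⟨s, hs, hps⟩ q ⟨t, ht, hqt⟩ hne
      rcases hchain.total hs ht with h | h
      · exact (hc ht).2 p (h hps) q hqt hne
      · exact (hc hs).2 p hps q (h hqt) hne)
  have hA := hmax.prop
  have hgen : b = RO.gen A := by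
    apply le_antisymm
    · intro p hp q hq
      by_contra hcon
      have hqA : q ∉ A := fun h => hcon ⟨q, le_rfl, q, h, le_rfl⟩
      have hins : insert q A ∈ {A : Set (PP e) | A ⊆ b.s ∧
          ∀ p ∈ A, ∀ q ∈ A, p ≠ q → ¬ ∃ r : PP e, r ≤ p ∧ r ≤ q} := by
        refine ⟨insert_subset (b.lower hp hq) hA.1, ?_⟩
        intro x hx y hy hne
        rcases mem_insert_iff.1 hx with hx1 | hx1
        · rcases mem_insert_iff.1 hy with hy1 | hy1
          · exact absurd (hx1.trans hy1.symm) hne
          · rintro ⟨r, h1, h2⟩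
            rw [hx1] at h1
            exact hcon ⟨r, h1, y, hy1, h2⟩
        · rcases mem_insert_iff.1 hy with hy1 | hy1
          · rintro ⟨r, h1, h2⟩
            rw [hy1] at h2
            exact hcon ⟨r, h2, x, hx1, h1⟩
          · exact hA.2 x hx1 y hy1 hne
      exact hqA (hmax.le_of_ge hins (subset_insert q A) (mem_insert q A))
    · rw [RO.gen_le_iff]
      exact fun p hp => hA.1 hp
  have hcount : A.Countable := ccc e A hA.2
  let _ : Encodable A := hcount.toEncodable
  let g : A → Cond ι := fun x => x.1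
  refine ⟨fun i => Option.map g (Encodable.decode i), ?_⟩
  rw [hgen]
  congr 1
  ext p
  constructor
  · intro hp
    refine ⟨Encodable.encode (⟨p, hp⟩ : A), ?_⟩
    change Option.map g (Encodable.decode (Encodable.encode (⟨p, hp⟩ : A))) = some p
    rw [Encodable.encodek]
    rfl
  · rintro ⟨i, hi⟩
    change Option.map g (Encodable.decode i) = some p at hi
    obtain ⟨x, _, hx⟩ := Option.map_eq_some_iff.1 hi
    have hx' : (x.1 : PP e) = p := hx
    rw [← hx']
    exact x.2

end Pool.Agent.H5Z
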