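import Pool.Agent.Lib.H5Z.BExt
import Pool.Agent.Lib.H5Z.BSupp
import Pool.Agent.Lib.H5Z.BDelta
import Pool.Agent.Lib.H5Z.BBig
import Pool.Agent.Lib.H5Z.BCccB

/-! Chunk BCccC. -/

set_option autoImplicit false

open Set Function

namespace Pool.Agent.H5Z

variable {ι : Type} [LinearOrder ι] [WellFoundedLT ι] (e : ι → Raw ι)

theorem exists_supp (hb : Big ι e) (b : ℕ → RO (PP e)) : ∃ α, ∀ j, SuppR e α (b j) := by
  choose f hf using fun j => exists_gen e (b j)
  let S : Set ι := ⋃ j : ℕ, ⋃ i : ℕ, {ξ | ∃ a : Cond ι, f j i = some a ∧ ξ ∈ a.F}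
  have hS : S.Countable := by
    refine countable_iUnion fun j => countable_iUnion fun i => ?_
    rcases hfi : f j i with _ | a
    · refine (Set.countable_empty).mono ?_
      rintro ξ ⟨a, ha, _⟩
      exact absurd ha (by simp)
    · refine (a.F.finite_toSet.countable).mono ?_
      rintro ξ ⟨a', ha', hξ⟩
      rw [Option.some_inj] at ha'
      subst ha'
      exact hξ
  obtain ⟨α, hα⟩ := hb.bdd S ((Cardinal.le_aleph0_iff_set_countable.2 hS).trans
    (Cardinal.aleph0_le_aleph 1))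
  refine ⟨α, fun j => ?_⟩
  rw [hf j]
  refine supp_gen e α _ ?_
  rintro a ⟨i, hi⟩ ξ hξ
  exact hα ξ (mem_iUnion.2 ⟨j, mem_iUnion.2 ⟨i, a, hi, hξ⟩⟩)

end Pool.Agent.H5Z
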