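import Pool.Agent.Lib.H5Z.BOrd

/-! Chunk BGlueA. -/

set_option autoImplicit false

open Set Function

namespace Pool.Agent.H5Z

variable {ι : Type} [LinearOrder ι] [WellFoundedLT ι] (e : ι → Raw ι)

/-- the glued condition -/
def BGlueA_cond (p t : Cond ι) (α : ι) (ht : Below α t) (c : ι → ℕ → Option ℕ) : Cond ι where
  F := t.F ∪ p.F.filter (α ≤ ·)
  n := t.n
  t ξ j := if ξ < α then t.t ξ j else
    if ξ ∈ p.F ∧ j < t.n then (if j < p.n then p.t ξ j else c ξ j) else none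
  k ξ := if ξ < α then (if ξ ∈ t.F then max (t.k ξ) (p.F.sup p.k) else 0) else p.k ξ
  t_out ξ j h := by
    rw [Finset.mem_union, Finset.mem_filter]
    by_cases hξ : ξ < α
    · rw [if_pos hξ] at h
      have := t.t_out ξ j h
      exact ⟨Or.inl this.1, this.2⟩
    · rw [if_neg hξ] at h
      by_cases h2 : ξ ∈ p.F ∧ j < t.n
      · exact ⟨Or.inr ⟨h2.1, not_lt.1 hξ⟩, h2.2⟩
      · rw [if_neg h2] at h
        exact absurd rfl h
  k_out ξ h := by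
    rw [Finset.mem_union, Finset.mem_filter]
    by_cases hξ : ξ < α
    · rw [if_pos hξ] at h
      by_cases h2 : ξ ∈ t.F
      · exact Or.inl h2
      · rw [if_neg h2] at h
        exact absurd rfl h
    · rw [if_neg hξ] at h
      exact Or.inr ⟨p.k_out ξ h, not_lt.1 hξ⟩
  anti ξ hξ ζ hζ h := by
    rw [Finset.mem_union, Finset.mem_filter] at hξ hζ
    by_cases h1 : ζ < α
    · have h2 : ξ < α := h.trans_lt h1
      have h3 : ξ ∈ t.F := hξ.resolve_right fun hc => absurd hc.2 (not_le.2 h2)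
      have h4 : ζ ∈ t.F := hζ.resolve_right fun hc => absurd hc.2 (not_le.2 h1)
      rw [if_pos h1, if_pos h2, if_pos h3, if_pos h4]
      exact max_le_max (t.anti ξ h3 ζ h4 h) le_rfl
    · have h4 : ζ ∈ p.F := by
        rcases hζ with hζ | hζ
        · exact absurd (ht ζ hζ) h1
        · exact hζ.1
      rw [if_neg h1]
      by_cases h2 : ξ < α
      · have h3 : ξ ∈ t.F := hξ.resolve_right fun hc => absurd hc.2 (not_le.2 h2)
        rw [if_pos h2, if_pos h3]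
        exact le_max_of_le_right (Finset.le_sup (f := p.k) h4)
      · have h3 : ξ ∈ p.F := by
          rcases hξ with hξ | hξ
          · exact absurd (ht ξ hξ) h2
          · exact hξ.1
        rw [if_neg h2]
        exact p.anti ξ h3 ζ h4 h

/-- `t` extends the restriction of `p` to the coordinates below `α`, and `c` prescribes the new
columns at the coordinates `≥ α`. The result `q` has
`q.F = t.F ∪ {ζ ∈ p.F | α ≤ ζ}`, `q.n = t.n`, `q.k ξ = max (t.k ξ) K` for `ξ ∈ t.F` with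
`K` the supremum of all `p.k`, and `q.k ζ = p.k ζ` for `α ≤ ζ`. -/
theorem glue (p t : Cond ι) (α : ι) (ht : Below α t) (h : LE e t (res α p)) (c : ι → ℕ → Option ℕ)
    (hc : ∀ ζ ∈ p.F, α ≤ ζ → ∀ j, p.n ≤ j → j < t.n → ∀ ξ ∈ p.F, ξ < ζ →
      Link (if ξ < α then t.t ξ j else c ξ j) (c ζ j) (p.k ζ))
    (hb : ∀ ζ ∈ p.F, α ≤ ζ → ∀ j, p.n ≤ j → j < t.n → c ζ j = none → ζ = α ∧ Blk e α j t) :
    ∃ q, LE e q p ∧ LE e q t ∧ q.n = t.n ∧ (∀ ξ, ξ ∈ q.F ↔ ξ ∈ t.F ∨ (ξ ∈ p.F ∧ α ≤ ξ)) ∧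
      (∀ ξ, ξ < α → ∀ j, q.t ξ j = t.t ξ j) ∧
      (∀ ζ ∈ p.F, α ≤ ζ → ∀ j, p.n ≤ j → j < t.n → q.t ζ j = c ζ j) ∧
      ∀ ζ, α ≤ ζ → q.k ζ = p.k ζ := by
  set q := BGlueA_cond p t α ht c with hq
  have qF : ∀ ξ, ξ ∈ q.F ↔ ξ ∈ t.F ∨ (ξ ∈ p.F ∧ α ≤ ξ) := fun ξ => by
    rw [hq]; simp [BGlueA_cond]
  have qn : q.n = t.n := rfl
  have qt1 : ∀ ξ, ξ < α → ∀ j, q.t ξ j = t.t ξ j := fun ξ hξ j => by
    rw [hq]; simp [BGlueA_cond, hξ]
  have qt2 : ∀ ζ ∈ p.F, α ≤ ζ → ∀ j, p.n ≤ j → j < t.n → q.t ζ j = c ζ j := by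
    intro ζ hζ hαζ j hj hj'
    rw [hq]; simp [BGlueA_cond, hζ, not_lt.2 hαζ, hj', not_lt.2 hj]
  have qt3 : ∀ ζ ∈ p.F, α ≤ ζ → ∀ j, j < p.n → j < t.n → q.t ζ j = p.t ζ j := by
    intro ζ hζ hαζ j hj hj'
    rw [hq]; simp [BGlueA_cond, hζ, not_lt.2 hαζ, hj', hj]
  have qk1 : ∀ ξ, ξ < α → ξ ∈ t.F → q.k ξ = max (t.k ξ) (p.F.sup p.k) := fun ξ hξ h2 => by
    rw [hq]; simp [BGlueA_cond, hξ, h2]
  have qk2 : ∀ ζ, α ≤ ζ → q.k ζ = p.k ζ := fun ζ hζ => by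
    rw [hq]; simp [BGlueA_cond, not_lt.2 hζ]
  have hpt : p.n ≤ t.n := h.1.n
  have hFt : ∀ ξ ∈ p.F, ξ < α → ξ ∈ t.F := fun ξ hξ hξα =>
    h.1.F (mem_res_F.2 ⟨hξ, hξα⟩)
  have hqt : LE e q t := by
    refine ⟨⟨fun ξ hξ => (qF ξ).2 (Or.inl hξ), qn.ge, fun ξ hξ j _ => qt1 ξ (ht ξ hξ) j,
      fun ξ hξ => ?_, fun ξ _ ζ _ _ j hj hj' => absurd hj (not_le.2 (by rw [qn] at hj'; exact hj'))⟩,
      fun ξ _ j hj hj' => absurd hj (not_le.2 (by rw [qn] at hj'; exact hj'))⟩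
    rw [qk1 ξ (ht ξ hξ) hξ]
    exact le_max_left _ _
  refine ⟨q, ⟨⟨?_, ?_, ?_, ?_, ?_⟩, ?_⟩, hqt, qn, qF, qt1, qt2, qk2⟩
  · intro ξ hξ
    rw [qF]
    by_cases hξα : ξ < α
    · exact Or.inl (hFt ξ hξ hξα)
    · exact Or.inr ⟨hξ, not_lt.1 hξα⟩
  · rw [qn]; exact hpt
  · intro ξ hξ j hj
    by_cases hξα : ξ < α
    · rw [qt1 ξ hξα, h.1.t ξ (mem_res_F.2 ⟨hξ, hξα⟩) j hj, res_t_lt hξα]
    · exact qt3 ξ hξ (not_lt.1 hξα) j hj (hj.trans_le hpt)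
  · intro ξ hξ
    by_cases hξα : ξ < α
    · rw [qk1 ξ hξα (hFt ξ hξ hξα)]
      exact le_max_of_le_right (Finset.le_sup (f := p.k) hξ)
    · rw [qk2 ξ (not_lt.1 hξα)]
  · intro ξ hξ ζ hζ hlt j hj hj'
    rw [qn] at hj'
    by_cases hζα : ζ < α
    · have hξα := hlt.trans hζα
      rw [qt1 ξ hξα, qt1 ζ hζα]
      have := h.1.link ξ (mem_res_F.2 ⟨hξ, hξα⟩) ζ (mem_res_F.2 ⟨hζ, hζα⟩) hlt j hj hj'
      rw [res_k_lt hζα] at this
      exact this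
    · have hζα := not_lt.1 hζα
      rw [qt2 ζ hζ hζα j hj hj']
      have := hc ζ hζ hζα j hj hj' ξ hξ hlt
      by_cases hξα : ξ < α
      · rw [if_pos hξα] at this
        rw [qt1 ξ hξα]
        exact this
      · rw [if_neg hξα] at this
        rw [qt2 ξ hξ (not_lt.1 hξα) j hj hj']
        exact this
  · intro ξ hξ j hj hj' hnone
    rw [qn] at hj'
    by_cases hξα : ξ < α
    · rw [qt1 ξ hξα] at hnone
      exact Blk_mono e ξ j q t hqt (h.2 ξ (mem_res_F.2 ⟨hξ, hξα⟩) j hj hj' hnone)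
    · rw [qt2 ξ hξ (not_lt.1 hξα) j hj hj'] at hnone
      obtain ⟨h1, h2⟩ := hb ξ hξ (not_lt.1 hξα) j hj hj' hnone
      rw [h1]
      exact Blk_mono e α j q t hqt h2

end Pool.Agent.H5Z
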