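import Pool.Agent.Lib.H5Z.BOrd
import Pool.Agent.Lib.H5Z.BGlueA

/-! Chunk BGlueB. -/

set_option autoImplicit false

open Set Function

namespace Pool.Agent.H5Z

variable {ι : Type} [LinearOrder ι] [WellFoundedLT ι] (e : ι → Raw ι)

/-- A column that satisfies all links: if `t` extends `res α p` and `p.n ≤ j < t.n` then there is
a number `v` that is linked from all entries `t.t ξ j`, `ξ ∈ p.F`, `ξ < α`, at all levels
`p.k ζ`, `ζ ∈ p.F`, `α ≤ ζ` (take the entry at the largest `ξ ∈ p.F` below `α`, or `0`). -/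
theorem exists_column (p t : Cond ι) (α : ι) (h : LE e t (res α p)) (j : ℕ) (hj : p.n ≤ j)
    (hj' : j < t.n) :
    ∃ v, ∀ ζ ∈ p.F, α ≤ ζ → ∀ ξ ∈ p.F, ξ < α → Link (t.t ξ j) (some v) (p.k ζ) := by
  by_cases hne : (res α p).F.Nonempty
  · set ξ0 := (res α p).F.max' hne with hξ0
    have hmem : ξ0 ∈ (res α p).F := Finset.max'_mem _ hne
    have hlt : ξ0 < α := below_res α p _ hmem
    refine ⟨(t.t ξ0 j).getD 0, fun ζ hζ hαζ ξ hξ hξα x hx => ?_⟩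
    have hm : ξ ∈ (res α p).F := mem_res_F.2 ⟨hξ, hξα⟩
    rcases (Finset.le_max' _ ξ hm).lt_or_eq with h1 | h1
    · obtain ⟨w, hw, hw2⟩ := h.1.link ξ hm ξ0 hmem h1 j hj hj' x hx
      refine ⟨w, by rw [hw]; rfl, ?_⟩
      rw [res_k_lt hlt] at hw2
      have := p.anti ξ0 (mem_res_F.1 hmem).1 ζ hζ (hlt.le.trans hαζ)
      omega
    · refine ⟨x, ?_, rfl⟩
      have h2 : ξ0 = ξ := h1.symm
      rw [h2, hx]
      rfl
  · exact ⟨0, fun ζ _ _ ξ hξ hξα => absurd ⟨ξ, mem_res_F.2 ⟨hξ, hξα⟩⟩ hne⟩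

/-- Amalgamation. -/
theorem amalg (p t : Cond ι) (α : ι) (ht : Below α t) (h : LE e t (res α p)) :
    ∃ q, LE e q p ∧ LE e q t ∧ q.n = t.n ∧ (∀ ξ, ξ ∈ q.F ↔ ξ ∈ t.F ∨ (ξ ∈ p.F ∧ α ≤ ξ)) ∧
      ∀ ζ, α ≤ ζ → q.k ζ = p.k ζ := by
  have hcol : ∀ j, ∃ v, p.n ≤ j → j < t.n → ∀ ζ ∈ p.F, α ≤ ζ → ∀ ξ ∈ p.F, ξ < α →
      Link (t.t ξ j) (some v) (p.k ζ) := by
    intro j
    by_cases h1 : p.n ≤ j ∧ j < t.n
    · obtain ⟨v, hv⟩ := exists_column e p t α h j h1.1 h1.2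
      exact ⟨v, fun _ _ => hv⟩
    · exact ⟨0, fun h2 h3 => absurd ⟨h2, h3⟩ h1⟩
  choose v hv using hcol
  obtain ⟨q, hqp, hqt, hqn, hqF, _, _, hq3⟩ := glue e p t α ht h (fun _ j => some (v j)) (by
    intro ζ hζ hαζ j h1 h2 ξ hξ _
    by_cases hξα : ξ < α
    · rw [if_pos hξα]
      exact hv j h1 h2 ζ hζ hαζ ξ hξ hξα
    · rw [if_neg hξα]
      exact Link.refl _ _) (by
    intro ζ _ _ j _ _ h3
    exact absurd h3 (by simp))
  exact ⟨q, hqp, hqt, hqn, hqF, hq3⟩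

end Pool.Agent.H5Z
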