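import Pool.Agent.Lib.H5Z.BGlueA
import Pool.Agent.Lib.H5Z.BGlueB

/-! Chunk BGlue: gluing an extension of the restriction to a condition. -/
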