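import Pool.Agent.Lib.H5Z.BExt
import Pool.Agent.Lib.H5Z.BGlue

/-! Chunk BCoinf: the domains are coinfinite. -/

set_option autoImplicit false

open Set Function

namespace Pool.Agent.H5Z

variable {ι : Type} [LinearOrder ι] [WellFoundedLT ι] (e : ι → Raw ι)

theorem BCoinf_none {a : Option ℕ} {k : ℕ} (h : Link a none k) : a = none := by
  cases a with
  | none => rfl
  | some v =>
    obtain ⟨w, hw, _⟩ := h v rfl
    exact absurd hw (by simp)

/-- The first step: an extension `t` of the restriction with the required entries, and blocking. -/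
theorem BCoinf_step (ρ : ι) (ih : ∀ ξ < ρ, ∀ (p : Cond ι), ξ ∈ p.F → ∀ N : ℕ,
    ∃ q, LE e q p ∧ (∀ ζ ∈ q.F, ζ ∈ p.F ∨ ζ < ξ) ∧ ∃ j, N ≤ j ∧ p.n ≤ j ∧ j < q.n ∧
      q.t ξ j = none) (p : Cond ι) (N : ℕ) :
    ∃ t j, Below ρ t ∧ LE e t (res ρ p) ∧ N ≤ j ∧ p.n ≤ j ∧ j < t.n ∧
      (∀ ξ ∈ p.F, ξ < ρ → t.t ξ j = none) ∧ Blk e ρ j t := by
  by_cases h1 : ∃ d, Below ρ d ∧ LE e d (res ρ p) ∧ Good e ρ (e ρ) d
  · obtain ⟨d, hd, hdp, hg⟩ := h1
    obtain ⟨r', h1, h2, j, h3, h4, h5, h6⟩ := hg (res ρ p).F (below_res ρ p) (max N p.n) d hd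
      (LE_refl e d)
    refine ⟨r', j, h1, LE_trans e h2 hdp, (le_max_left _ _).trans h3, (le_max_right _ _).trans h3,
      h4, fun ξ hξ hξρ => (h5 ξ (mem_res_F.2 ⟨hξ, hξρ⟩)).2, ?_⟩
    rw [Blk_iff]
    intro d' hd' hh _
    rintro ⟨s, hs, hs1, hs2⟩
    rw [res_of_below h1] at hs1
    exact h6 s hs hs1 (Hit_mono e hs2 hh)
  · have hblk : ∀ t, Below ρ t → LE e t (res ρ p) → ∀ j, Blk e ρ j t := by
      intro t ht htp j
      rw [Blk_iff]
      intro d' hd' _ hg
      rintro ⟨s, hs, hs1, hs2⟩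
      rw [res_of_below ht] at hs1
      exact h1 ⟨s, hs, LE_trans e hs1 htp, Good_mono e hs2 hg⟩
    by_cases hne : (res ρ p).F.Nonempty
    · set ξ0 := (res ρ p).F.max' hne with hξ0
      have hmem : ξ0 ∈ (res ρ p).F := Finset.max'_mem _ hne
      have hlt : ξ0 < ρ := below_res ρ p _ hmem
      obtain ⟨q, hq, hqF, j, h3, h4, h5, h6⟩ := ih ξ0 hlt (res ρ p) hmem N
      have hbq : Below ρ q := by
        intro ξ hξ
        rcases hqF ξ hξ with h | h
        · exact below_res ρ p _ h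
        · exact h.trans hlt
      refine ⟨q, j, hbq, hq, h3, h4, h5, fun ξ hξ hξρ => ?_, hblk q hbq hq j⟩
      have hm : ξ ∈ (res ρ p).F := mem_res_F.2 ⟨hξ, hξρ⟩
      rcases (Finset.le_max' _ ξ hm).lt_or_eq with h | h
      · have := hq.1.link ξ hm ξ0 hmem h j h4 h5
        rw [h6] at this
        exact BCoinf_none this
      · rw [h]
        exact h6
    · obtain ⟨q, hq, hqF, hqn, _⟩ := ext_n e (res ρ p) (max N p.n + 1)
      have hbq : Below ρ q := by
        intro ξ hξ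
        rw [hqF] at hξ
        exact below_res ρ p _ hξ
      refine ⟨q, max N p.n, hbq, hq, le_max_left _ _, le_max_right _ _, ?_, fun ξ hξ hξρ => ?_,
        hblk q hbq hq _⟩
      · rw [hqn]
        exact lt_max_of_lt_left (Nat.lt_succ_self _)
      · exact absurd ⟨ξ, mem_res_F.2 ⟨hξ, hξρ⟩⟩ hne

/-- By induction on `ρ`. Let `p' = res ρ p`. If some `d ≤ p'` below `ρ` is good, use goodness with
`G = p'.F`; otherwise use the induction hypothesis at the largest element of `p'.F` (the links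
give the other elements), or `ext_n` if `p'.F` is empty. In both cases `Blk e ρ j r'` holds for
the `r' ≤ p'` obtained, and one glues with the column `none` at `ρ` and `some 0` above. -/
theorem exists_none (ρ : ι) : ∀ (p : Cond ι), ρ ∈ p.F → ∀ N : ℕ,
    ∃ q, LE e q p ∧ (∀ ξ ∈ q.F, ξ ∈ p.F ∨ ξ < ρ) ∧ ∃ j, N ≤ j ∧ p.n ≤ j ∧ j < q.n ∧
      q.t ρ j = none := by
  induction ρ using WellFoundedLT.induction with
  | ind ρ ih =>
    intro p hρ N
    obtain ⟨t, j, ht, htp, hN, hn, hj, hnone, hblk⟩ := BCoinf_step e ρ ih p N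
    have hcol : ∀ j', ∃ v, p.n ≤ j' → j' < t.n → ∀ ζ ∈ p.F, ρ ≤ ζ → ∀ ξ ∈ p.F, ξ < ρ →
        Link (t.t ξ j') (some v) (p.k ζ) := by
      intro j'
      by_cases h : p.n ≤ j' ∧ j' < t.n
      · obtain ⟨v, hv⟩ := exists_column e p t ρ htp j' h.1 h.2
        exact ⟨v, fun _ _ => hv⟩
      · exact ⟨0, fun h1 h2 => absurd ⟨h1, h2⟩ h⟩
    choose v hv using hcol
    let c : ι → ℕ → Option ℕ := fun ζ j' =>
      if j' = j then (if ζ = ρ then none else some 0) else some (v j')
    obtain ⟨q, hqp, hqt, hqn, hqF, hq1, hq2, hq3⟩ := glue e p t ρ ht htp c (by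
      intro ζ hζ hρζ j' h1 h2 ξ hξ hlt
      by_cases hjj : j' = j
      · have hζ' : ρ ≤ ξ → c ζ j' = some 0 := by
          intro hρξ
          have : ζ ≠ ρ := fun h => absurd hlt (not_lt.2 (h ▸ hρξ))
          simp [c, hjj, this]
        by_cases hξρ : ξ < ρ
        · rw [if_pos hξρ, hjj, hnone ξ hξ hξρ]
          intro w hw
          exact absurd hw (by simp)
        · rw [if_neg hξρ, hζ' (not_lt.1 hξρ)]
          by_cases h3 : ξ = ρ
          · have : c ξ j' = none := by simp [c, hjj, h3]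
            rw [this]
            intro w hw
            exact absurd hw (by simp)
          · have : c ξ j' = some 0 := by simp [c, hjj, h3]
            rw [this]
            exact Link.refl _ _
      · have h3 : ∀ ζ, c ζ j' = some (v j') := fun ζ => by simp [c, hjj]
        rw [h3 ζ]
        by_cases hξρ : ξ < ρ
        · rw [if_pos hξρ]
          exact hv j' h1 h2 ζ hζ hρζ ξ hξ hξρ
        · rw [if_neg hξρ, h3 ξ]
          exact Link.refl _ _) (by
      intro ζ hζ hρζ j' h1 h2 h3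
      by_cases hjj : j' = j
      · by_cases h4 : ζ = ρ
        · exact ⟨h4, hjj ▸ hblk⟩
        · simp [c, hjj, h4] at h3
      · simp [c, hjj] at h3)
    refine ⟨q, hqp, fun ξ hξ => ?_, j, hN, hn, by rw [hqn]; exact hj, ?_⟩
    · rcases (hqF ξ).1 hξ with h | h
      · exact Or.inr (ht ξ h)
      · exact Or.inl h.1
    · rw [hq2 ρ hρ le_rfl j hn hj]
      simp [c]

end Pool.Agent.H5Z
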