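import Pool.Agent.Lib.H5Z.BNames
import Pool.Agent.Lib.H5Z.BCoinf

/-! Chunk BClCoinf: the clause `coinf`. -/

set_option autoImplicit false

open Set Function

namespace Pool.Agent.H5Z

variable {ι : Type} [LinearOrder ι] [WellFoundedLT ι] (e : ι → Raw ι)

theorem cl_coinf (i : ι) : AAb (fun j => dmB (sR e i) j) = ⊥ := by
  rw [RO.eq_bot_iff']
  intro p hp
  rw [mem_AAb] at hp
  obtain ⟨r, hr, n, hn⟩ := hp p le_rfl
  obtain ⟨r1, h1, h2, _, _⟩ := ext_coord e r {i}
  have hi : i ∈ r1.F := by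
    rw [h2]
    exact Finset.mem_union_right _ (by simp)
  obtain ⟨q, hq, _, j, h3, h4, h5, h6⟩ := exists_none e i r1 hi n
  have h7 : (show PP e from q) ≤ r := LE_trans e hq h1
  have h8 := (dmB (sR e i) j).lower (hn j h3) h7
  have h9 : i ∈ q.F := hq.1.F hi
  exact (mem_dm e q i j h9 h5).1 h8 h6

end Pool.Agent.H5Z
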