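import Pool.Agent.Lib.H5Z.BNames

/-! Chunk BClausesB. -/

set_option autoImplicit false

open Set Function

namespace Pool.Agent.H5Z

variable {ι : Type} [LinearOrder ι] [WellFoundedLT ι] (e : ι → Raw ι)

theorem BClausesB_dm {i i' : ι} (h : i < i') (r : PP e) (hi : i ∈ Cond.F r) (hi' : i' ∈ Cond.F r)
    (j : ℕ) (hj : Cond.n r ≤ j) (q : PP e) (hq : q ≤ r) (hm : q ∈ (dmB (sR e i) j).s) :
    q ∈ (dmB (sR e i') j).s := by
  refine (dmB (sR e i') j).mem_of_dense fun s hs => ?_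
  obtain ⟨s2, hs2, hi2, hj2⟩ := exists_det e s i j
  have h1 : s2 ∈ (dmB (sR e i) j).s := (dmB (sR e i) j).lower hm (hs2.trans hs)
  have h2 : s2 ≤ r := (hs2.trans hs).trans hq
  rw [mem_dm e s2 i j hi2 hj2] at h1
  obtain ⟨v, hv⟩ := Option.ne_none_iff_exists'.1 h1
  have h3 := h2.1.link i hi i' hi' h j hj hj2
  obtain ⟨w, hw, _⟩ := h3 v hv
  refine ⟨s2, hs2, ?_⟩
  rw [mem_dm e s2 i' j (h2.1.F hi') hj2, hw]
  simp

theorem BClausesB_aux {i i' : ι} (h : i ≤ i') :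
    AAb (fun j => (dmB (sR e i) j ⊔ dmB (sR e i') j) ⇨ dmB (sR e i') j) = ⊤ := by
  rw [RO.eq_top_iff']
  intro p
  rw [mem_AAb]
  intro q hq
  obtain ⟨r, h1, h2, _, _⟩ := ext_coord e q {i, i'}
  have hi : i ∈ Cond.F r := by
    change i ∈ r.F
    rw [h2]
    exact Finset.mem_union_right _ (by simp)
  have hi' : i' ∈ Cond.F r := by
    change i' ∈ r.F
    rw [h2]
    exact Finset.mem_union_right _ (by simp)
  refine ⟨r, h1, Cond.n r, fun j hj => ?_⟩
  refine (RO.mem_himp (P := PP e) _ _ _).2 ?_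
  intro s hs hm
  refine (dmB (sR e i') j).mem_of_dense fun s1 hs1 => ?_
  obtain ⟨s2, hs2, h3⟩ := (RO.mem_sup _ _ _).1 hm s1 hs1
  refine ⟨s2, hs2, ?_⟩
  rcases h3 with h3 | h3
  · rcases h.lt_or_eq with h4 | h4
    · exact BClausesB_dm e h4 r hi hi' j hj s2 ((hs2.trans hs1).trans hs) h3
    · rw [h4] at h3
      exact h3
  · exact h3

theorem cl_dir (i i' : ι) : ∃ i'', AAb (fun j => (dmB (sR e i) j ⊔ dmB (sR e i') j) ⇨
    dmB (sR e i'') j) = ⊤ := by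
  rcases le_total i i' with h | h
  · exact ⟨i', BClausesB_aux e h⟩
  · refine ⟨i, ?_⟩
    have h1 := BClausesB_aux e h
    simp only [sup_comm (dmB (sR e i) _) (dmB (sR e i') _)]
    exact h1

end Pool.Agent.H5Z
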