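import Pool.Agent.Lib.H5Z.BNames

/-! Chunk BClausesC. -/

set_option autoImplicit false

open Set Function

namespace Pool.Agent.H5Z

variable {ι : Type} [LinearOrder ι] [WellFoundedLT ι] (e : ι → Raw ι)

theorem BClausesC_main {i i' : ι} (h : i < i') (r : PP e) (hi : i ∈ Cond.F r)
    (hi' : i' ∈ Cond.F r) (k : ℕ) (hk : k + 1 ≤ Cond.k r i') (j : ℕ) (hj : Cond.n r ≤ j)
    (q : PP e) (hq : q ≤ r) (hm : q ∈ (dmB (sR e i) j).s) :
    q ∈ (sR e i j k).s ↔ q ∈ (sR e i' j k).s := by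
  constructor
  · intro hs
    refine (sR e i' j k).mem_of_dense fun s hsq => ?_
    obtain ⟨s2, hs2, hi2, hj2⟩ := exists_det e s i j
    have h1 : s2 ∈ (sR e i j k).s := (sR e i j k).lower hs (hs2.trans hsq)
    have h2 : s2 ≤ r := (hs2.trans hsq).trans hq
    rw [mem_sR e s2 i j k hi2 hj2] at h1
    obtain ⟨w, hw, hw2⟩ := h2.1.link i hi i' hi' h j hj hj2 k h1
    change min k (Cond.k r i') = min w (Cond.k r i') at hw2
    have h3 : w = k := by omega
    refine ⟨s2, hs2, ?_⟩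
    rw [mem_sR e s2 i' j k (h2.1.F hi') hj2, ← h3]
    exact hw
  · intro hs
    refine (sR e i j k).mem_of_dense fun s hsq => ?_
    obtain ⟨s2, hs2, hi2, hj2⟩ := exists_det e s i j
    have h1 : s2 ∈ (sR e i' j k).s := (sR e i' j k).lower hs (hs2.trans hsq)
    have h0 : s2 ∈ (dmB (sR e i) j).s := (dmB (sR e i) j).lower hm (hs2.trans hsq)
    have h2 : s2 ≤ r := (hs2.trans hsq).trans hq
    rw [mem_sR e s2 i' j k (h2.1.F hi') hj2] at h1
    rw [mem_dm e s2 i j hi2 hj2] at h0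
    obtain ⟨v, hv⟩ := Option.ne_none_iff_exists'.1 h0
    obtain ⟨w, hw, hw2⟩ := h2.1.link i hi i' hi' h j hj hj2 v hv
    change min v (Cond.k r i') = min w (Cond.k r i') at hw2
    change Cond.t s2 i' j = some w at hw
    rw [h1] at hw
    have h4 := Option.some.inj hw
    have h3 : v = k := by omega
    refine ⟨s2, hs2, ?_⟩
    rw [mem_sR e s2 i j k hi2 hj2, hv, h3]

theorem cl_coh (i i' : ι) (k : ℕ) : AAb (fun j => dmB (sR e i) j ⇨ (dmB (sR e i') j ⇨
    iffB (sR e i j k) (sR e i' j k))) = ⊤ := by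
  rw [RO.eq_top_iff']
  intro p
  rw [mem_AAb]
  intro q hq
  obtain ⟨r0, h1, h2, _, _⟩ := ext_coord e q {i, i'}
  obtain ⟨r, h3, h4, _, _, h5⟩ := ext_k e r0 (k + 1)
  have hi : i ∈ Cond.F r := by
    change i ∈ r.F
    rw [h4, h2]
    exact Finset.mem_union_right _ (by simp)
  have hi' : i' ∈ Cond.F r := by
    change i' ∈ r.F
    rw [h4, h2]
    exact Finset.mem_union_right _ (by simp)
  refine ⟨r, LE_trans e h3 h1, Cond.n r, fun j hj => ?_⟩
  refine (RO.mem_himp (P := PP e) _ _ _).2 ?_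
  intro s hs hm
  refine (RO.mem_himp (P := PP e) _ _ _).2 ?_
  intro s' hs' hm'
  rw [mem_iffB]
  intro x hx
  have hx' : x ≤ r := (hx.trans hs').trans hs
  rcases lt_trichotomy i i' with h | h | h
  · exact BClausesC_main e h r hi hi' k (h5 _ hi') j hj x hx'
      ((dmB (sR e i) j).lower hm (hx.trans hs'))
  · rw [h]
  · exact (BClausesC_main e h r hi' hi k (h5 _ hi) j hj x hx'
      ((dmB (sR e i') j).lower hm' hx)).symm

end Pool.Agent.H5Z
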