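import Pool.Agent.Lib.H5Z.BClausesA
import Pool.Agent.Lib.H5Z.BClausesB
import Pool.Agent.Lib.H5Z.BClausesC

/-! Chunk BClauses: the clauses `func`, `dir`, `coh`. -/
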