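import Pool.Agent.Lib.H5Z.BNames

/-! Chunk BClausesA. -/

set_option autoImplicit false

open Set Function

namespace Pool.Agent.H5Z

variable {ι : Type} [LinearOrder ι] [WellFoundedLT ι] (e : ι → Raw ι)

theorem cl_func (i : ι) (j k k' : ℕ) (h : k ≠ k') : sR e i j k ⊓ sR e i j k' = ⊥ := by
  rw [RO.eq_bot_iff']
  intro p hp
  obtain ⟨q, hq, hi, hj⟩ := exists_det e p i j
  have h1 : q ∈ (sR e i j k).s := (sR e i j k).lower hp.1 hq
  have h2 : q ∈ (sR e i j k').s := (sR e i j k').lower hp.2 hq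
  rw [mem_sR e q i j _ hi hj] at h1 h2
  rw [h1] at h2
  exact h (Option.some.inj h2)

end Pool.Agent.H5Z
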