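import Mathlib

/-!
# The Boolean-valued gap property
-/

set_option autoImplicit false

open Set Function

namespace Pool.Agent.H5Z

variable {B : Type} [CompleteBooleanAlgebra B]

/-- Boolean value of `f j` holding for almost all `j`. -/
def AAb (f : ℕ → B) : B := ⨆ n : ℕ, ⨅ j : ℕ, ⨅ _ : n ≤ j, f j

/-- Boolean value of `j ∈ dom s`, `s j k` being the value of `s(j) = k`. -/
def dmB (s : ℕ → ℕ → B) (j : ℕ) : B := ⨆ k : ℕ, s j k

/-- equivalence of two Boolean values -/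
def iffB (a b : B) : B := (a ⇨ b) ⊓ (b ⇨ a)

/-- The Boolean-valued gap property of the family `s`. -/
structure IsBGap (ι : Type) (s : ι → ℕ → ℕ → B) : Prop where
  func : ∀ i j k k', k ≠ k' → s i j k ⊓ s i j k' = ⊥
  dir : ∀ i i', ∃ i'', AAb (fun j => (dmB (s i) j ⊔ dmB (s i') j) ⇨ dmB (s i'') j) = ⊤
  coinf : ∀ i, AAb (fun j => dmB (s i) j) = ⊥
  ult : ∀ y : ℕ → B, (⨆ i, AAb (fun j => y j ⇨ dmB (s i) j) ⊔
    AAb (fun j => (y j)ᶜ ⇨ dmB (s i) j)) = ⊤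
  coh : ∀ i i' k, AAb (fun j => dmB (s i) j ⇨ (dmB (s i') j ⇨ iffB (s i j k) (s i' j k))) = ⊤
  noD : ∀ d : ι → ℕ → B,
    (⨅ i, ⨅ i', AAb (fun j => dmB (s i) j ⇨ (dmB (s i') j ⇨ iffB (d i j) (d i' j)))) ⊓
      (⨅ i, ⨅ k : ℕ, AAb (fun j => s i j k ⇨ iffB (d i j) (if Even k then ⊤ else ⊥))) = ⊥

end Pool.Agent.H5Z
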