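import Pool.Agent.Lib.H5Z.BRO
import Pool.Agent.Lib.H5Z.BGap

/-!
# Conditions and the order of the iteration

`ι` is a well-ordered set (the length of the iteration). A condition consists of a finite set `F` of
coordinates, a length `n`, for each coordinate `ξ ∈ F` a finite partial function `t ξ` defined on
a subset of `{0, ..., n - 1}` (`t ξ j = some v` means that `j` is in the domain of the
generic partial function with index `ξ` and that its value is `v`; `none` means that `j` is not in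
the domain), and a promise number `k ξ` (nonincreasing in `ξ`).
-/

set_option autoImplicit false

open Set Function

namespace Pool.Agent.H5Z

/-- Conditions. -/
@[ext]
structure Cond (ι : Type) [LinearOrder ι] where
  F : Finset ι
  n : ℕ
  t : ι → ℕ → Option ℕ
  k : ι → ℕ
  t_out : ∀ ξ j, t ξ j ≠ none → ξ ∈ F ∧ j < n
  k_out : ∀ ξ, k ξ ≠ 0 → ξ ∈ F
  anti : ∀ ξ ∈ F, ∀ ζ ∈ F, ξ ≤ ζ → k ζ ≤ k ξ

/-- If the first entry is `some v` then the second is `some w` with `min v k = min w k`. -/
def Link (a b : Option ℕ) (k : ℕ) : Prop := ∀ v, a = some v → ∃ w, b = some w ∧ min v k = min w k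

variable {ι : Type} [LinearOrder ι]

/-- The finitary part of the order. -/
structure FinLE (q p : Cond ι) : Prop where
  F : p.F ⊆ q.F
  n : p.n ≤ q.n
  t : ∀ ξ ∈ p.F, ∀ j < p.n, q.t ξ j = p.t ξ j
  k : ∀ ξ ∈ p.F, p.k ξ ≤ q.k ξ
  link : ∀ ξ ∈ p.F, ∀ ζ ∈ p.F, ξ < ζ → ∀ j, p.n ≤ j → j < q.n →
    Link (q.t ξ j) (q.t ζ j) (p.k ζ)

/-- all coordinates are below `α` -/
def Below (α : ι) (p : Cond ι) : Prop := ∀ ξ ∈ p.F, ξ < α

/-- restriction to the coordinates below `α` -/
def res (α : ι) (p : Cond ι) : Cond ι where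
  F := p.F.filter (· < α)
  n := p.n
  t ξ j := if ξ < α then p.t ξ j else none
  k ξ := if ξ < α then p.k ξ else 0
  t_out ξ j h := by
    by_cases hξ : ξ < α
    · rw [if_pos hξ] at h
      have := p.t_out ξ j h
      exact ⟨by rw [Finset.mem_filter]; exact ⟨this.1, hξ⟩, this.2⟩
    · rw [if_neg hξ] at h
      exact absurd rfl h
  k_out ξ h := by
    by_cases hξ : ξ < α
    · rw [if_pos hξ] at h
      have := p.k_out ξ h
      rw [Finset.mem_filter]; exact ⟨this, hξ⟩
    · rw [if_neg hξ] at h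
      exact absurd rfl h
  anti ξ hξ ζ hζ h := by
    rw [Finset.mem_filter] at hξ hζ
    rw [if_pos hξ.2, if_pos hζ.2]
    exact p.anti ξ hξ.1 ζ hζ.1 h

/-- Raw names for subsets of `ℕ`: countably many conditions for each `j`; a condition in
the list for `j` forces `j` into the set. -/
abbrev Raw (ι : Type) [LinearOrder ι] : Type := ℕ → ℕ → Option (Cond ι)

section

variable (B : ι → ℕ → Cond ι → Prop)

/-- The order computed from a blocking predicate: `B ξ j q` allows `j` to be outside of the domain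
of the partial function with index `ξ`. -/
def LEw (q p : Cond ι) : Prop :=
  FinLE q p ∧ ∀ ξ ∈ p.F, ∀ j, p.n ≤ j → j < q.n → q.t ξ j = none → B ξ j q

/-- `r` forces `j` into the set named by `y` (directly). -/
def Hitw (ζ : ι) (y : Raw ι) (j : ℕ) (r : Cond ι) : Prop :=
  ∃ i a, y j i = some a ∧ Below ζ a ∧ LEw B r a

/-- `d` forces that the set named by `y`, together with finitely many of the earlier domains, is
coinfinite. -/
def Goodw (ζ : ι) (y : Raw ι) (d : Cond ι) : Prop :=
  ∀ G : Finset ι, (∀ ξ ∈ G, ξ < ζ) → ∀ n : ℕ, ∀ r, Below ζ r → LEw B r d →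
    ∃ r', Below ζ r' ∧ LEw B r' r ∧ ∃ j, n ≤ j ∧ j < r'.n ∧
      (∀ ξ ∈ G, ξ ∈ r'.F ∧ r'.t ξ j = none) ∧
      ∀ r'', Below ζ r'' → LEw B r'' r' → ¬ Hitw B ζ y j r''

/-- The restriction of `q` is incompatible with all good conditions that force `j` into
the set named by `y`. -/
def blkw (ζ : ι) (y : Raw ι) (j : ℕ) (q : Cond ι) : Prop :=
  ∀ d, Below ζ d → Hitw B ζ y j d → Goodw B ζ y d →
    ¬ ∃ r, Below ζ r ∧ LEw B r (res ζ q) ∧ LEw B r d

end

variable [WellFoundedLT ι]

/-- The blocking predicates of the iteration with bookkeeping `e`, by recursion. -/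
def Blk (e : ι → Raw ι) : ι → ℕ → Cond ι → Prop :=
  (wellFounded_lt : WellFounded ((· < ·) : ι → ι → Prop)).fix fun ζ prev =>
    blkw (fun ξ => if h : ξ < ζ then prev ξ h else fun _ _ => True) ζ (e ζ)

theorem Blk_eq (e : ι → Raw ι) (ζ : ι) :
    Blk e ζ = blkw (fun ξ => if ξ < ζ then Blk e ξ else fun _ _ => True) ζ (e ζ) := by
  have := (wellFounded_lt : WellFounded ((· < ·) : ι → ι → Prop)).fix_eq (C := fun _ => ℕ → Cond ι → Prop)
    (fun ζ prev => blkw (fun ξ => if h : ξ < ζ then prev ξ h else fun _ _ => True) ζ (e ζ)) ζ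
  unfold Blk
  rw [this]
  congr 1

/-- The order of the iteration. -/
def LE (e : ι → Raw ι) : Cond ι → Cond ι → Prop := LEw (Blk e)

/-- `r` forces `j` into the set named by `y` (directly). -/
def Hit (e : ι → Raw ι) (ζ : ι) (y : Raw ι) (j : ℕ) (r : Cond ι) : Prop := Hitw (Blk e) ζ y j r

/-- goodness -/
def Good (e : ι → Raw ι) (ζ : ι) (y : Raw ι) (d : Cond ι) : Prop := Goodw (Blk e) ζ y d

end Pool.Agent.H5Z
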