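import Pool.Agent.Lib.H5Z.BOrd

/-! Chunk BExtB. -/

set_option autoImplicit false

open Set Function

namespace Pool.Agent.H5Z

variable {ι : Type} [LinearOrder ι] [WellFoundedLT ι] (e : ι → Raw ι)

/-- the condition with new coordinates -/
def BExtB_cond (p : Cond ι) (G : Finset ι) : Cond ι where
  F := p.F ∪ G
  n := p.n
  t := p.t
  k ξ := if ξ ∈ p.F ∪ G then (p.F.filter (ξ ≤ ·)).sup p.k else 0
  t_out ξ j h := by
    have := p.t_out ξ j h
    exact ⟨Finset.mem_union_left _ this.1, this.2⟩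
  k_out ξ h := by
    by_contra hc
    rw [if_neg hc] at h
    exact h rfl
  anti ξ hξ ζ hζ h := by
    rw [if_pos hξ, if_pos hζ]
    apply Finset.sup_mono
    intro x hx
    rw [Finset.mem_filter] at hx ⊢
    exact ⟨hx.1, h.trans hx.2⟩

/-- Add coordinates (`t ξ j = none` for the new `ξ`; the new `k ξ` is the sup of `p.k ζ` over
`ζ ∈ p.F`, `ξ ≤ ζ`). -/
theorem ext_coord (p : Cond ι) (G : Finset ι) :
    ∃ q, LE e q p ∧ q.F = p.F ∪ G ∧ q.n = p.n ∧ q.t = p.t := by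
  refine ⟨BExtB_cond p G, ⟨⟨Finset.subset_union_left, le_rfl, fun _ _ _ _ => rfl, fun ξ hξ => ?_,
    fun _ _ _ _ _ j h h' => absurd h (not_le.2 h')⟩, fun _ _ j h h' => absurd h (not_le.2 h')⟩,
    rfl, rfl, rfl⟩
  have hk : (BExtB_cond p G).k ξ = (p.F.filter (ξ ≤ ·)).sup p.k :=
    if_pos (Finset.mem_union_left _ hξ)
  rw [hk]
  exact Finset.le_sup (f := p.k) (Finset.mem_filter.2 ⟨hξ, le_rfl⟩)

end Pool.Agent.H5Z
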