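import Pool.Agent.Lib.H5Z.BOrd

/-! Chunk BExtC. -/

set_option autoImplicit false

open Set Function

namespace Pool.Agent.H5Z

variable {ι : Type} [LinearOrder ι] [WellFoundedLT ι] (e : ι → Raw ι)

/-- the longer condition -/
def BExtC_cond (p : Cond ι) (N : ℕ) : Cond ι where
  F := p.F
  n := max N p.n
  t ξ j := if j < p.n then p.t ξ j else if ξ ∈ p.F ∧ j < max N p.n then some 0 else none
  k := p.k
  t_out ξ j h := by
    by_cases hj : j < p.n
    · rw [if_pos hj] at h
      have := p.t_out ξ j h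
      exact ⟨this.1, lt_max_of_lt_right this.2⟩
    · rw [if_neg hj] at h
      by_contra hc
      rw [if_neg hc] at h
      exact h rfl
  k_out := p.k_out
  anti := p.anti

/-- Make the condition longer; all `j` with `p.n ≤ j` are put in all domains with value `0`. -/
theorem ext_n (p : Cond ι) (N : ℕ) :
    ∃ q, LE e q p ∧ q.F = p.F ∧ q.n = max N p.n ∧ q.k = p.k := by
  have h1 : ∀ ξ ∈ p.F, ∀ j, p.n ≤ j → j < max N p.n → (BExtC_cond p N).t ξ j = some 0 := by
    intro ξ hξ j hj hj'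
    change (if j < p.n then p.t ξ j else if ξ ∈ p.F ∧ j < max N p.n then some 0 else none) = some 0
    rw [if_neg (not_lt.2 hj), if_pos ⟨hξ, hj'⟩]
  refine ⟨BExtC_cond p N, ⟨⟨Finset.Subset.refl _, le_max_right _ _, fun ξ hξ j hj => if_pos hj,
    fun ξ hξ => le_rfl, fun ξ hξ ζ hζ _ j hj hj' => ?_⟩, fun ξ hξ j hj hj' h => ?_⟩, rfl, rfl, rfl⟩
  · rw [h1 ξ hξ j hj hj', h1 ζ hζ j hj hj']
    exact Link.refl _ _
  · rw [h1 ξ hξ j hj hj'] at h
    exact absurd h (by simp)

end Pool.Agent.H5Z
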