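import Pool.Agent.Lib.H5Z.BOrd

/-! Chunk BExtD. -/

set_option autoImplicit false

open Set Function

namespace Pool.Agent.H5Z

variable {ι : Type} [LinearOrder ι] [WellFoundedLT ι] (e : ι → Raw ι)

/-- the join -/
def BExtD_cond (p q : Cond ι) (hn : p.n = q.n) (K : ℕ) : Cond ι where
  F := p.F ∪ q.F
  n := p.n
  t ξ j := if ξ ∈ p.F then p.t ξ j else q.t ξ j
  k ξ := if ξ ∈ p.F ∪ q.F then max K (max (p.F.sup p.k) (q.F.sup q.k)) else 0
  t_out ξ j h := by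
    by_cases hξ : ξ ∈ p.F
    · rw [if_pos hξ] at h
      exact ⟨Finset.mem_union_left _ hξ, (p.t_out ξ j h).2⟩
    · rw [if_neg hξ] at h
      have := q.t_out ξ j h
      exact ⟨Finset.mem_union_right _ this.1, hn ▸ this.2⟩
  k_out ξ h := by
    by_contra hc
    rw [if_neg hc] at h
    exact h rfl
  anti ξ hξ ζ hζ _ := by rw [if_pos hξ, if_pos hζ]

/-- Conditions of the same length with the same entries at common coordinates are compatible. -/
theorem join (p q : Cond ι) (hn : p.n = q.n)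
    (hs : ∀ ξ ∈ p.F, ξ ∈ q.F → ∀ j, p.t ξ j = q.t ξ j) (K : ℕ) :
    ∃ r, LE e r p ∧ LE e r q ∧ r.F = p.F ∪ q.F ∧ r.n = p.n ∧ ∀ ξ ∈ r.F, K ≤ r.k ξ := by
  have hk : ∀ ξ ∈ p.F ∪ q.F, (BExtD_cond p q hn K).k ξ =
      max K (max (p.F.sup p.k) (q.F.sup q.k)) := fun ξ hξ => if_pos hξ
  refine ⟨BExtD_cond p q hn K, ⟨⟨Finset.subset_union_left, le_rfl, fun ξ hξ _ _ => if_pos hξ,
    fun ξ hξ => ?_, fun _ _ _ _ _ j h h' => absurd h (not_le.2 h')⟩,
    fun _ _ j h h' => absurd h (not_le.2 h')⟩,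
    ⟨⟨Finset.subset_union_right, hn.ge, fun ξ hξ j _ => ?_,
    fun ξ hξ => ?_, fun _ _ _ _ _ j h h' => absurd h (not_le.2 (hn ▸ h'))⟩,
    fun _ _ j h h' => absurd h (not_le.2 (hn ▸ h'))⟩, rfl, rfl, fun ξ hξ => ?_⟩
  · rw [hk ξ (Finset.mem_union_left _ hξ)]
    exact le_max_of_le_right (le_max_of_le_left (Finset.le_sup (f := p.k) hξ))
  · change (if ξ ∈ p.F then p.t ξ j else q.t ξ j) = q.t ξ j
    by_cases h : ξ ∈ p.F
    · rw [if_pos h, hs ξ h hξ j]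
    · rw [if_neg h]
  · rw [hk ξ (Finset.mem_union_right _ hξ)]
    exact le_max_of_le_right (le_max_of_le_right (Finset.le_sup (f := q.k) hξ))
  · rw [hk ξ hξ]
    exact le_max_left _ _

end Pool.Agent.H5Z
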