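import Pool.Agent.Lib.H5Z.BExtA
import Pool.Agent.Lib.H5Z.BExtB
import Pool.Agent.Lib.H5Z.BExtC
import Pool.Agent.Lib.H5Z.BExtD

/-! Chunk BExt: simple extensions of conditions. -/
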