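import Pool.Agent.Lib.H5Z.BOrd

/-! Chunk BExtA. -/

set_option autoImplicit false

open Set Function

namespace Pool.Agent.H5Z

variable {ι : Type} [LinearOrder ι] [WellFoundedLT ι] (e : ι → Raw ι)

/-- the condition with raised promises -/
def BExtA_cond (p : Cond ι) (K : ℕ) : Cond ι where
  F := p.F
  n := p.n
  t := p.t
  k ξ := if ξ ∈ p.F then max K (p.F.sup p.k) else 0
  t_out := p.t_out
  k_out ξ h := by
    by_contra hc
    rw [if_neg hc] at h
    exact h rfl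
  anti ξ hξ ζ hζ _ := by rw [if_pos hξ, if_pos hζ]

/-- Raise the promises (all `k ξ` become `max K (sup of the old ones)`). -/
theorem ext_k (p : Cond ι) (K : ℕ) :
    ∃ q, LE e q p ∧ q.F = p.F ∧ q.n = p.n ∧ q.t = p.t ∧ ∀ ξ ∈ q.F, K ≤ q.k ξ := by
  have hk : ∀ ξ ∈ p.F, (BExtA_cond p K).k ξ = max K (p.F.sup p.k) := fun ξ hξ => if_pos hξ
  refine ⟨BExtA_cond p K, ⟨⟨Finset.Subset.refl _, le_rfl, fun _ _ _ _ => rfl, fun ξ hξ => ?_,
    fun _ _ _ _ _ j h h' => absurd h (not_le.2 h')⟩, fun _ _ j h h' => absurd h (not_le.2 h')⟩,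
    rfl, rfl, rfl, fun ξ hξ => ?_⟩
  · rw [hk ξ hξ]
    exact le_max_of_le_right (Finset.le_sup (f := p.k) hξ)
  · rw [hk ξ hξ]
    exact le_max_left _ _

end Pool.Agent.H5Z
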