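import Pool.Agent.Lib.H5Z.BOrd

/-! Chunk BGlueCore: gluing two conditions above a cut `δ`. -/

set_option autoImplicit false

open Set Function

namespace Pool.Agent.H5Z

variable {ι : Type} [LinearOrder ι] [WellFoundedLT ι] (e : ι → Raw ι)

/-- the large promise number -/
def BGlueCore_K (p q r0 : Cond ι) : ℕ :=
  max (r0.F.sup r0.k) (max (p.F.sup p.k) (q.F.sup q.k))

/-- the glued condition -/
def BGlueCore_cond (p q : Cond ι) (α : ι) (k : ℕ) (δ : ι) (r0 : Cond ι) (hr0 : Below δ r0)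
    (j0 : ℕ) (c : ℕ → ℕ) : Cond ι where
  F := r0.F ∪ (p.F ∪ q.F).filter (δ ≤ ·)
  n := r0.n
  t ξ j := if ξ < δ then r0.t ξ j else
    if (ξ ∈ p.F ∨ ξ ∈ q.F) ∧ j < r0.n then
      (if j < p.n then (if ξ ∈ p.F then p.t ξ j else q.t ξ j) else
        if j = j0 then (if ξ < α ∧ ξ ∈ q.F then some (k + 1) else some k) else some (c j))
    else none
  k ξ := if ξ ∈ r0.F ∪ (p.F ∪ q.F).filter (δ ≤ ·) then BGlueCore_K p q r0 else 0
  t_out ξ j h := by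
    rw [Finset.mem_union, Finset.mem_filter, Finset.mem_union]
    by_cases hξ : ξ < δ
    · rw [if_pos hξ] at h
      have := r0.t_out ξ j h
      exact ⟨Or.inl this.1, this.2⟩
    · rw [if_neg hξ] at h
      by_cases h2 : (ξ ∈ p.F ∨ ξ ∈ q.F) ∧ j < r0.n
      · exact ⟨Or.inr ⟨h2.1, not_lt.1 hξ⟩, h2.2⟩
      · rw [if_neg h2] at h
        exact absurd rfl h
  k_out ξ h := by
    by_cases h2 : ξ ∈ r0.F ∪ (p.F ∪ q.F).filter (δ ≤ ·)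
    · exact h2
    · rw [if_neg h2] at h
      exact absurd rfl h
  anti ξ hξ ζ hζ h := by
    rw [if_pos hξ, if_pos hζ]

/-- The conditions `p` and `q` have the same length, the same entries at common coordinates, and
no common coordinate in `[δ, α)`. The condition `r0` extends both restrictions to the
coordinates below `δ`, and at the number `j0` its entries at the coordinates of `p` and `q` are
`none`. The columns `c j` (`j ≠ j0`) satisfy all links. The result has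
`r.F = r0.F ∪ {ζ ∈ p.F ∪ q.F | δ ≤ ζ}`, `r.n = r0.n`, a constant and large `r.k`, and the new
entries at the coordinates `≥ δ` are `some (c j)` for `j ≠ j0`; for `j = j0` they are `some k` at
the coordinates of `p` and at all coordinates `≥ α`, and `some (k + 1)` at the coordinates
of `q` in `[δ, α)`. -/
theorem glue2_core (p q : Cond ι) (α : ι) (k : ℕ) (hn : p.n = q.n)
    (hs : ∀ ξ ∈ p.F, ξ ∈ q.F → ∀ j, p.t ξ j = q.t ξ j)
    (hkp : ∀ ζ, α ≤ ζ → p.k ζ ≤ k) (hkq : ∀ ζ, α ≤ ζ → q.k ζ ≤ k)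
    (δ : ι) (r0 : Cond ι) (hδ : δ ≤ α) (hr0 : Below δ r0) (h0p : LE e r0 (res δ p))
    (h0q : LE e r0 (res δ q)) (j0 : ℕ) (hj : p.n ≤ j0) (hj' : j0 < r0.n)
    (hnone : ∀ ξ, ξ < δ → (ξ ∈ p.F ∨ ξ ∈ q.F) → r0.t ξ j0 = none)
    (hdisj : ∀ ξ ∈ p.F, ξ ∈ q.F → ξ < α → ξ < δ)
    (c : ℕ → ℕ)
    (hcp : ∀ j, p.n ≤ j → j < r0.n → j ≠ j0 → ∀ ξ ∈ p.F, ξ < δ → ∀ ζ ∈ p.F, δ ≤ ζ →
      Link (r0.t ξ j) (some (c j)) (p.k ζ))
    (hcq : ∀ j, p.n ≤ j → j < r0.n → j ≠ j0 → ∀ ξ ∈ q.F, ξ < δ → ∀ ζ ∈ q.F, δ ≤ ζ →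
      Link (r0.t ξ j) (some (c j)) (q.k ζ)) :
    ∃ r, LE e r p ∧ LE e r q ∧ r.n = r0.n ∧
      (∀ ζ ∈ p.F, δ ≤ ζ → ζ < α → r.t ζ j0 = some k) ∧
      (∀ ζ ∈ q.F, δ ≤ ζ → ζ < α → r.t ζ j0 = some (k + 1)) ∧
      ∀ ζ, (ζ ∈ p.F ∨ ζ ∈ q.F) → α ≤ ζ → r.t ζ j0 = some k := by
  set r := BGlueCore_cond p q α k δ r0 hr0 j0 c with hr
  have rn : r.n = r0.n := rfl
  have rF : ∀ ξ, ξ ∈ r.F ↔ ξ ∈ r0.F ∨ ((ξ ∈ p.F ∨ ξ ∈ q.F) ∧ δ ≤ ξ) := fun ξ => by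
    rw [hr]; simp [BGlueCore_cond]
  have rt1 : ∀ ξ, ξ < δ → ∀ j, r.t ξ j = r0.t ξ j := fun ξ hξ j => by
    rw [hr]; simp [BGlueCore_cond, hξ]
  have hpn : p.n ≤ r0.n := h0p.1.n
  have rt2p : ∀ ξ ∈ p.F, δ ≤ ξ → ∀ j, j < p.n → r.t ξ j = p.t ξ j := by
    intro ξ hξ hδξ j hjp
    rw [hr]; simp [BGlueCore_cond, hξ, not_lt.2 hδξ, hjp, hjp.trans_le hpn]
  have rt2q : ∀ ξ ∈ q.F, δ ≤ ξ → ∀ j, j < p.n → r.t ξ j = q.t ξ j := by
    intro ξ hξ hδξ j hjp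
    by_cases hξp : ξ ∈ p.F
    · rw [rt2p ξ hξp hδξ j hjp]
      exact hs ξ hξp hξ j
    · rw [hr]; simp [BGlueCore_cond, hξ, hξp, not_lt.2 hδξ, hjp, hjp.trans_le hpn]
  have rt3 : ∀ ξ, (ξ ∈ p.F ∨ ξ ∈ q.F) → δ ≤ ξ → ∀ j, p.n ≤ j → j < r0.n → j ≠ j0 →
      r.t ξ j = some (c j) := by
    intro ξ hξ hδξ j h1 h2 h3
    rw [hr]; simp [BGlueCore_cond, hξ, not_lt.2 hδξ, not_lt.2 h1, h2, h3]
  have rt4 : ∀ ξ ∈ p.F, δ ≤ ξ → ξ < α → r.t ξ j0 = some k := by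
    intro ξ hξ hδξ hξα
    have h1 : ξ ∉ q.F := fun h => absurd (hdisj ξ hξ h hξα) (not_lt.2 hδξ)
    rw [hr]; simp [BGlueCore_cond, hξ, not_lt.2 hδξ, not_lt.2 hj, hj', h1]
  have rt5 : ∀ ξ ∈ q.F, δ ≤ ξ → ξ < α → r.t ξ j0 = some (k + 1) := by
    intro ξ hξ hδξ hξα
    rw [hr]; simp [BGlueCore_cond, hξ, not_lt.2 hδξ, not_lt.2 hj, hj', hξα]
  have rt6 : ∀ ξ, (ξ ∈ p.F ∨ ξ ∈ q.F) → α ≤ ξ → r.t ξ j0 = some k := by
    intro ξ hξ hαξ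
    rw [hr]; simp [BGlueCore_cond, hξ, not_lt.2 (hδ.trans hαξ), not_lt.2 hj, hj', not_lt.2 hαξ]
  have rk : ∀ ξ, ξ ∈ r.F → r.k ξ = BGlueCore_K p q r0 := by
    intro ξ hξ
    have : r.k ξ = if ξ ∈ r0.F ∪ (p.F ∪ q.F).filter (δ ≤ ·) then BGlueCore_K p q r0 else 0 := rfl
    rw [this]
    exact if_pos hξ
  have hrr0 : LE e r r0 := by
    refine ⟨⟨fun ξ hξ => (rF ξ).2 (Or.inl hξ), rn.ge, fun ξ hξ j _ => rt1 ξ (hr0 ξ hξ) j,
      fun ξ hξ => ?_, fun ξ _ ζ _ _ j h1 h2 => absurd h1 (not_le.2 (by rw [rn] at h2; exact h2))⟩,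
      fun ξ _ j h1 h2 => absurd h1 (not_le.2 (by rw [rn] at h2; exact h2))⟩
    rw [rk ξ ((rF ξ).2 (Or.inl hξ))]
    exact (Finset.le_sup (f := r0.k) hξ).trans (le_max_left _ _)
  -- general argument for one of the two conditions
  have key : ∀ x : Cond ι, x.n = p.n → (∀ ξ ∈ x.F, ξ ∈ p.F ∨ ξ ∈ q.F) →
      LE e r0 (res δ x) → (∀ ξ ∈ x.F, δ ≤ ξ → ∀ j, j < p.n → r.t ξ j = x.t ξ j) →
      (x.F.sup x.k ≤ BGlueCore_K p q r0) →
      (∀ j, p.n ≤ j → j < r0.n → j ≠ j0 → ∀ ξ ∈ x.F, ξ < δ → ∀ ζ ∈ x.F, δ ≤ ζ →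
        Link (r0.t ξ j) (some (c j)) (x.k ζ)) →
      (∀ ξ ∈ x.F, ∀ ζ ∈ x.F, δ ≤ ξ → ξ < ζ → Link (r.t ξ j0) (r.t ζ j0) (x.k ζ)) →
      LE e r x := by
    intro x hxn hxF h0x hst hK hcx hlk
    have hFr : ∀ ξ ∈ x.F, ξ ∈ r.F := by
      intro ξ hξ
      rw [rF]
      by_cases h : ξ < δ
      · exact Or.inl (h0x.1.F (mem_res_F.2 ⟨hξ, h⟩))
      · exact Or.inr ⟨hxF ξ hξ, not_lt.1 h⟩
    refine ⟨⟨fun ξ hξ => hFr ξ hξ, ?_, ?_, ?_, ?_⟩, ?_⟩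
    · rw [rn, hxn]; exact hpn
    · intro ξ hξ j hjx
      by_cases h : ξ < δ
      · rw [rt1 ξ h, h0x.1.t ξ (mem_res_F.2 ⟨hξ, h⟩) j hjx, res_t_lt h]
      · exact hst ξ hξ (not_lt.1 h) j (hxn ▸ hjx)
    · intro ξ hξ
      rw [rk ξ (hFr ξ hξ)]
      exact (Finset.le_sup (f := x.k) hξ).trans hK
    · intro ξ hξ ζ hζ hlt j h1 h2
      rw [rn] at h2
      rw [hxn] at h1
      by_cases hζδ : ζ < δ
      · have hξδ := hlt.trans hζδ
        rw [rt1 ξ hξδ, rt1 ζ hζδ]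
        have := h0x.1.link ξ (mem_res_F.2 ⟨hξ, hξδ⟩) ζ (mem_res_F.2 ⟨hζ, hζδ⟩) hlt j
          (by rw [res_n, hxn]; exact h1) h2
        rw [res_k_lt hζδ] at this
        exact this
      · have hδζ := not_lt.1 hζδ
        by_cases hξδ : ξ < δ
        · rw [rt1 ξ hξδ]
          by_cases hjj : j = j0
          · rw [hjj, hnone ξ hξδ (hxF ξ hξ)]
            intro v hv
            exact absurd hv (by simp)
          · rw [rt3 ζ (hxF ζ hζ) hδζ j h1 h2 hjj]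
            exact hcx j h1 h2 hjj ξ hξ hξδ ζ hζ hδζ
        · have hδξ := not_lt.1 hξδ
          by_cases hjj : j = j0
          · rw [hjj]
            exact hlk ξ hξ ζ hζ hδξ hlt
          · rw [rt3 ζ (hxF ζ hζ) hδζ j h1 h2 hjj, rt3 ξ (hxF ξ hξ) hδξ j h1 h2 hjj]
            exact Link.refl _ _
    · intro ξ hξ j h1 h2 h3
      rw [rn] at h2
      rw [hxn] at h1
      by_cases hξδ : ξ < δ
      · rw [rt1 ξ hξδ] at h3
        exact Blk_mono e ξ j r r0 hrr0 (h0x.2 ξ (mem_res_F.2 ⟨hξ, hξδ⟩) j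
          (by rw [res_n, hxn]; exact h1) h2 h3)
      · have hδξ := not_lt.1 hξδ
        exfalso
        by_cases hjj : j = j0
        · rw [hjj] at h3
          by_cases hξα : ξ < α
          · rcases hxF ξ hξ with h4 | h4
            · rw [rt4 ξ h4 hδξ hξα] at h3
              simp at h3
            · rw [rt5 ξ h4 hδξ hξα] at h3
              simp at h3
          · rw [rt6 ξ (hxF ξ hξ) (not_lt.1 hξα)] at h3
            simp at h3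
        · rw [rt3 ξ (hxF ξ hξ) hδξ j h1 h2 hjj] at h3
          simp at h3
  refine ⟨r, ?_, ?_, rn, rt4, rt5, rt6⟩
  · refine key p rfl (fun ξ hξ => Or.inl hξ) h0p rt2p
      (le_max_of_le_right (le_max_left _ _)) hcp ?_
    intro ξ hξ ζ hζ hδξ hlt
    have h1 : r.t ξ j0 = some k := by
      by_cases h : ξ < α
      · exact rt4 ξ hξ hδξ h
      · exact rt6 ξ (Or.inl hξ) (not_lt.1 h)
    have h2 : r.t ζ j0 = some k := by
      by_cases h : ζ < α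
      · exact rt4 ζ hζ (hδξ.trans hlt.le) h
      · exact rt6 ζ (Or.inl hζ) (not_lt.1 h)
    rw [h1, h2]
    exact Link.refl _ _
  · refine key q hn.symm (fun ξ hξ => Or.inr hξ) h0q rt2q
      (le_max_of_le_right (le_max_right _ _)) hcq ?_
    intro ξ hξ ζ hζ hδξ hlt
    by_cases hζα : ζ < α
    · rw [rt5 ξ hξ hδξ (hlt.trans hζα), rt5 ζ hζ (hδξ.trans hlt.le) hζα]
      exact Link.refl _ _
    · have hαζ := not_lt.1 hζα
      rw [rt6 ζ (Or.inr hζ) hαζ]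
      have hk := hkq ζ hαζ
      by_cases hξα : ξ < α
      · rw [rt5 ξ hξ hδξ hξα]
        intro v hv
        refine ⟨k, rfl, ?_⟩
        have : v = k + 1 := by simpa using hv.symm
        omega
      · rw [rt6 ξ (Or.inr hξ) (not_lt.1 hξα)]
        exact Link.refl _ _

end Pool.Agent.H5Z
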