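import Pool.Agent.Lib.H5Z.BCoinf
import Pool.Agent.Lib.H5Z.BGlueCore

/-! Chunk BGlue2: the main amalgamation. -/

set_option autoImplicit false

open Set Function

namespace Pool.Agent.H5Z

variable {ι : Type} [LinearOrder ι] [WellFoundedLT ι] (e : ι → Raw ι)

theorem BGlue2_none {a : Option ℕ} {k : ℕ} (h : Link a none k) : a = none := by
  cases a with
  | none => rfl
  | some v =>
    obtain ⟨w, hw, _⟩ := h v rfl
    exact absurd hw (by simp)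

/-- If there is a common coordinate below `α`, let `ρ` be the largest one, `δ` the least element
above `ρ` (so `ξ < δ ↔ ξ ≤ ρ`), `p0` the join of `res δ p` and `res δ q`; apply `exists_none` at
`ρ` to `p0` to get `r0` and `j0`, and take for `c j` the entry of `r0` at `(ρ, j)` (or `0`). If
there is none, take for `δ` the least element of `ι` and for `r0` the condition with `F = ∅` and
`n = p.n + 1`, `j0 = p.n`. Then apply `glue2_core`. -/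
theorem glue2 (p q : Cond ι) (α : ι) (k : ℕ) (hn : p.n = q.n)
    (hs : ∀ ξ ∈ p.F, ξ ∈ q.F → ∀ j, p.t ξ j = q.t ξ j)
    (hkp : ∀ ζ, α ≤ ζ → p.k ζ ≤ k) (hkq : ∀ ζ, α ≤ ζ → q.k ζ ≤ k) :
    ∃ (r : Cond ι) (j : ℕ), LE e r p ∧ LE e r q ∧ p.n ≤ j ∧ j < r.n ∧
      (∀ ζ ∈ p.F, ζ < α → (∀ ρ ∈ p.F, ρ ∈ q.F → ρ < α → ρ < ζ) → r.t ζ j = some k) ∧
      (∀ ζ ∈ q.F, ζ < α → (∀ ρ ∈ p.F, ρ ∈ q.F → ρ < α → ρ < ζ) → r.t ζ j = some (k + 1)) ∧
      ∀ ζ, (ζ ∈ p.F ∨ ζ ∈ q.F) → α ≤ ζ → r.t ζ j = some k := by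
  by_cases hne : (p.F.filter (fun ρ => ρ ∈ q.F ∧ ρ < α)).Nonempty
  · -- the largest common coordinate
    set ρ := (p.F.filter (fun ρ => ρ ∈ q.F ∧ ρ < α)).max' hne with hρ
    have hmem := Finset.max'_mem _ hne
    rw [← hρ, Finset.mem_filter] at hmem
    obtain ⟨hρp, hρq, hρα⟩ := hmem
    have hmax : ∀ ξ ∈ p.F, ξ ∈ q.F → ξ < α → ξ ≤ ρ := fun ξ h1 h2 h3 =>
      Finset.le_max' _ ξ (Finset.mem_filter.2 ⟨h1, h2, h3⟩)
    -- the least element above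
    obtain ⟨δ, hδ1, hδ2⟩ : ∃ δ, ρ < δ ∧ ∀ ξ, ρ < ξ → δ ≤ ξ := by
      have hS : ({x | ρ < x} : Set ι).Nonempty := ⟨α, hρα⟩
      exact ⟨wellFounded_lt.min {x | ρ < x} hS, wellFounded_lt.min_mem _ hS,
        fun ξ hξ => not_lt.1 (wellFounded_lt.not_lt_min {x | ρ < x} hξ)⟩
    have hδρ : ∀ ξ, ξ < δ ↔ ξ ≤ ρ := fun ξ =>
      ⟨fun h => not_lt.1 fun h2 => absurd h (not_lt.2 (hδ2 ξ h2)), fun h => h.trans_lt hδ1⟩
    have hδα : δ ≤ α := hδ2 α hρα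
    obtain ⟨p0, hp0p, hp0q, hp0F, hp0n, _⟩ := join e (res δ p) (res δ q) hn (by
      intro ξ h1 h2 j
      have h3 := (mem_res_F.1 h1)
      rw [res_t_lt h3.2, res_t_lt h3.2]
      exact hs ξ h3.1 (mem_res_F.1 h2).1 j) 0
    have hρ0 : ρ ∈ p0.F := by
      rw [hp0F]
      exact Finset.mem_union_left _ (mem_res_F.2 ⟨hρp, hδ1⟩)
    obtain ⟨r0, hr0, hr0F, j0, _, hj1, hj2, hj3⟩ := exists_none e ρ p0 hρ0 0
    have hp0b : Below δ p0 := by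
      intro ξ hξ
      rw [hp0F, Finset.mem_union] at hξ
      rcases hξ with h | h
      · exact below_res δ p ξ h
      · exact below_res δ q ξ h
    have hr0b : Below δ r0 := by
      intro ξ hξ
      rcases hr0F ξ hξ with h | h
      · exact hp0b ξ h
      · exact h.trans hδ1
    have hn0 : p0.n = p.n := hp0n
    have hlinkp := (LE_trans e hr0 hp0p)
    have hlinkq := (LE_trans e hr0 hp0q)
    have hnone : ∀ ξ, ξ < δ → (ξ ∈ p.F ∨ ξ ∈ q.F) → r0.t ξ j0 = none := by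
      intro ξ hξ hpq
      rcases ((hδρ ξ).1 hξ).lt_or_eq with h | h
      · rcases hpq with h1 | h1
        · have := hlinkp.1.link ξ (mem_res_F.2 ⟨h1, hξ⟩) ρ (mem_res_F.2 ⟨hρp, hδ1⟩) h j0
            (by rw [res_n]; exact hn0 ▸ hj1) hj2
          rw [hj3] at this
          exact BGlue2_none this
        · have := hlinkq.1.link ξ (mem_res_F.2 ⟨h1, hξ⟩) ρ (mem_res_F.2 ⟨hρq, hδ1⟩) h j0
            (by rw [res_n, ← hn]; exact hn0 ▸ hj1) hj2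
          rw [hj3] at this
          exact BGlue2_none this
      · rw [h]; exact hj3
    have hcol : ∀ x : Cond ι, x.n = p.n → LE e r0 (res δ x) → ρ ∈ x.F → ∀ j, p.n ≤ j →
        j < r0.n → ∀ ξ ∈ x.F, ξ < δ → ∀ ζ ∈ x.F, δ ≤ ζ →
        Link (r0.t ξ j) (some ((r0.t ρ j).getD 0)) (x.k ζ) := by
      intro x hxn hx hρx j h1 h2 ξ hξ hξδ ζ hζ hδζ y hy
      rcases ((hδρ ξ).1 hξδ).lt_or_eq with h | h
      · obtain ⟨w, hw, hw2⟩ := hx.1.link ξ (mem_res_F.2 ⟨hξ, hξδ⟩) ρ (mem_res_F.2 ⟨hρx, hδ1⟩) h j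
          (by rw [res_n, hxn]; exact h1) h2 y hy
        refine ⟨w, by rw [hw]; rfl, ?_⟩
        rw [res_k_lt hδ1] at hw2
        have := x.anti ρ hρx ζ hζ (hδ1.le.trans hδζ)
        omega
      · refine ⟨y, ?_, rfl⟩
        rw [← h, hy]
        rfl
    obtain ⟨r, hrp, hrq, hrn, h4, h5, h6⟩ := glue2_core e p q α k hn hs hkp hkq δ r0 hδα hr0b
      hlinkp hlinkq j0 (hn0 ▸ hj1) hj2 hnone
      (fun ξ h1 h2 h3 => (hδρ ξ).2 (hmax ξ h1 h2 h3)) (fun j => (r0.t ρ j).getD 0)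
      (fun j h1 h2 _ => hcol p rfl hlinkp hρp j h1 h2)
      (fun j h1 h2 _ => hcol q hn.symm hlinkq hρq j h1 h2)
    refine ⟨r, j0, hrp, hrq, hn0 ▸ hj1, by rw [hrn]; exact hj2, ?_, ?_, h6⟩
    · intro ζ hζ hζα hζr
      exact h4 ζ hζ (hδ2 ζ (hζr ρ hρp hρq hρα)) hζα
    · intro ζ hζ hζα hζr
      exact h5 ζ hζ (hδ2 ζ (hζr ρ hρp hρq hρα)) hζα
  · have hno : ∀ ξ ∈ p.F, ξ ∈ q.F → ¬ ξ < α := fun ξ h1 h2 h3 =>
      hne ⟨ξ, Finset.mem_filter.2 ⟨h1, h2, h3⟩⟩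
    obtain ⟨δ, hδ⟩ : ∃ δ : ι, ∀ ξ, δ ≤ ξ := by
      have hS : (univ : Set ι).Nonempty := ⟨α, trivial⟩
      exact ⟨wellFounded_lt.min univ hS, fun ξ => not_lt.1 (wellFounded_lt.not_lt_min univ trivial)⟩
    have hempty : ∀ x : Cond ι, ∀ ξ, ξ ∉ (res δ x).F := fun x ξ h =>
      absurd (mem_res_F.1 h).2 (not_lt.2 (hδ ξ))
    obtain ⟨r0, hr0, hr0F, hr0n, _⟩ := ext_n e (res δ p) (p.n + 1)
    have hr0e : ∀ ξ, ξ ∉ r0.F := fun ξ => by rw [hr0F]; exact hempty p ξ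
    have hr0n' : r0.n = p.n + 1 := by rw [hr0n, res_n]; omega
    have hr0q : LE e r0 (res δ q) := by
      refine ⟨⟨fun ξ h => absurd h (hempty q ξ), ?_, fun ξ h => absurd h (hempty q ξ),
        fun ξ h => absurd h (hempty q ξ), fun ξ h => absurd h (hempty q ξ)⟩,
        fun ξ h => absurd h (hempty q ξ)⟩
      rw [res_n, ← hn, hr0n']
      omega
    obtain ⟨r, hrp, hrq, hrn, h4, h5, h6⟩ := glue2_core e p q α k hn hs hkp hkq δ r0 (hδ α)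
      (fun ξ h => absurd h (hr0e ξ)) hr0 hr0q p.n le_rfl (by rw [hr0n']; omega)
      (fun ξ h => absurd h (not_lt.2 (hδ ξ))) (fun ξ h1 h2 h3 => absurd h3 (hno ξ h1 h2))
      (fun _ => 0) (fun j _ _ _ ξ _ h => absurd h (not_lt.2 (hδ ξ)))
      (fun j _ _ _ ξ _ h => absurd h (not_lt.2 (hδ ξ)))
    exact ⟨r, p.n, hrp, hrq, le_rfl, by rw [hrn, hr0n']; omega,
      fun ζ hζ hζα _ => h4 ζ hζ (hδ ζ) hζα, fun ζ hζ hζα _ => h5 ζ hζ (hδ ζ) hζα, h6⟩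

end Pool.Agent.H5Z
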