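import Pool.Agent.Lib.H5Z.BCcc
import Pool.Agent.Lib.H5Z.BGlue2

/-! Chunk BKillDef. -/

set_option autoImplicit false

open Set Function

namespace Pool.Agent.H5Z

variable {ι : Type} [LinearOrder ι] [WellFoundedLT ι] (e : ι → Raw ι)

/-- What is arranged at one index `β < α`. -/
structure OneStep (d : ι → ℕ → RO (PP e)) (α β : ι) (k N : ℕ) (p : PP e) : Prop where
  memα : α ∈ Cond.F p
  memβ : β ∈ Cond.F p
  len : Cond.n p = N
  prom : ∀ ζ, α ≤ ζ → Cond.k p ζ ≤ k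
  agree : ∀ j, N ≤ j → p ∈ (dmB (sR e β) j ⇨ (dmB (sR e α) j ⇨ iffB (d β j) (d α j))).s
  sep : ∀ i ≤ k + 1, ∀ j, N ≤ j → p ∈ (sR e β j i ⇨ iffB (d β j) (if Even i then ⊤ else ⊥)).s

end Pool.Agent.H5Z
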