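import Pool.Agent.Lib.H5Z.BCcc
import Pool.Agent.Lib.H5Z.BGlue2
import Pool.Agent.Lib.H5Z.BKillDef

/-! Chunk BKillA. -/

set_option autoImplicit false

open Set Function

namespace Pool.Agent.H5Z

variable {ι : Type} [LinearOrder ι] [WellFoundedLT ι] (e : ι → Raw ι)

theorem BKillA_iter (f : ℕ → ℕ → RO (PP e)) (p0 : PP e) (h : ∀ k, p0 ∈ (AAb (f k)).s) (q : PP e)
    (hq : q ≤ p0) (K : ℕ) :
    ∃ r : PP e, r ≤ q ∧ ∃ h : ℕ, ∀ i ≤ K, ∀ j, h ≤ j → r ∈ (f i j).s := by
  induction K with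
  | zero =>
    obtain ⟨r, hr, n, hn⟩ := (mem_AAb e _ _).1 (h 0) q hq
    refine ⟨r, hr, n, fun i hi j hj => ?_⟩
    have : i = 0 := by omega
    rw [this]
    exact hn j hj
  | succ K ih =>
    obtain ⟨r, hr, n, hn⟩ := ih
    obtain ⟨r', hr', n', hn'⟩ := (mem_AAb e _ _).1 (h (K + 1)) r (le_trans hr hq)
    refine ⟨r', le_trans hr' hr, max n n', fun i hi j hj => ?_⟩
    rcases Nat.lt_or_ge K i with h1 | h1
    · have : i = K + 1 := by omega
      rw [this]
      exact hn' j (le_trans (le_max_right _ _) hj)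
    · exact (f i j).lower (hn i h1 j (le_trans (le_max_left _ _) hj)) hr'

/-- First extend `p0` to `q` with `α, β ∈ q.F` which forces agreement from some `m` on; let
`k` be the largest of the numbers `q.k ζ`, `α ≤ ζ`. Extend `q` to `r` which decides, for
all `i ≤ k + 1`, from which number on the separation holds; this only depends on
the coordinates below `α`, so `res α r` forces it as well; amalgamate `q` with `res α r`
(`amalg` does not change `q.k ζ` for `α ≤ ζ`), and make the result longer with `ext_n`. -/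
theorem kill_one (d : ι → ℕ → RO (PP e)) (p0 : PP e)
    (h1 : ∀ i i', p0 ∈ (AAb (fun j => dmB (sR e i) j ⇨ (dmB (sR e i') j ⇨
      iffB (d i j) (d i' j)))).s)
    (h2 : ∀ i k, p0 ∈ (AAb (fun j => sR e i j k ⇨ iffB (d i j) (if Even k then ⊤ else ⊥))).s)
    (α β : ι) (hβ : β < α) (hs : ∀ j, SuppR e α (d β j)) :
    ∃ (k N : ℕ) (p : PP e), p ≤ p0 ∧ OneStep e d α β k N p := by
  obtain ⟨q1, hq1, hq1F, _, _⟩ := ext_coord e p0 {α, β}
  obtain ⟨q2, hq2, m, hm⟩ := (mem_AAb e _ _).1 (h1 β α) q1 hq1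
  have hq20 : q2 ≤ p0 := LE_trans e hq2 hq1
  set k := (Cond.F q2).sup (Cond.k q2) with hk
  have hkle : ∀ ζ, Cond.k q2 ζ ≤ k := by
    intro ζ
    by_cases hζ : ζ ∈ Cond.F q2
    · exact Finset.le_sup (f := Cond.k q2) hζ
    · have : Cond.k q2 ζ = 0 := by
        by_contra hc
        exact hζ (Cond.k_out q2 ζ hc)
      rw [this]
      exact Nat.zero_le _
  obtain ⟨r, hr, h, hh⟩ := BKillA_iter e
    (fun i j => sR e β j i ⇨ iffB (d β j) (if Even i then ⊤ else ⊥)) p0 (h2 β) q2 hq20 (k + 1)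
  have hsupp : ∀ i j, SuppR e α (sR e β j i ⇨ iffB (d β j) (if Even i then ⊤ else ⊥)) := by
    intro i j
    refine supp_himp e α _ _ (supp_sR e α β hβ j i) (supp_iffB e α _ _ (hs j) ?_)
    split_ifs
    · exact supp_top e α
    · exact supp_bot e α
  obtain ⟨p1, hp1, hp1t, _, _, hp1k⟩ := amalg e q2 (res α r) α (below_res α r) (LE_res_mono e hr)
  obtain ⟨p2, hp2, hp2F, hp2n, hp2k⟩ := ext_n e p1 (max m h)
  have hp2q : LE e p2 q2 := LE_trans e hp2 hp1
  have hF1 : α ∈ Cond.F q2 := hq2.1.F (by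
    change α ∈ q1.F
    rw [hq1F]
    exact Finset.mem_union_right _ (Finset.mem_insert_self _ _))
  have hF2 : β ∈ Cond.F q2 := hq2.1.F (by
    change β ∈ q1.F
    rw [hq1F]
    exact Finset.mem_union_right _ (Finset.mem_insert_of_mem (Finset.mem_singleton_self _)))
  refine ⟨k, p2.n, p2, LE_trans e hp2q hq20, hp2q.1.F hF1, hp2q.1.F hF2, rfl, ?_, ?_, ?_⟩
  · intro ζ hζ
    change p2.k ζ ≤ k
    rw [hp2k, hp1k ζ hζ]
    exact hkle ζ
  · intro j hj
    have hmj : m ≤ j := by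
      have : max m h ≤ p2.n := by rw [hp2n]; exact le_max_left _ _
      exact (le_max_left m h).trans (this.trans hj)
    exact RO.lower _ (hm j hmj) hp2q
  · intro i hi j hj
    have hhj : h ≤ j := by
      have : max m h ≤ p2.n := by rw [hp2n]; exact le_max_left _ _
      exact (le_max_right m h).trans (this.trans hj)
    exact RO.lower _ (hsupp i j r (hh i hi j hhj)) (LE_trans e hp2 hp1t)

end Pool.Agent.H5Z
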