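import Pool.Agent.Lib.H5Z.BCcc
import Pool.Agent.Lib.H5Z.BGlue2
import Pool.Agent.Lib.H5Z.BKillDef

/-! Chunk BKillB. -/

set_option autoImplicit false

open Set Function

namespace Pool.Agent.H5Z

variable {ι : Type} [LinearOrder ι] [WellFoundedLT ι] (e : ι → Raw ι)

/-- By `glue2` there are `r ≤ p, q` and `j ≥ N` with `s_β(j) = k`, `s_γ(j) = k + 1` and
`j ∈ dom s_α`; this contradicts `agree` and `sep`. -/
theorem kill_two (d : ι → ℕ → RO (PP e)) (α β γ : ι) (k N : ℕ) (p q : PP e)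
    (hp : OneStep e d α β k N p) (hq : OneStep e d α γ k N q) (hβ : β < α) (hγ : γ < α)
    (hs : ∀ ξ ∈ Cond.F p, ξ ∈ Cond.F q → ∀ j, Cond.t p ξ j = Cond.t q ξ j)
    (hβR : ∀ ρ ∈ Cond.F p, ρ ∈ Cond.F q → ρ < α → ρ < β)
    (hγR : ∀ ρ ∈ Cond.F p, ρ ∈ Cond.F q → ρ < α → ρ < γ) : False := by
  obtain ⟨r, j, hrp, hrq, hj1, hj2, h1, h2, h3⟩ := glue2 e p q α k (hp.len.trans hq.len.symm) hs
    hp.prom hq.prom
  have hNj : N ≤ j := hp.len ▸ hj1
  have hrβ : β ∈ Cond.F r := hrp.1.F hp.memβ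
  have hrγ : γ ∈ Cond.F r := hrq.1.F hq.memβ
  have hrα : α ∈ Cond.F r := hrp.1.F hp.memα
  have tβ : Cond.t r β j = some k := h1 β hp.memβ hβ hβR
  have tγ : Cond.t r γ j = some (k + 1) := h2 γ hq.memβ hγ hγR
  have tα : Cond.t r α j = some k := h3 α (Or.inl hp.memα) le_rfl
  have mβ : (r : PP e) ∈ (sR e β j k).s := (mem_sR e r β j k hrβ hj2).2 tβ
  have mγ : (r : PP e) ∈ (sR e γ j (k + 1)).s := (mem_sR e r γ j (k + 1) hrγ hj2).2 tγ
  have dβ : (r : PP e) ∈ (dmB (sR e β) j).s := (mem_dm e r β j hrβ hj2).2 (by rw [tβ]; simp)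
  have dγ : (r : PP e) ∈ (dmB (sR e γ) j).s := (mem_dm e r γ j hrγ hj2).2 (by rw [tγ]; simp)
  have dα : (r : PP e) ∈ (dmB (sR e α) j).s := (mem_dm e r α j hrα hj2).2 (by rw [tα]; simp)
  -- agreement
  have a1 := (RO.mem_himp _ _ _).1 ((RO.mem_himp _ _ _).1 (hp.agree j hNj) r hrp dβ) r (LE_refl e r)
    dα
  have a2 := (RO.mem_himp _ _ _).1 ((RO.mem_himp _ _ _).1 (hq.agree j hNj) r hrq dγ) r (LE_refl e r)
    dα
  have b1 := (mem_iffB e _ _ _).1 a1 r (LE_refl e r)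
  have b2 := (mem_iffB e _ _ _).1 a2 r (LE_refl e r)
  -- separation
  have c1 := (mem_iffB e _ _ _).1 ((RO.mem_himp _ _ _).1 (hp.sep k (Nat.le_succ k) j hNj) r hrp mβ)
    r (LE_refl e r)
  have c2 := (mem_iffB e _ _ _).1 ((RO.mem_himp _ _ _).1 (hq.sep (k + 1) le_rfl j hNj) r hrq mγ)
    r (LE_refl e r)
  by_cases hk : Even k
  · have hk' : ¬ Even (k + 1) := by
      rw [Nat.even_add_one]
      exact not_not.2 hk
    rw [if_pos hk] at c1
    rw [if_neg hk'] at c2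
    have x1 := c1.2 (RO.mem_top _)
    exact (c2.1 (b2.2 (b1.1 x1))).elim
  · have hk' : Even (k + 1) := by
      rw [Nat.even_add_one]
      exact hk
    rw [if_neg hk] at c1
    rw [if_pos hk'] at c2
    have x1 := c2.2 (RO.mem_top _)
    exact (c1.1 (b1.2 (b2.1 x1))).elim

end Pool.Agent.H5Z
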