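import Pool.Agent.Lib.H5Z.BCcc
import Pool.Agent.Lib.H5Z.BGlue2
import Pool.Agent.Lib.H5Z.BKillA
import Pool.Agent.Lib.H5Z.BKillB

/-! Chunk BKillC. -/

set_option autoImplicit false

open Set Function

namespace Pool.Agent.H5Z

variable {ι : Type} [LinearOrder ι] [WellFoundedLT ι] (e : ι → Raw ι)

theorem cl_noD (hb : Big ι e) (d : ι → ℕ → RO (PP e)) :
    (⨅ i, ⨅ i', AAb (fun j => dmB (sR e i) j ⇨ (dmB (sR e i') j ⇨ iffB (d i j) (d i' j)))) ⊓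
      (⨅ i, ⨅ k : ℕ, AAb (fun j => sR e i j k ⇨ iffB (d i j) (if Even k then ⊤ else ⊥))) = ⊥ := by
  rw [RO.eq_bot_iff']
  rintro p0 ⟨hp1, hp2⟩
  have h1 : ∀ i i', p0 ∈ (AAb (fun j => dmB (sR e i) j ⇨ (dmB (sR e i') j ⇨
      iffB (d i j) (d i' j)))).s := by
    intro i i'
    exact (RO.mem_iInf _ _).1 ((RO.mem_iInf _ _).1 hp1 i) i'
  have h2 : ∀ i k, p0 ∈ (AAb (fun j => sR e i j k ⇨
      iffB (d i j) (if Even k then ⊤ else ⊥))).s := by
    intro i k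
    exact (RO.mem_iInf _ _).1 ((RO.mem_iInf _ _).1 hp2 i) k
  choose g hg using fun β => exists_supp e hb (d β)
  obtain ⟨α0, _⟩ := hb.bdd ∅ (by simp)
  obtain ⟨W, β, α, hW, _, hβ, hcount⟩ := exists_seq e hb g α0
  have hstep : ∀ w, ∃ (kN : ℕ × ℕ) (p : PP e), p ≤ p0 ∧ OneStep e d α (β w) kN.1 kN.2 p := by
    intro w
    obtain ⟨k, N, p, hp, ho⟩ := kill_one e d p0 h1 h2 α (β w) (hβ w).1
      (fun j => (hg (β w) j).mono e (hβ w).2)
    exact ⟨(k, N), p, hp, ho⟩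
  choose kN p _ hos using hstep
  have hunc : ¬ (univ : Set W).Countable := by
    rw [Set.countable_univ_iff]
    exact not_countable
  obtain ⟨S1, _, hc1, y, hy⟩ := pigeon_countable (univ : Set W) hunc kN
  obtain ⟨S2, hS2, hc2, R, n, _, hR, ht⟩ := delta_cond S1 hc1 (fun w => (p w : Cond ι))
  -- remove the countably many small indices
  let T : Set W := ⋃ ρ ∈ {ρ : ι | ρ ∈ R ∧ ρ < α}, {w | β w ≤ ρ}
  have hT : T.Countable := by
    refine Set.Countable.biUnion ?_ fun ρ hρ => hcount ρ hρ.2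
    exact (R.finite_toSet.subset (fun ρ hρ => hρ.1)).countable
  have hc3 : ¬ (S2 \ T).Countable := by
    intro h
    exact hc2 ((h.union hT).mono (by
      intro w hw
      by_cases hwT : w ∈ T
      · exact Or.inr hwT
      · exact Or.inl ⟨hw, hwT⟩))
  obtain ⟨w, hw, w', hw', hne⟩ : ∃ w ∈ S2 \ T, ∃ w' ∈ S2 \ T, w ≠ w' := by
    by_contra h
    apply hc3
    have hsub : (S2 \ T).Subsingleton := by
      intro a ha b hb
      by_contra hne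
      exact h ⟨a, ha, b, hb, hne⟩
    exact hsub.countable
  have hRw := hR w hw.1 w' hw'.1 hne
  have hlt : ∀ v ∈ S2 \ T, ∀ ρ ∈ R, ρ < α → ρ < β v := by
    intro v hv ρ hρ hρα
    by_contra hcon
    exact hv.2 (mem_iUnion₂.2 ⟨ρ, ⟨hρ, hρα⟩, not_lt.1 hcon⟩)
  have ho := hos w
  have ho' := hos w'
  rw [hy w (hS2 hw.1)] at ho
  rw [hy w' (hS2 hw'.1)] at ho'
  refine kill_two e d α (β w) (β w') y.1 y.2 (p w) (p w') ho ho' (hβ w).1 (hβ w').1 ?_ ?_ ?_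
  · intro ξ hξ hξ' j
    exact ht w hw.1 w' hw'.1 ξ (by rw [← hRw]; exact Finset.mem_inter.2 ⟨hξ, hξ'⟩) j
  · intro ρ hρ hρ' hρα
    exact hlt w hw ρ (by rw [← hRw]; exact Finset.mem_inter.2 ⟨hρ, hρ'⟩) hρα
  · intro ρ hρ hρ' hρα
    exact hlt w' hw' ρ (by rw [← hRw]; exact Finset.mem_inter.2 ⟨hρ, hρ'⟩) hρα

end Pool.Agent.H5Z
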