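import Pool.Agent.Lib.H5Z.BKillDef
import Pool.Agent.Lib.H5Z.BKillA
import Pool.Agent.Lib.H5Z.BKillB
import Pool.Agent.Lib.H5Z.BKillC

/-! Chunk BKill: no clopen set separates. -/
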