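import Pool.Agent.Lib.H5Z.BCcc

/-! Chunk BUltDef. -/

set_option autoImplicit false

open Set Function

namespace Pool.Agent.H5Z

variable {ι : Type} [LinearOrder ι] [WellFoundedLT ι] (e : ι → Raw ι)

/-- The set named by a raw name. -/
def rawR (y : Raw ι) (j : ℕ) : RO (PP e) := RO.gen {p : PP e | ∃ i, y j i = some p}

end Pool.Agent.H5Z
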