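import Pool.Agent.Lib.H5Z.BCcc
import Pool.Agent.Lib.H5Z.BUltDef

/-! Chunk BUltA. -/

set_option autoImplicit false

open Set Function

namespace Pool.Agent.H5Z

variable {ι : Type} [LinearOrder ι] [WellFoundedLT ι] (e : ι → Raw ι)

/-- First case: no extension of `res η p` below `η` is a witness against goodness. Then `p`
(with `η ∈ p.F`) forces that the set is covered by the domain at `η` from `p.n` on. -/
theorem ult_case1 (η : ι) (y : Raw ι) (hy : ∀ j i a, y j i = some a → Below η a) (he : e η = y)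
    (p : PP e) (hη : η ∈ Cond.F p) (hg : Good e η y (res η p)) (j : ℕ) (hj : Cond.n p ≤ j) :
    p ∈ (rawR e y j ⇨ dmB (sR e η) j).s := by
  rw [RO.mem_himp]
  intro q hq hqy
  refine (dmB (sR e η) j).mem_of_dense fun q' hq' => ?_
  obtain ⟨r, hr, hrη, hrj⟩ := exists_det e q' η j
  refine ⟨r, hr, ?_⟩
  rw [mem_dm e r η j hrη hrj]
  intro hnone
  have hrp : LE e r p := LE_trans e hr (LE_trans e hq' hq)
  have hblk := (Blk_iff e η j r).1 (hrp.2 η hη j hj hrj hnone)
  obtain ⟨s, hs, a, ⟨i, hi⟩, hsa⟩ := hqy r (LE_trans e hr hq')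
  have ha : Below η a := hy j i a hi
  have h1 : LE e (res η s) (res η a) := LE_res_mono e hsa
  rw [res_of_below ha] at h1
  refine hblk (res η s) (below_res η s) ⟨i, a, by rw [he]; exact hi, ha, h1⟩ ?_
    ⟨res η s, below_res η s, LE_res_mono e hs, LE_refl e _⟩
  rw [he]
  exact Good_mono e (LE_res_mono e (LE_trans e hs hrp)) hg

end Pool.Agent.H5Z
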