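import Pool.Agent.Lib.H5Z.BCcc
import Pool.Agent.Lib.H5Z.BUltDef

/-! Chunk BUltB. -/

set_option autoImplicit false

open Set Function

namespace Pool.Agent.H5Z

variable {ι : Type} [LinearOrder ι] [WellFoundedLT ι] (e : ι → Raw ι)

/-- Second case: `res η p` is not good. Then some extension of `p` forces that the complement of
the set is covered by the domain at some coordinate, from some number on. -/
theorem ult_case2 (η : ι) (y : Raw ι) (hy : ∀ j i a, y j i = some a → Below η a)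
    (p : PP e) (hg : ¬ Good e η y (res η p)) :
    ∃ q : PP e, q ≤ p ∧ ∃ n, ∀ j, n ≤ j → q ∈ ((rawR e y j)ᶜ ⇨ dmB (sR e η) j).s := by
  have hg' : ∃ G : Finset ι, (∀ ξ ∈ G, ξ < η) ∧ ∃ n : ℕ, ∃ r, Below η r ∧ LE e r (res η p) ∧
      ∀ r', Below η r' → LE e r' r → ∀ j, n ≤ j → j < r'.n →
        (∀ ξ ∈ G, ξ ∈ r'.F ∧ r'.t ξ j = none) →
        ∃ r'', Below η r'' ∧ LE e r'' r' ∧ Hit e η y j r'' := by
    by_contra hc
    apply hg
    intro G hG n r hr hrp
    by_contra hc2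
    apply hc
    refine ⟨G, hG, n, r, hr, hrp, fun r' h1 h2 j h3 h4 h5 => ?_⟩
    by_contra hc3
    apply hc2
    exact ⟨r', h1, h2, j, h3, h4, h5, fun r'' h6 h7 h8 => hc3 ⟨r'', h6, h7, h8⟩⟩
  obtain ⟨G, hG, n, r, hr, hrp, hr2⟩ := hg'
  obtain ⟨q1, hq1p, hq1r, _⟩ := amalg e p r η hr hrp
  obtain ⟨q, hq, hqF, _, _⟩ := ext_coord e q1 (insert η G)
  refine ⟨q, LE_trans e hq hq1p, max n q.n, fun j hj => ?_⟩
  refine (RO.mem_himp (P := PP e) _ _ _).2 ?_
  intro q' hq' hqy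
  refine (dmB (sR e η) j).mem_of_dense fun q2 hq2 => ?_
  obtain ⟨s, hs, hsη, hsj⟩ := exists_det e q2 η j
  refine ⟨s, hs, ?_⟩
  rw [mem_dm e s η j hsη hsj]
  intro hnone
  have hsq : LE e s q := LE_trans e hs (LE_trans e hq2 hq')
  have hnq : q.n ≤ j := (le_max_right _ _).trans hj
  have hηq : η ∈ q.F := by
    rw [hqF]
    exact Finset.mem_union_right _ (Finset.mem_insert_self _ _)
  have hGq : ∀ ξ ∈ G, ξ ∈ q.F := fun ξ hξ => by
    rw [hqF]
    exact Finset.mem_union_right _ (Finset.mem_insert_of_mem hξ)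
  have hGs : ∀ ξ ∈ G, ξ ∈ (res η s).F ∧ (res η s).t ξ j = none := by
    intro ξ hξ
    refine ⟨mem_res_F.2 ⟨hsq.1.F (hGq ξ hξ), hG ξ hξ⟩, ?_⟩
    have h1 : (res η s).t ξ j = Cond.t s ξ j := res_t_lt (hG ξ hξ) s j
    rw [h1]
    have h2 := hsq.1.link ξ (hGq ξ hξ) η hηq (hG ξ hξ) j hnq hsj
    cases h3 : Cond.t s ξ j with
    | none => rfl
    | some v =>
      obtain ⟨w, hw, _⟩ := h2 v h3
      exact absurd (hnone.symm.trans hw) (by simp)
  have hsr : LE e (res η s) r := by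
    have h1 : LE e (res η s) (res η r) :=
      LE_res_mono e (LE_trans e hsq (LE_trans e hq hq1r))
    rw [res_of_below hr] at h1
    exact h1
  obtain ⟨r'', h1, h2, i, a, h3, h4, h5⟩ := hr2 (res η s) (below_res η s) hsr j
    ((le_max_left _ _).trans hj) hsj hGs
  obtain ⟨z, hz1, hz2, _⟩ := amalg e s r'' η h1 h2
  have hzy : (z : PP e) ∈ (rawR e y j).s := by
    intro z' hz'
    exact ⟨z', le_rfl, a, ⟨i, h3⟩, LE_trans e hz' (LE_trans e hz2 h5)⟩
  rw [RO.mem_compl] at hqy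
  exact hqy z (LE_trans e hz1 (LE_trans e hs hq2)) hzy

end Pool.Agent.H5Z
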