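import Pool.Agent.Lib.H5Z.BCcc
import Pool.Agent.Lib.H5Z.BUltA
import Pool.Agent.Lib.H5Z.BUltB

/-! Chunk BUltC. -/

set_option autoImplicit false

open Set Function Cardinal

namespace Pool.Agent.H5Z

variable {ι : Type} [LinearOrder ι] [WellFoundedLT ι] (e : ι → Raw ι)

theorem BUltC_bdd (hb : Big ι e) (f : ℕ → ℕ → Option (Cond ι)) :
    ∃ α, ∀ j i a, f j i = some a → Below α a := by
  obtain ⟨b, hb'⟩ := hb.bdd {ξ | ∃ j i a, f j i = some a ∧ ξ ∈ a.F} (by
    have : ({ξ | ∃ j i a, f j i = some a ∧ ξ ∈ a.F} : Set ι).Countable := by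
      have h1 : {ξ | ∃ j i a, f j i = some a ∧ ξ ∈ a.F} ⊆
          ⋃ x : ℕ × ℕ, {ξ | ∃ a, f x.1 x.2 = some a ∧ ξ ∈ a.F} := by
        rintro ξ ⟨j, i, a, h1, h2⟩
        exact mem_iUnion.2 ⟨(j, i), a, h1, h2⟩
      refine Set.Countable.mono h1 (countable_iUnion fun x => ?_)
      cases h : f x.1 x.2 with
      | none => simp
      | some a =>
        refine Set.Countable.mono ?_ a.F.countable_toSet
        rintro ξ ⟨a', ha', hξ⟩
        have : a = a' := by simpa using ha'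
        rw [this]
        exact hξ
    exact (Cardinal.le_aleph0_iff_set_countable.2 this).trans (Cardinal.aleph0_lt_aleph_one.le))
  exact ⟨b, fun j i a h ξ hξ => hb' ξ ⟨j, i, a, h, hξ⟩⟩

theorem cl_ult (hb : Big ι e) (y : ℕ → RO (PP e)) : (⨆ i, AAb (fun j => y j ⇨ dmB (sR e i) j) ⊔
    AAb (fun j => (y j)ᶜ ⇨ dmB (sR e i) j)) = ⊤ := by
  have hgen := fun j => exists_gen e (y j)
  choose f hf using hgen
  have hf' : ∀ j, y j = rawR e f j := hf
  obtain ⟨α, hα⟩ := BUltC_bdd e hb f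
  obtain ⟨η, hη, he⟩ := hb.book f α
  have hfη : ∀ j i a, f j i = some a → Below η a := fun j i a h => (hα j i a h).mono hη.le
  rw [RO.eq_top_iff']
  intro p
  rw [RO.mem_iSup]
  intro p1 _
  obtain ⟨q0, hq0, hq0F, _, _⟩ := ext_coord e p1 {η}
  have hηq : η ∈ q0.F := by
    rw [hq0F]
    exact Finset.mem_union_right _ (Finset.mem_singleton_self _)
  by_cases hg : Good e η f (res η q0)
  · refine ⟨q0, hq0, η, ?_⟩
    refine (RO.mem_sup (P := PP e) _ _ _).2 ?_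
    intro q hq
    refine ⟨q, le_rfl, Or.inl ?_⟩
    refine (mem_AAb e _ _).2 ?_
    intro r hr
    refine ⟨r, le_rfl, q0.n, fun j hj => ?_⟩
    rw [hf' j]
    exact RO.lower _ (ult_case1 e η f hfη he q0 hηq hg j hj) (LE_trans e hr hq)
  · obtain ⟨q, hq, n, hn⟩ := ult_case2 e η f hfη q0 hg
    refine ⟨q, LE_trans e hq hq0, η, ?_⟩
    refine (RO.mem_sup (P := PP e) _ _ _).2 ?_
    intro q' hq'
    refine ⟨q', le_rfl, Or.inr ?_⟩
    refine (mem_AAb e _ _).2 ?_
    intro r hr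
    refine ⟨r, le_rfl, n, fun j hj => ?_⟩
    rw [hf' j]
    exact RO.lower _ (hn j hj) (LE_trans e hr hq')

end Pool.Agent.H5Z
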