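import Pool.Agent.Lib.H5Z.BUltDef
import Pool.Agent.Lib.H5Z.BUltA
import Pool.Agent.Lib.H5Z.BUltB
import Pool.Agent.Lib.H5Z.BUltC

/-! Chunk BUlt: the clause `ult`. -/
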