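import Pool.Agent.Lib.H5Z.BKill
import Pool.Agent.Lib.H5Z.BUlt
import Pool.Agent.Lib.H5Z.BClauses
import Pool.Agent.Lib.H5Z.BClCoinf

/-! The Boolean-valued gap property of the iteration. -/

set_option autoImplicit false

open Set Function

namespace Pool.Agent.H5Z

theorem isBGap {ι : Type} [LinearOrder ι] [WellFoundedLT ι] (e : ι → Raw ι) (hb : Big ι e) :
    IsBGap ι (sR e) where
  func i j k k' h := cl_func e i j k k' h
  dir i i' := cl_dir e i i'
  coinf i := cl_coinf e i
  ult y := cl_ult e hb y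
  coh i i' k := cl_coh e i i' k
  noD d := cl_noD e hb d

/-- the empty condition -/
def emptyCond (ι : Type) [LinearOrder ι] : Cond ι where
  F := ∅
  n := 0
  t _ _ := none
  k _ := 0
  t_out _ _ h := absurd rfl h
  k_out _ h := absurd rfl h
  anti ξ h := absurd h (Finset.notMem_empty ξ)

theorem exists_bgap : ∃ (B : Type) (_ : CompleteBooleanAlgebra B) (_ : Nontrivial B) (ι : Type)
    (s : ι → ℕ → ℕ → B), IsBGap ι s := by
  obtain ⟨ι, _, _, e, hb⟩ := exists_big
  haveI : Nonempty (PP e) := ⟨emptyCond ι⟩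
  exact ⟨RO (PP e), inferInstance, inferInstance, ι, sR e, isBGap e hb⟩

end Pool.Agent.H5Z
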