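import Pool.Agent.Lib.H5Z.BCond

/-!
# The order of the iteration is a preorder; restriction
-/

set_option autoImplicit false

open Set Function

namespace Pool.Agent.H5Z

variable {ι : Type} [LinearOrder ι]

theorem Link.mono {a b : Option ℕ} {k k' : ℕ} (h : Link a b k') (hk : k ≤ k') : Link a b k := by
  intro v hv
  obtain ⟨w, hw, h1⟩ := h v hv
  exact ⟨w, hw, by omega⟩

theorem Link.trans {a b c : Option ℕ} {k : ℕ} (h : Link a b k) (h' : Link b c k) : Link a c k := by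
  intro v hv
  obtain ⟨w, hw, h1⟩ := h v hv
  obtain ⟨x, hx, h2⟩ := h' w hw
  exact ⟨x, hx, h1.trans h2⟩

theorem Link.refl (a : Option ℕ) (k : ℕ) : Link a a k := fun v hv => ⟨v, hv, rfl⟩

theorem FinLE.refl (p : Cond ι) : FinLE p p :=
  ⟨Finset.Subset.refl _, le_rfl, fun _ _ _ _ => rfl, fun _ _ => le_rfl,
    fun _ _ _ _ _ j h h' => absurd h (not_le.2 h')⟩

theorem FinLE.trans {r q p : Cond ι} (h : FinLE r q) (h' : FinLE q p) : FinLE r p where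
  F := h'.F.trans h.F
  n := h'.n.trans h.n
  t ξ hξ j hj := (h.t ξ (h'.F hξ) j (hj.trans_le h'.n)).trans (h'.t ξ hξ j hj)
  k ξ hξ := (h'.k ξ hξ).trans (h.k ξ (h'.F hξ))
  link ξ hξ ζ hζ hlt j hj hj' := by
    by_cases hq : j < q.n
    · rw [h.t ξ (h'.F hξ) j hq, h.t ζ (h'.F hζ) j hq]
      exact h'.link ξ hξ ζ hζ hlt j hj hq
    · exact (h.link ξ (h'.F hξ) ζ (h'.F hζ) hlt j (not_lt.1 hq) hj').mono (h'.k ζ hζ)

theorem mem_res_F {α ξ : ι} {p : Cond ι} : ξ ∈ (res α p).F ↔ ξ ∈ p.F ∧ ξ < α := by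
  simp [res]

@[simp] theorem res_n (α : ι) (p : Cond ι) : (res α p).n = p.n := rfl

theorem res_t_lt {α ξ : ι} (h : ξ < α) (p : Cond ι) (j : ℕ) : (res α p).t ξ j = p.t ξ j := by
  simp [res, h]

theorem res_k_lt {α ξ : ι} (h : ξ < α) (p : Cond ι) : (res α p).k ξ = p.k ξ := by
  simp [res, h]

theorem below_res (α : ι) (p : Cond ι) : Below α (res α p) := fun _ h => (mem_res_F.1 h).2

theorem Below.mono {α β : ι} (h : α ≤ β) {p : Cond ι} (hp : Below α p) : Below β p :=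
  fun ξ hξ => (hp ξ hξ).trans_le h

theorem res_res {α β : ι} (h : α ≤ β) (p : Cond ι) : res α (res β p) = res α p := by
  ext ξ j
  · rw [mem_res_F, mem_res_F, mem_res_F]
    exact ⟨fun h1 => ⟨h1.1.1, h1.2⟩, fun h1 => ⟨⟨h1.1, h1.2.trans_le h⟩, h1.2⟩⟩
  · rfl
  · by_cases hξ : ξ < α
    · rw [res_t_lt hξ, res_t_lt hξ, res_t_lt (hξ.trans_le h)]
    · simp [res, hξ]
  · by_cases hξ : ξ < α
    · rw [res_k_lt hξ, res_k_lt hξ, res_k_lt (hξ.trans_le h)]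
    · simp [res, hξ]

theorem res_of_below {α : ι} {p : Cond ι} (h : Below α p) : res α p = p := by
  ext ξ j
  · rw [mem_res_F]
    exact ⟨fun h1 => h1.1, fun h1 => ⟨h1, h ξ h1⟩⟩
  · rfl
  · by_cases hξ : ξ < α
    · rw [res_t_lt hξ]
    · have h1 : p.t ξ j = none := by
        by_contra hc
        exact hξ (h ξ (p.t_out ξ j hc).1)
      rw [h1]
      simp [res, hξ]
  · by_cases hξ : ξ < α
    · rw [res_k_lt hξ]
    · have h1 : p.k ξ = 0 := by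
        by_contra hc
        exact hξ (h ξ (p.k_out ξ hc))
      rw [h1]
      simp [res, hξ]

theorem FinLE.res {α : ι} {q p : Cond ι} (h : FinLE q p) : FinLE (res α q) (res α p) where
  F ξ hξ := by
    rw [mem_res_F] at hξ ⊢
    exact ⟨h.F hξ.1, hξ.2⟩
  n := h.n
  t ξ hξ j hj := by
    rw [mem_res_F] at hξ
    rw [res_t_lt hξ.2, res_t_lt hξ.2]
    exact h.t ξ hξ.1 j hj
  k ξ hξ := by
    rw [mem_res_F] at hξ
    rw [res_k_lt hξ.2, res_k_lt hξ.2]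
    exact h.k ξ hξ.1
  link ξ hξ ζ hζ hlt j hj hj' := by
    rw [mem_res_F] at hξ hζ
    rw [res_t_lt hξ.2, res_t_lt hζ.2, res_k_lt hζ.2]
    exact h.link ξ hξ.1 ζ hζ.1 hlt j hj hj'

theorem finLE_res (α : ι) (p : Cond ι) : FinLE p (res α p) where
  F ξ hξ := (mem_res_F.1 hξ).1
  n := le_rfl
  t ξ hξ j hj := by
    rw [mem_res_F] at hξ
    rw [res_t_lt hξ.2]
  k ξ hξ := by
    rw [mem_res_F] at hξ
    rw [res_k_lt hξ.2]
  link ξ hξ ζ hζ hlt j hj hj' := absurd hj (not_le.2 hj')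

/-- `LEw B q p` only depends on `B ξ` for `ξ ∈ p.F`. -/
theorem LEw_congr {B B' : ι → ℕ → Cond ι → Prop} {ζ : ι} (hB : ∀ ξ < ζ, B ξ = B' ξ) {p : Cond ι}
    (hp : Below ζ p) (q : Cond ι) : LEw B q p ↔ LEw B' q p := by
  constructor
  · rintro ⟨h1, h2⟩
    refine ⟨h1, fun ξ hξ j hj hj' h => ?_⟩
    rw [← hB ξ (hp ξ hξ)]
    exact h2 ξ hξ j hj hj' h
  · rintro ⟨h1, h2⟩
    refine ⟨h1, fun ξ hξ j hj hj' h => ?_⟩
    rw [hB ξ (hp ξ hξ)]
    exact h2 ξ hξ j hj hj' h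

theorem Hitw_congr {B B' : ι → ℕ → Cond ι → Prop} {ζ : ι} (hB : ∀ ξ < ζ, B ξ = B' ξ) (y : Raw ι)
    (j : ℕ) (r : Cond ι) : Hitw B ζ y j r ↔ Hitw B' ζ y j r := by
  constructor
  · rintro ⟨i, a, h1, h2, h3⟩
    exact ⟨i, a, h1, h2, (LEw_congr hB h2 r).1 h3⟩
  · rintro ⟨i, a, h1, h2, h3⟩
    exact ⟨i, a, h1, h2, (LEw_congr hB h2 r).2 h3⟩

theorem Goodw_congr {B B' : ι → ℕ → Cond ι → Prop} {ζ : ι} (hB : ∀ ξ < ζ, B ξ = B' ξ) (y : Raw ι)
    (d : Cond ι) (hd : Below ζ d) : Goodw B ζ y d → Goodw B' ζ y d := by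
  intro h G hG n r hr hrd
  obtain ⟨r', h1, h2, j, h3, h4, h5, h6⟩ := h G hG n r hr ((LEw_congr hB hd r).2 hrd)
  exact ⟨r', h1, (LEw_congr hB hr r').1 h2, j, h3, h4, h5, fun r'' h7 h8 h9 =>
    h6 r'' h7 ((LEw_congr hB h1 r'').2 h8) ((Hitw_congr hB y j r'').2 h9)⟩

theorem blkw_congr {B B' : ι → ℕ → Cond ι → Prop} {ζ : ι} (hB : ∀ ξ < ζ, B ξ = B' ξ) (y : Raw ι)
    (j : ℕ) (q : Cond ι) : blkw B ζ y j q → blkw B' ζ y j q := by
  intro h d hd hh hg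
  rintro ⟨r, h1, h2, h3⟩
  have hB' : ∀ ξ < ζ, B' ξ = B ξ := fun ξ hξ => (hB ξ hξ).symm
  exact h d hd ((Hitw_congr hB y j d).2 hh) (Goodw_congr hB' y d hd hg)
    ⟨r, h1, (LEw_congr hB (below_res ζ q) r).2 h2, (LEw_congr hB hd r).2 h3⟩

variable [WellFoundedLT ι] (e : ι → Raw ι)

/-- The fundamental equation. -/
theorem Blk_iff (ζ : ι) (j : ℕ) (q : Cond ι) :
    Blk e ζ j q ↔ ∀ d, Below ζ d → Hit e ζ (e ζ) j d → Good e ζ (e ζ) d →
      ¬ ∃ r, Below ζ r ∧ LE e r (res ζ q) ∧ LE e r d := by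
  have hB : ∀ ξ < ζ, (fun ξ => if ξ < ζ then Blk e ξ else fun _ _ => True) ξ = Blk e ξ := by
    intro ξ hξ
    simp [hξ]
  rw [Blk_eq]
  exact ⟨fun h => blkw_congr hB (e ζ) j q h, fun h =>
    blkw_congr (fun ξ hξ => (hB ξ hξ).symm) (e ζ) j q h⟩

theorem Blk_res {ξ α : ι} (h : ξ ≤ α) (j : ℕ) (q : Cond ι) :
    Blk e ξ j (res α q) ↔ Blk e ξ j q := by
  rw [Blk_iff, Blk_iff, res_res h]

theorem LE_refl (p : Cond ι) : LE e p p :=
  ⟨FinLE.refl p, fun _ _ j h h' => absurd h (not_le.2 h')⟩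

theorem LE_res_mono {α : ι} {q p : Cond ι} (h : LE e q p) : LE e (res α q) (res α p) := by
  refine ⟨h.1.res, fun ξ hξ j hj hj' ht => ?_⟩
  rw [mem_res_F] at hξ
  rw [res_t_lt hξ.2] at ht
  rw [Blk_res e hξ.2.le]
  exact h.2 ξ hξ.1 j hj hj' ht

theorem LE_res (α : ι) (p : Cond ι) : LE e p (res α p) :=
  ⟨finLE_res α p, fun _ _ j h h' => absurd h (not_le.2 h')⟩

/-- Monotonicity of blocking below `ζ` implies transitivity for conditions below `ζ`. -/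
theorem LE_trans_of {ζ : ι} (hm : ∀ ξ < ζ, ∀ j (r q : Cond ι), LE e r q → Blk e ξ j q → Blk e ξ j r)
    {r q p : Cond ι} (hp : Below ζ p) (h : LE e r q) (h' : LE e q p) : LE e r p := by
  refine ⟨h.1.trans h'.1, fun ξ hξ j hj hj' ht => ?_⟩
  by_cases hq : j < q.n
  · rw [h.1.t ξ (h'.1.F hξ) j hq] at ht
    exact hm ξ (hp ξ hξ) j r q h (h'.2 ξ hξ j hj hq ht)
  · exact h.2 ξ (h'.1.F hξ) j (not_lt.1 hq) hj' ht

theorem Blk_mono (ζ : ι) : ∀ j (r q : Cond ι), LE e r q → Blk e ζ j q → Blk e ζ j r := by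
  induction ζ using WellFoundedLT.induction with
  | ind ζ ih =>
    intro j r q hrq hq
    rw [Blk_iff] at hq ⊢
    intro d hd hh hg
    rintro ⟨s, h1, h2, h3⟩
    exact hq d hd hh hg ⟨s, h1, LE_trans_of e ih (below_res ζ q) h2 (LE_res_mono e hrq), h3⟩

theorem LE_trans {r q p : Cond ι} (h : LE e r q) (h' : LE e q p) : LE e r p := by
  refine ⟨h.1.trans h'.1, fun ξ hξ j hj hj' ht => ?_⟩
  by_cases hq : j < q.n
  · rw [h.1.t ξ (h'.1.F hξ) j hq] at ht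
    exact Blk_mono e ξ j r q h (h'.2 ξ hξ j hj hq ht)
  · exact h.2 ξ (h'.1.F hξ) j (not_lt.1 hq) hj' ht

theorem Hit_mono {ζ : ι} {y : Raw ι} {j : ℕ} {r q : Cond ι} (h : LE e r q)
    (hq : Hit e ζ y j q) : Hit e ζ y j r := by
  obtain ⟨i, a, h1, h2, h3⟩ := hq
  exact ⟨i, a, h1, h2, LE_trans e h h3⟩

theorem Good_mono {ζ : ι} {y : Raw ι} {r q : Cond ι} (h : LE e r q)
    (hq : Good e ζ y q) : Good e ζ y r := by
  intro G hG n s hs hsr
  exact hq G hG n s hs (LE_trans e hsr h)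

theorem Hit_res {ζ : ι} {y : Raw ι} {j : ℕ} {r : Cond ι}
    (h : Hit e ζ y j r) : Hit e ζ y j (res ζ r) := by
  obtain ⟨i, a, h1, h2, h3⟩ := h
  refine ⟨i, a, h1, h2, ?_⟩
  have := LE_res_mono e (α := ζ) h3
  rw [res_of_below h2] at this
  exact this

/-- The poset of the iteration. -/
def PP (_e : ι → Raw ι) : Type := Cond ι

instance : Preorder (PP e) where
  le q p := LE e q p
  le_refl p := LE_refl e p
  le_trans r q p h h' := LE_trans e h h'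

theorem PP_le (q p : PP e) : q ≤ p ↔ LE e q p := Iff.rfl

end Pool.Agent.H5Z
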