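import Pool.Agent.Lib.H5Z.Defs

/-!
# Boolean-valued sets
-/

set_option autoImplicit false

open Set Function

namespace Pool.Agent.H5Z

/-- Boolean-valued sets over `B`. -/
inductive BSet (B : Type) : Type 1
  | mk (ι : Type) (el : ι → BSet B) (val : ι → B) : BSet B

namespace BSet

variable {B : Type}

/-- index type -/
def Ix : BSet B → Type
  | mk ι _ _ => ι

/-- elements -/
def el : (x : BSet B) → x.Ix → BSet B
  | mk _ e _ => e

/-- truth values of the elements -/
def val : (x : BSet B) → x.Ix → B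
  | mk _ _ b => b

variable [CompleteBooleanAlgebra B]

/-- Boolean value of `x = y`. -/
def eqB : BSet B → BSet B → B
  | mk ι a u, mk κ b v =>
    (⨅ i : ι, u i ⇨ ⨆ j : κ, v j ⊓ eqB (a i) (b j)) ⊓
      ⨅ j : κ, v j ⇨ ⨆ i : ι, u i ⊓ eqB (a i) (b j)

/-- Boolean value of `x ∈ y`. -/
def memB (x : BSet B) : BSet B → B
  | mk κ b v => ⨆ j : κ, v j ⊓ eqB x (b j)

/-- Boolean value of a formula. -/
def bval : Fml → (ℕ → BSet B) → B
  | Fml.mem i j, v => memB (v i) (v j)
  | Fml.eq i j, v => eqB (v i) (v j)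
  | Fml.bot, _ => ⊥
  | Fml.imp φ ψ, v => bval φ v ⇨ bval ψ v
  | Fml.all i φ, v => ⨅ a : BSet B, bval φ (update v i a)

/-- `F` respects Boolean-valued equality. -/
def ExtB (F : BSet B → B) : Prop := ∀ a a', eqB a a' ⊓ F a ≤ F a'

end BSet

end Pool.Agent.H5Z
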