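import Pool.Agent.Lib.H5Z.CModel

/-! Chunk C1: formulas respect Boolean-valued equality. -/

set_option autoImplicit false

open Set Function

namespace Pool.Agent.H5Z.BSet

variable {B : Type} [CompleteBooleanAlgebra B]

theorem C1_upd (v v' : ℕ → BSet B) (i : ℕ) (a : BSet B) :
    (⨅ j, eqB (v j) (v' j)) ≤ ⨅ j, eqB (update v i a j) (update v' i a j) := by
  refine le_iInf fun j => ?_
  by_cases h : j = i
  · subst h
    rw [update_self, update_self, eqB_refl]
    exact le_top
  · rw [update_of_ne h, update_of_ne h]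
    exact iInf_le _ j

theorem bval_congr (φ : Fml) (v v' : ℕ → BSet B) :
    (⨅ i, eqB (v i) (v' i)) ⊓ bval φ v ≤ bval φ v' := by
  induction φ generalizing v v' with
  | mem i j =>
    change _ ⊓ memB (v i) (v j) ≤ memB (v' i) (v' j)
    have h1 : (⨅ i, eqB (v i) (v' i)) ⊓ memB (v i) (v j) ≤
        eqB (v j) (v' j) ⊓ (eqB (v i) (v' i) ⊓ memB (v i) (v j)) :=
      le_inf (inf_le_left.trans (iInf_le _ j)) (inf_le_inf_right _ (iInf_le _ i))
    refine h1.trans ?_
    refine (inf_le_inf_left _ (memB_congr_left _ (v' i) _)).trans ?_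
    exact memB_congr_right _ _ _
  | eq i j =>
    change _ ⊓ eqB (v i) (v j) ≤ eqB (v' i) (v' j)
    have h1 : (⨅ i, eqB (v i) (v' i)) ⊓ eqB (v i) (v j) ≤
        eqB (v j) (v' j) ⊓ (eqB (v i) (v' i) ⊓ eqB (v i) (v j)) :=
      le_inf (inf_le_left.trans (iInf_le _ j)) (inf_le_inf_right _ (iInf_le _ i))
    refine h1.trans ?_
    refine (inf_le_inf_left _ (extB_eqB_left (v j) (v i) (v' i))).trans ?_
    exact extB_eqB_right (v' i) (v j) (v' j)
  | bot => exact inf_le_right
  | imp φ ψ ihφ ihψ =>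
    change _ ⊓ (bval φ v ⇨ bval ψ v) ≤ bval φ v' ⇨ bval ψ v'
    rw [le_himp_iff]
    have h2 : (⨅ i, eqB (v i) (v' i)) ⊓ bval φ v' ≤ bval φ v := by
      have := ihφ v' v
      have h3 : (⨅ i, eqB (v' i) (v i)) = ⨅ i, eqB (v i) (v' i) :=
        iInf_congr fun i => eqB_symm _ _
      rw [h3] at this
      exact this
    refine le_trans ?_ (ihψ v v')
    refine le_inf (inf_le_left.trans inf_le_left) ?_
    have h4 : (⨅ i, eqB (v i) (v' i)) ⊓ (bval φ v ⇨ bval ψ v) ⊓ bval φ v' ≤
        (bval φ v ⇨ bval ψ v) ⊓ bval φ v :=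
      le_inf (inf_le_left.trans inf_le_right)
        (le_trans (le_inf (inf_le_left.trans inf_le_left) inf_le_right) h2)
    exact h4.trans himp_inf_le
  | all i φ ih =>
    change _ ⊓ (⨅ a, bval φ (update v i a)) ≤ ⨅ a, bval φ (update v' i a)
    refine le_iInf fun a => ?_
    refine le_trans ?_ (ih (update v i a) (update v' i a))
    exact inf_le_inf (C1_upd v v' i a) (iInf_le _ a)

theorem extB_bval (φ : Fml) (v : ℕ → BSet B) (i : ℕ) : ExtB (fun a => bval φ (update v i a)) := by
  intro a a'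
  refine le_trans ?_ (bval_congr φ (update v i a) (update v i a'))
  refine inf_le_inf_right _ (le_iInf fun j => ?_)
  by_cases h : j = i
  · subst h
    rw [update_self, update_self]
  · rw [update_of_ne h, update_of_ne h, eqB_refl]
    exact le_top

end Pool.Agent.H5Z.BSet
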