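import Pool.Agent.Lib.H5Z.CModel

/-! Chunk C2B. -/

set_option autoImplicit false

open Set Function

namespace Pool.Agent.H5Z.BSet

variable {B : Type} [CompleteBooleanAlgebra B]

theorem le_eqB (x y : BSet B) (b : B) (h1 : ∀ i : x.Ix, b ⊓ x.val i ≤ memB (x.el i) y)
    (h2 : ∀ j : y.Ix, b ⊓ y.val j ≤ memB (y.el j) x) : b ≤ eqB x y := by
  rw [eqB_def]
  refine le_inf (le_iInf fun i => ?_) (le_iInf fun j => ?_)
  · rw [le_himp_iff, ← memB_def]
    exact h1 i
  · rw [le_himp_iff]
    refine (h2 j).trans ?_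
    rw [memB_def]
    exact iSup_mono fun i => by rw [eqB_symm]

theorem ext_le (x y : BSet B) :
    (⨅ z, (memB z x ⇨ memB z y) ⊓ (memB z y ⇨ memB z x)) ≤ eqB x y := by
  refine le_eqB x y _ (fun i => ?_) (fun j => ?_)
  · rw [← le_himp_iff]
    refine (iInf_le _ (x.el i)).trans (inf_le_left.trans ?_)
    exact himp_le_himp_right (val_le_memB x i)
  · rw [← le_himp_iff]
    refine (iInf_le _ (y.el j)).trans (inf_le_right.trans ?_)
    exact himp_le_himp_right (val_le_memB y j)

end Pool.Agent.H5Z.BSet
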