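import Pool.Agent.Lib.H5Z.C2A
import Pool.Agent.Lib.H5Z.C2B

/-! Chunk C2: bounded quantifiers. -/
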