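import Pool.Agent.Lib.H5Z.CModel

/-! Chunk C2A. -/

set_option autoImplicit false

open Set Function

namespace Pool.Agent.H5Z.BSet

variable {B : Type} [CompleteBooleanAlgebra B]

theorem iSup_memB (F : BSet B → B) (hF : ExtB F) (x : BSet B) :
    (⨆ z, memB z x ⊓ F z) = ⨆ i : x.Ix, x.val i ⊓ F (x.el i) := by
  apply le_antisymm
  · refine iSup_le fun z => ?_
    rw [memB_def, iSup_inf_eq]
    refine iSup_mono fun i => ?_
    refine le_inf (inf_le_left.trans inf_le_left) ?_
    refine le_trans (le_inf (inf_le_left.trans inf_le_right) inf_le_right) (hF z (x.el i))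
  · refine iSup_le fun i => ?_
    exact le_iSup_of_le (x.el i) (inf_le_inf_right _ (val_le_memB x i))

theorem iInf_memB (F : BSet B → B) (hF : ExtB F) (x : BSet B) :
    (⨅ z, memB z x ⇨ F z) = ⨅ i : x.Ix, x.val i ⇨ F (x.el i) := by
  apply le_antisymm
  · refine le_iInf fun i => ?_
    refine (iInf_le _ (x.el i)).trans ?_
    exact himp_le_himp_right (val_le_memB x i)
  · refine le_iInf fun z => ?_
    rw [le_himp_iff, memB_def, inf_iSup_eq]
    refine iSup_le fun i => ?_
    have h1 : (⨅ i : x.Ix, x.val i ⇨ F (x.el i)) ⊓ x.val i ≤ F (x.el i) := by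
      rw [← le_himp_iff]
      exact iInf_le _ i
    refine le_trans (le_inf ?_ ?_) (hF (x.el i) z)
    · rw [eqB_symm]
      exact inf_le_right.trans inf_le_right
    · exact le_trans (le_inf inf_le_left (inf_le_right.trans inf_le_left)) h1

end Pool.Agent.H5Z.BSet
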