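import Pool.Agent.Lib.H5Z.BSet

/-!
# Boolean-valued equality and membership: basic laws
-/

set_option autoImplicit false

open Set Function

namespace Pool.Agent.H5Z.BSet

variable {B : Type} [CompleteBooleanAlgebra B]

theorem eqB_def (x y : BSet B) : eqB x y =
    (⨅ i : x.Ix, x.val i ⇨ ⨆ j : y.Ix, y.val j ⊓ eqB (x.el i) (y.el j)) ⊓
      ⨅ j : y.Ix, y.val j ⇨ ⨆ i : x.Ix, x.val i ⊓ eqB (x.el i) (y.el j) := by
  cases x; cases y; rfl

theorem memB_def (x y : BSet B) : memB x y = ⨆ j : y.Ix, y.val j ⊓ eqB x (y.el j) := by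
  cases y; rfl

theorem eqB_refl (x : BSet B) : eqB x x = ⊤ := by
  induction x with
  | mk ι a u ih =>
    rw [eqB_def, eq_top_iff]
    refine le_inf (le_iInf fun i => ?_) (le_iInf fun i => ?_)
    · rw [le_himp_iff, top_inf_eq]
      refine le_iSup_of_le i ?_
      have := ih i
      change u i ≤ u i ⊓ eqB (a i) (a i)
      rw [this, inf_top_eq]
    · rw [le_himp_iff, top_inf_eq]
      refine le_iSup_of_le i ?_
      have := ih i
      change u i ≤ u i ⊓ eqB (a i) (a i)
      rw [this, inf_top_eq]

theorem eqB_symm (x y : BSet B) : eqB x y = eqB y x := by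
  induction x generalizing y with
  | mk ι a u ih =>
    rw [eqB_def, eqB_def y, inf_comm]
    congr 1
    · refine iInf_congr fun j => ?_
      congr 1
      refine iSup_congr fun i => ?_
      congr 1
      exact ih i _
    · refine iInf_congr fun i => ?_
      congr 1
      refine iSup_congr fun j => ?_
      congr 1
      exact ih i _

theorem eqB_trans (x y z : BSet B) : eqB x y ⊓ eqB y z ≤ eqB x z := by
  induction x generalizing y z with
  | mk ι a u ih =>
    rw [eqB_def (mk ι a u) z]
    refine le_inf (le_iInf fun i => ?_) (le_iInf fun k => ?_)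
    · rw [le_himp_iff]
      have h1 : eqB (mk ι a u) y ⊓ u i ≤ ⨆ j : y.Ix, y.val j ⊓ eqB (a i) (y.el j) := by
        rw [eqB_def, ← le_himp_iff]
        exact inf_le_left.trans (iInf_le _ i)
      have h2 : eqB (mk ι a u) y ⊓ eqB y z ⊓ u i ≤
          (⨆ j : y.Ix, y.val j ⊓ eqB (a i) (y.el j)) ⊓ eqB y z := by
        refine le_inf (le_trans ?_ h1) (inf_le_left.trans inf_le_right)
        exact le_inf (inf_le_left.trans inf_le_left) inf_le_right
      refine h2.trans ?_
      rw [iSup_inf_eq]
      refine iSup_le fun j => ?_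
      have h3 : eqB y z ⊓ y.val j ≤ ⨆ k : z.Ix, z.val k ⊓ eqB (y.el j) (z.el k) := by
        rw [eqB_def, ← le_himp_iff]
        exact inf_le_left.trans (iInf_le _ j)
      have h4 : y.val j ⊓ eqB (a i) (y.el j) ⊓ eqB y z ≤
          (⨆ k : z.Ix, z.val k ⊓ eqB (y.el j) (z.el k)) ⊓ eqB (a i) (y.el j) := by
        refine le_inf (le_trans ?_ h3) (inf_le_left.trans inf_le_right)
        exact le_inf inf_le_right (inf_le_left.trans inf_le_left)
      refine h4.trans ?_
      rw [iSup_inf_eq]
      refine iSup_mono fun k => ?_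
      refine le_inf (inf_le_left.trans inf_le_left) ?_
      refine le_trans ?_ (ih i (y.el j) (z.el k))
      exact le_inf inf_le_right (inf_le_left.trans inf_le_right)
    · rw [le_himp_iff]
      have h1 : eqB y z ⊓ z.val k ≤ ⨆ j : y.Ix, y.val j ⊓ eqB (y.el j) (z.el k) := by
        rw [eqB_def, ← le_himp_iff]
        exact inf_le_right.trans (iInf_le _ k)
      have h2 : eqB (mk ι a u) y ⊓ eqB y z ⊓ z.val k ≤
          (⨆ j : y.Ix, y.val j ⊓ eqB (y.el j) (z.el k)) ⊓ eqB (mk ι a u) y := by
        refine le_inf (le_trans ?_ h1) (inf_le_left.trans inf_le_left)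
        exact le_inf (inf_le_left.trans inf_le_right) inf_le_right
      refine h2.trans ?_
      rw [iSup_inf_eq]
      refine iSup_le fun j => ?_
      have h3 : eqB (mk ι a u) y ⊓ y.val j ≤ ⨆ i : ι, u i ⊓ eqB (a i) (y.el j) := by
        rw [eqB_def, ← le_himp_iff]
        exact inf_le_right.trans (iInf_le _ j)
      have h4 : y.val j ⊓ eqB (y.el j) (z.el k) ⊓ eqB (mk ι a u) y ≤
          (⨆ i : ι, u i ⊓ eqB (a i) (y.el j)) ⊓ eqB (y.el j) (z.el k) := by
        refine le_inf (le_trans ?_ h3) (inf_le_left.trans inf_le_right)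
        exact le_inf inf_le_right (inf_le_left.trans inf_le_left)
      refine h4.trans ?_
      rw [iSup_inf_eq]
      refine iSup_mono fun i => ?_
      refine le_inf (inf_le_left.trans inf_le_left) ?_
      refine le_trans ?_ (ih i (y.el j) (z.el k))
      exact le_inf (inf_le_left.trans inf_le_right) inf_le_right

theorem memB_congr_left (x x' y : BSet B) : eqB x x' ⊓ memB x y ≤ memB x' y := by
  rw [memB_def, memB_def x', inf_iSup_eq]
  refine iSup_mono fun j => ?_
  refine le_inf (inf_le_right.trans inf_le_left) ?_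
  refine le_trans ?_ (eqB_trans x' x _)
  rw [eqB_symm x' x]
  exact le_inf inf_le_left (inf_le_right.trans inf_le_right)

theorem memB_congr_right (x y y' : BSet B) : eqB y y' ⊓ memB x y ≤ memB x y' := by
  rw [memB_def, inf_iSup_eq]
  refine iSup_le fun j => ?_
  have h3 : eqB y y' ⊓ y.val j ≤ ⨆ k : y'.Ix, y'.val k ⊓ eqB (y.el j) (y'.el k) := by
    rw [eqB_def, ← le_himp_iff]
    exact inf_le_left.trans (iInf_le _ j)
  have h4 : eqB y y' ⊓ (y.val j ⊓ eqB x (y.el j)) ≤
      (⨆ k : y'.Ix, y'.val k ⊓ eqB (y.el j) (y'.el k)) ⊓ eqB x (y.el j) := by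
    refine le_inf (le_trans ?_ h3) (inf_le_right.trans inf_le_right)
    exact le_inf inf_le_left (inf_le_right.trans inf_le_left)
  refine h4.trans ?_
  rw [iSup_inf_eq, memB_def]
  refine iSup_mono fun k => ?_
  refine le_inf (inf_le_left.trans inf_le_left) ?_
  refine le_trans ?_ (eqB_trans x (y.el j) _)
  exact le_inf inf_le_right (inf_le_left.trans inf_le_right)

theorem val_le_memB (x : BSet B) (i : x.Ix) : x.val i ≤ memB (x.el i) x := by
  rw [memB_def]
  refine le_iSup_of_le i ?_
  rw [eqB_refl, inf_top_eq]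

theorem extB_memB_left (y : BSet B) : ExtB (fun x => memB x y) :=
  fun a a' => memB_congr_left a a' y

theorem extB_memB_right (x : BSet B) : ExtB (fun y => memB x y) :=
  fun a a' => memB_congr_right x a a'

theorem extB_eqB_left (y : BSet B) : ExtB (fun x => eqB x y) := fun a a' => by
  have := eqB_trans a' a y
  rw [eqB_symm a' a] at this
  exact this

theorem extB_eqB_right (x : BSet B) : ExtB (fun y => eqB x y) := fun a a' => by
  have := eqB_trans x a a'
  rw [inf_comm]
  exact this

end Pool.Agent.H5Z.BSet
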