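import Pool.Agent.Lib.H5Z.CBase

/-!
# Extensional functions, ultrafilters, the quotient structure
-/

set_option autoImplicit false

open Set Function

namespace Pool.Agent.H5Z

open BSet

/-- Ultrafilters on `B`. -/
structure UF (B : Type) [CompleteBooleanAlgebra B] where
  s : Set B
  top : ⊤ ∈ s
  bot : ⊥ ∉ s
  up : ∀ a b, a ∈ s → a ≤ b → b ∈ s
  inf : ∀ a b, a ∈ s → b ∈ s → a ⊓ b ∈ s
  ultra : ∀ a, a ∈ s ∨ aᶜ ∈ s

variable {B : Type} [CompleteBooleanAlgebra B]

/-- The equivalence relation `⟦x = y⟧ ∈ U`. -/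
def stp (U : UF B) : Setoid (BSet B) where
  r x y := eqB x y ∈ U.s
  iseqv := ⟨fun x => by rw [eqB_refl]; exact U.top, fun {x y} h => by rw [eqB_symm]; exact h,
    fun {x y z} h h' => U.up _ _ (U.inf _ _ h h') (eqB_trans x y z)⟩

/-- The quotient structure. -/
def Mod (U : UF B) : Type 1 := Quotient (stp U)

/-- class of a name -/
def cls (U : UF B) (x : BSet B) : Mod U := Quotient.mk (stp U) x

/-- The membership relation of `Mod U`. -/
def EU (U : UF B) : Mod U → Mod U → Prop :=
  Quotient.lift₂ (fun x y => memB x y ∈ U.s) (by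
    intro a b a' b' h h'
    apply propext
    constructor
    · intro hm
      have h1 : memB a' b ∈ U.s := U.up _ _ (U.inf _ _ h hm) (memB_congr_left a a' b)
      exact U.up _ _ (U.inf _ _ h' h1) (memB_congr_right a' b b')
    · intro hm
      have h1 : memB a b' ∈ U.s := U.up _ _ (U.inf _ _ ((stp U).symm h) hm)
        (memB_congr_left a' a b')
      exact U.up _ _ (U.inf _ _ ((stp U).symm h') h1) (memB_congr_right a b' b))

theorem EU_cls (U : UF B) (x y : BSet B) : EU U (cls U x) (cls U y) ↔ memB x y ∈ U.s := Iff.rfl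

theorem cls_eq (U : UF B) (x y : BSet B) : cls U x = cls U y ↔ eqB x y ∈ U.s :=
  ⟨fun h => Quotient.exact h, fun h => Quotient.sound (s := stp U) h⟩

theorem exists_cls (U : UF B) (a : Mod U) : ∃ x, cls U x = a :=
  Quotient.exists_rep a

theorem UF.not_both (U : UF B) (a : B) (h : a ∈ U.s) (h' : aᶜ ∈ U.s) : False := by
  have := U.inf _ _ h h'
  rw [inf_compl_eq_bot] at this
  exact U.bot this

theorem UF.compl_mem (U : UF B) (a : B) : aᶜ ∈ U.s ↔ a ∉ U.s :=
  ⟨fun h h' => U.not_both a h' h, fun h => (U.ultra a).resolve_left h⟩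

theorem UF.inf_mem (U : UF B) (a b : B) : a ⊓ b ∈ U.s ↔ a ∈ U.s ∧ b ∈ U.s :=
  ⟨fun h => ⟨U.up _ _ h inf_le_left, U.up _ _ h inf_le_right⟩, fun h => U.inf _ _ h.1 h.2⟩

theorem UF.himp_mem (U : UF B) (a b : B) : a ⇨ b ∈ U.s ↔ (a ∈ U.s → b ∈ U.s) := by
  constructor
  · intro h ha
    refine U.up _ _ (U.inf _ _ h ha) ?_
    exact himp_inf_le
  · intro h
    by_cases ha : a ∈ U.s
    · exact U.up _ _ (h ha) le_himp
    · have := (U.compl_mem a).2 ha
      refine U.up _ _ this ?_
      rw [himp_eq]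
      exact le_sup_right

theorem UF.sup_mem (U : UF B) (a b : B) : a ⊔ b ∈ U.s ↔ a ∈ U.s ∨ b ∈ U.s := by
  constructor
  · intro h
    by_contra hc
    push Not at hc
    have h1 := (U.compl_mem a).2 hc.1
    have h2 := (U.compl_mem b).2 hc.2
    have h3 := U.inf _ _ h1 h2
    rw [← compl_sup] at h3
    exact U.not_both _ h h3
  · rintro (h | h)
    · exact U.up _ _ h le_sup_left
    · exact U.up _ _ h le_sup_right

end Pool.Agent.H5Z
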