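import Pool.Agent.Lib.H5Z.DNames

/-! Chunk D1: fresh variables. -/

set_option autoImplicit false

open Set Function

namespace Pool.Agent.H5Z

open BSet Fml

variable {B : Type} [CompleteBooleanAlgebra B]

theorem bval_fresh (i : ℕ) (φ : Fml) (h : fresh i φ = true) (v : ℕ → BSet B) (a : BSet B) :
    bval φ (update v i a) = bval φ v := by
  induction φ generalizing v with
  | mem x y =>
    simp only [fresh, Bool.and_eq_true, decide_eq_true_eq] at h
    simp only [bval]
    rw [update_of_ne (Ne.symm h.1), update_of_ne (Ne.symm h.2)]
  | eq x y =>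
    simp only [fresh, Bool.and_eq_true, decide_eq_true_eq] at h
    simp only [bval]
    rw [update_of_ne (Ne.symm h.1), update_of_ne (Ne.symm h.2)]
  | bot => rfl
  | imp φ ψ ih1 ih2 =>
    simp only [fresh, Bool.and_eq_true] at h
    simp only [bval]
    rw [ih1 h.1, ih2 h.2]
  | all j φ ih =>
    simp only [fresh, Bool.or_eq_true, decide_eq_true_eq] at h
    simp only [bval]
    refine iInf_congr fun b => ?_
    by_cases hij : i = j
    · subst hij
      rw [update_idem]
    · rw [update_comm hij]
      exact ih (h.resolve_left hij) _

end Pool.Agent.H5Z
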