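import Pool.Agent.Lib.H5Z.CModel

/-!
# Formula combinators and the formula of the gap property
-/

set_option autoImplicit false

open Set Function

namespace Pool.Agent.H5Z

namespace Fml

def neg (φ : Fml) : Fml := imp φ bot
def conj (φ ψ : Fml) : Fml := neg (imp φ (neg ψ))
def disj (φ ψ : Fml) : Fml := imp (neg φ) ψ
def iff (φ ψ : Fml) : Fml := conj (imp φ ψ) (imp ψ φ)
def ex (i : ℕ) (φ : Fml) : Fml := neg (all i (neg φ))

/-- `w` is inductive (bound variables 101, 102, 103) -/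
def fInd (w : ℕ) : Fml :=
  conj (ex 101 (conj (mem 101 w) (all 102 (neg (mem 102 101)))))
    (all 101 (imp (mem 101 w) (ex 102 (conj (mem 102 w)
      (all 103 (iff (mem 103 102) (disj (mem 103 101) (eq 103 101))))))))

/-- `w` is the least inductive set (bound variables 104, 105) -/
def fOmega (w : ℕ) : Fml :=
  conj (fInd w) (all 104 (imp (fInd 104) (all 105 (imp (mem 105 w) (mem 105 104)))))

/-- `p = (x, y)` (bound variables 101, 102) -/
def fPair (p x y : ℕ) : Fml :=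
  all 101 (iff (mem 101 p) (disj (all 102 (iff (mem 102 101) (eq 102 x)))
    (all 102 (iff (mem 102 101) (disj (eq 102 x) (eq 102 y))))))

/-- `(x, y) ∈ r` (bound variable 103) -/
def fRel (x y r : ℕ) : Fml := ex 103 (conj (fPair 103 x y) (mem 103 r))

/-- `j ∈ dom t`, with values in `w` (bound variable 104) -/
def fDom (w j t : ℕ) : Fml := ex 104 (conj (mem 104 w) (fRel j 104 t))

/-- almost all `j` satisfy `φ` (bound variable 99) -/
def fAA (w j : ℕ) (φ : Fml) : Fml :=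
  ex 99 (conj (mem 99 w) (all j (imp (mem j w) (imp (neg (mem j 99)) φ))))

/-- Variables: `w = 0`, `W = 1`, `T = 2`, `t = 3`, `t' = 4`, `t'' = 5`, `j = 6`, `k = 7`, `k' = 8`,
`Y = 9`, `D = 10`. -/
def g1 : Fml :=
  all 3 (all 6 (all 7 (all 8 (imp (mem 3 1) (imp (mem 6 0) (imp (mem 7 0) (imp (mem 8 0)
    (imp (fRel 6 7 3) (imp (fRel 6 8 3) (eq 7 8))))))))))

def g2 : Fml :=
  all 3 (all 4 (imp (mem 3 1) (imp (mem 4 1) (ex 5 (conj (mem 5 1)
    (fAA 0 6 (imp (disj (fDom 0 6 3) (fDom 0 6 4)) (fDom 0 6 5))))))))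

def g3 : Fml := all 3 (imp (mem 3 1) (neg (fAA 0 6 (fDom 0 6 3))))

def g4 : Fml :=
  all 9 (ex 3 (conj (mem 3 1) (disj (fAA 0 6 (imp (mem 6 9) (fDom 0 6 3)))
    (fAA 0 6 (imp (neg (mem 6 9)) (fDom 0 6 3))))))

def g5 : Fml :=
  all 3 (all 4 (all 7 (imp (mem 3 1) (imp (mem 4 1) (imp (mem 7 0)
    (fAA 0 6 (imp (fDom 0 6 3) (imp (fDom 0 6 4) (iff (fRel 6 7 3) (fRel 6 7 4))))))))))

def g6a : Fml :=
  all 3 (all 4 (imp (mem 3 1) (imp (mem 4 1)
    (fAA 0 6 (imp (fDom 0 6 3) (imp (fDom 0 6 4) (iff (fRel 3 6 10) (fRel 4 6 10))))))))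

def g6b : Fml :=
  all 3 (all 7 (imp (mem 3 1) (imp (mem 7 0)
    (fAA 0 6 (imp (fRel 6 7 3) (iff (fRel 3 6 10) (mem 7 2)))))))

def g6 : Fml := all 10 (neg (conj g6a g6b))

/-- the body of the gap property, with free variables 0, 1, 2 -/
def gBody : Fml := conj (fOmega 0) (conj g1 (conj g2 (conj g3 (conj g4 (conj g5 g6)))))

/-- the gap property -/
def gGap : Fml := ex 0 (ex 1 (ex 2 gBody))

end Fml

open Fml

/-! ### Satisfaction of the combinators -/

section

variable {M : Type*} (E : M → M → Prop)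

theorem sat_neg (φ : Fml) (v : ℕ → M) : Sat E (neg φ) v ↔ ¬ Sat E φ v := Iff.rfl

theorem sat_conj (φ ψ : Fml) (v : ℕ → M) : Sat E (conj φ ψ) v ↔ Sat E φ v ∧ Sat E ψ v := by
  simp only [conj, neg, Sat]
  tauto

theorem sat_disj (φ ψ : Fml) (v : ℕ → M) : Sat E (disj φ ψ) v ↔ Sat E φ v ∨ Sat E ψ v := by
  simp only [disj, neg, Sat]
  tauto

theorem sat_iff (φ ψ : Fml) (v : ℕ → M) : Sat E (Fml.iff φ ψ) v ↔ (Sat E φ v ↔ Sat E ψ v) := by
  simp only [Fml.iff, sat_conj, Sat]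
  tauto

theorem sat_ex (i : ℕ) (φ : Fml) (v : ℕ → M) :
    Sat E (ex i φ) v ↔ ∃ a, Sat E φ (update v i a) := by
  simp only [ex, neg, Sat]
  constructor
  · intro h
    by_contra hc
    exact h fun a ha => hc ⟨a, ha⟩
  · rintro ⟨a, ha⟩ h
    exact h a ha

end

/-! ### Boolean values of the combinators -/

section

open BSet

variable {B : Type} [CompleteBooleanAlgebra B]

theorem bval_neg (φ : Fml) (v : ℕ → BSet B) : bval (neg φ) v = (bval φ v)ᶜ := by
  simp only [neg, bval, himp_bot]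

theorem bval_conj (φ ψ : Fml) (v : ℕ → BSet B) : bval (conj φ ψ) v = bval φ v ⊓ bval ψ v := by
  simp only [conj, bval_neg, bval, himp_eq, compl_sup, compl_compl]
  rw [inf_comm]

theorem bval_disj (φ ψ : Fml) (v : ℕ → BSet B) : bval (disj φ ψ) v = bval φ v ⊔ bval ψ v := by
  simp only [disj, bval_neg, bval, himp_eq, compl_compl]
  rw [sup_comm]

theorem bval_iff (φ ψ : Fml) (v : ℕ → BSet B) :
    bval (Fml.iff φ ψ) v = (bval φ v ⇨ bval ψ v) ⊓ (bval ψ v ⇨ bval φ v) := by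
  simp only [Fml.iff, bval_conj, bval]

theorem bval_ex (i : ℕ) (φ : Fml) (v : ℕ → BSet B) :
    bval (ex i φ) v = ⨆ a : BSet B, bval φ (update v i a) := by
  simp only [ex, bval_neg, bval, compl_iInf, compl_compl]

end

end Pool.Agent.H5Z
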