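import Pool.Agent.Lib.H5Z.DForm
import Pool.Agent.Lib.H5Z.BGap
import Pool.Agent.Lib.H5Z.C1
import Pool.Agent.Lib.H5Z.C2

/-!
# Names for natural numbers, pairs, and the family
-/

set_option autoImplicit false

open Set Function

namespace Pool.Agent.H5Z

open BSet

/-- `i` does not occur free in the formula (sufficient criterion) -/
def fresh (i : ℕ) : Fml → Bool
  | Fml.mem a b => decide (i ≠ a) && decide (i ≠ b)
  | Fml.eq a b => decide (i ≠ a) && decide (i ≠ b)
  | Fml.bot => true
  | Fml.imp φ ψ => fresh i φ && fresh i ψ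
  | Fml.all j φ => decide (i = j) || fresh i φ

variable {B : Type} [CompleteBooleanAlgebra B]

/-- canonical name of a natural number -/
def nchk : ℕ → BSet B
  | n => BSet.mk (Fin n) (fun i => nchk i.1) (fun _ => ⊤)
termination_by n => n
decreasing_by exact i.2

theorem nchk_eq (n : ℕ) : (nchk n : BSet B) = BSet.mk (Fin n) (fun i => nchk i.1) (fun _ => ⊤) := by
  rw [nchk]

/-- canonical name of `ω` -/
def omB : BSet B := BSet.mk ℕ nchk (fun _ => ⊤)

/-- name of the ordered pair -/
def opair (x y : BSet B) : BSet B :=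
  BSet.mk Bool (fun b => cond b (BSet.mk Unit (fun _ => x) (fun _ => ⊤))
    (BSet.mk Bool (fun c => cond c x y) (fun _ => ⊤))) (fun _ => ⊤)

/-- name of a partial function from `ω` to `ω` -/
def tn (s : ℕ → ℕ → B) : BSet B :=
  BSet.mk (ℕ × ℕ) (fun p => opair (nchk p.1) (nchk p.2)) (fun p => s p.1 p.2)

/-- name of the set of the partial functions `s i` -/
def WB (ι : Type) (s : ι → ℕ → ℕ → B) : BSet B := BSet.mk ι (fun i => tn (s i)) (fun _ => ⊤)

/-- name of the set of even numbers -/
def TB : BSet B := BSet.mk ℕ nchk (fun k => if Even k then ⊤ else ⊥)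

end Pool.Agent.H5Z
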