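import Mathlib

/-!
# Definitions used in the statement for MP_633594_lc

* the first-order language of set theory, structures `(M, E)`, the axioms of ZFC;
* the sentence `GapIn` (a gap property of the natural numbers, expressed in a structure `(M, E)`);
* `ω* = βω ∖ ω` and Parovicenko spaces.
-/

set_option autoImplicit false

open Set Function TopologicalSpace

namespace Pool.Agent.H5Z

/-! ### The language of set theory -/

/-- Formulas of the first-order language of set theory, with variables indexed by `ℕ`. -/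
inductive Fml : Type
  | mem (i j : ℕ) : Fml
  | eq (i j : ℕ) : Fml
  | bot : Fml
  | imp (φ ψ : Fml) : Fml
  | all (i : ℕ) (φ : Fml) : Fml

/-- Satisfaction of a formula in the structure `(M, E)` under the assignment `v`. -/
def Sat {M : Type*} (E : M → M → Prop) : Fml → (ℕ → M) → Prop
  | Fml.mem i j, v => E (v i) (v j)
  | Fml.eq i j, v => v i = v j
  | Fml.bot, _ => False
  | Fml.imp φ ψ, v => Sat E φ v → Sat E ψ v
  | Fml.all i φ, v => ∀ a : M, Sat E φ (update v i a)

/-- `(M, E)` is a model of ZFC. -/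
structure ModelsZFC {M : Type*} (E : M → M → Prop) : Prop where
  /-- extensionality -/
  ext : ∀ x y : M, (∀ z, E z x ↔ E z y) → x = y
  /-- foundation -/
  found : ∀ x : M, (∃ y, E y x) → ∃ y, E y x ∧ ∀ z, E z y → ¬ E z x
  /-- pairing -/
  pair : ∀ x y : M, ∃ p, ∀ z, E z p ↔ z = x ∨ z = y
  /-- union -/
  union : ∀ x : M, ∃ u, ∀ z, E z u ↔ ∃ y, E y x ∧ E z y
  /-- power set -/
  power : ∀ x : M, ∃ p, ∀ z, E z p ↔ ∀ w, E w z → E w x
  /-- infinity -/
  inf : ∃ w : M, (∃ e, E e w ∧ ∀ z, ¬ E z e) ∧
    ∀ x, E x w → ∃ s, E s w ∧ ∀ z, E z s ↔ E z x ∨ z = x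
  /-- separation schema -/
  sep : ∀ (φ : Fml) (v : ℕ → M) (a : M), ∃ b, ∀ z, E z b ↔ E z a ∧ Sat E φ (update v 0 z)
  /-- replacement schema -/
  repl : ∀ (φ : Fml) (v : ℕ → M) (a : M),
    (∀ x, E x a → ∃! y, Sat E φ (update (update v 0 x) 1 y)) →
      ∃ b, ∀ y, E y b ↔ ∃ x, E x a ∧ Sat E φ (update (update v 0 x) 1 y)
  /-- choice: a set of nonempty pairwise disjoint sets has a choice set -/
  choice : ∀ x : M, (∀ y, E y x → ∃ z, E z y) →
    (∀ y y' z, E y x → E y' x → E z y → E z y' → y = y') →
      ∃ c, ∀ y, E y x → ∃! z, E z c ∧ E z y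

/-! ### Set-theoretic notions inside a structure `(M, E)` -/

section Notions

variable {M : Type*} (E : M → M → Prop)

/-- `w` is inductive. -/
def IsInd (w : M) : Prop :=
  (∃ e, E e w ∧ ∀ z, ¬ E z e) ∧ ∀ x, E x w → ∃ s, E s w ∧ ∀ z, E z s ↔ E z x ∨ z = x

/-- `w` is the least inductive set, the set of natural numbers of `(M, E)`. -/
def IsOmega (w : M) : Prop := IsInd E w ∧ ∀ u, IsInd E u → ∀ z, E z w → E z u

/-- `p` is the Kuratowski pair `(x, y) = {{x}, {x, y}}`. -/
def IsPair (p x y : M) : Prop :=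
  ∀ z, E z p ↔ (∀ u, E u z ↔ u = x) ∨ ∀ u, E u z ↔ u = x ∨ u = y

/-- `(x, y) ∈ r`. -/
def Rel (x y r : M) : Prop := ∃ p, IsPair E p x y ∧ E p r

/-- `j` is in the domain of the relation `t`, with values in `w`. -/
def Dom (w j t : M) : Prop := ∃ k, E k w ∧ Rel E j k t

/-- `P j` holds for all but finitely many natural numbers `j` of `(M, E)`. -/
def AA (w : M) (P : M → Prop) : Prop := ∃ n, E n w ∧ ∀ j, E j w → ¬ E j n → P j

/-- The gap property. There are, in `(M, E)`, a set `W` of partial functions from `ω` to `ω` and a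
set `T` such that
* the domains of the members of `W` are directed under inclusion modulo finite sets, are not
  cofinite, and each set of natural numbers or its complement is covered modulo a finite set by one
  of them (so the domains generate a maximal ideal);
* for all `t, t'` in `W` and all `k ∈ ω` the sets `{t = k}` and `{t' = k}` agree on the
  intersection of the domains modulo a finite set;
* there is no `D ⊆ W × ω` for which the sets `D t = {j : (t, j) ∈ D}` agree on the intersection of
  the domains modulo finite sets and for which, for all `t` in `W` and all `k ∈ ω`, `D t`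
  contains `{t = k}` modulo a finite set if `k ∈ T`, and is disjoint from it modulo a finite set if
  `k ∉ T`. -/
def GapIn : Prop :=
  ∃ w W T : M, IsOmega E w ∧
    (∀ t j k k', E t W → E j w → E k w → E k' w → Rel E j k t → Rel E j k' t → k = k') ∧
    (∀ t t', E t W → E t' W → ∃ t'', E t'' W ∧
      AA E w fun j => Dom E w j t ∨ Dom E w j t' → Dom E w j t'') ∧
    (∀ t, E t W → ¬ AA E w fun j => Dom E w j t) ∧
    (∀ Y, ∃ t, E t W ∧ ((AA E w fun j => E j Y → Dom E w j t) ∨
      AA E w fun j => ¬ E j Y → Dom E w j t)) ∧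
    (∀ t t' k, E t W → E t' W → E k w →
      AA E w fun j => Dom E w j t → Dom E w j t' → (Rel E j k t ↔ Rel E j k t')) ∧
    ∀ D, ¬ ((∀ t t', E t W → E t' W →
        AA E w fun j => Dom E w j t → Dom E w j t' → (Rel E t j D ↔ Rel E t' j D)) ∧
      ∀ t k, E t W → E k w → AA E w fun j => Rel E j k t → (Rel E t j D ↔ E k T))

end Notions

/-! ### Topology -/

/-- `ω* = βω ∖ ω`: the space of nonprincipal ultrafilters on `ℕ`, as a subspace of the Stone-Cech
compactification `βω = Ultrafilter ℕ` of the discrete space `ℕ`. -/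
def OmegaStar : Set (Ultrafilter ℕ) := {u | ∀ n : ℕ, u ≠ pure n}

/-- Parovicenko spaces: zero-dimensional compact Hausdorff `F`-spaces without isolated points in
which nonempty `G_δ`-sets have nonempty interior. (`F`-space: cozero-sets are `C*`-embedded.) -/
structure IsParovicenko (X : Type*) [TopologicalSpace X] : Prop where
  compact : CompactSpace X
  t2 : T2Space X
  zeroDim : IsTopologicalBasis {U : Set X | IsClopen U}
  noIso : ∀ x : X, ¬ IsOpen ({x} : Set X)
  fSpace : ∀ (f : C(X, ℝ)) (g : C({x : X // f x ≠ 0}, ℝ)), (∃ b : ℝ, ∀ y, |g y| ≤ b) →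
    ∃ h : C(X, ℝ), ∀ y, h y.1 = g y
  gDelta : ∀ S : Set X, IsGδ S → S.Nonempty → (interior S).Nonempty

end Pool.Agent.H5Z
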