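import Pool.Agent.Lib.H5Z.E1

/-! Chunk E2: the clause g2 of the gap formula. -/

set_option autoImplicit false

open Set Function

namespace Pool.Agent.H5Z

open BSet Fml

variable {B : Type} [CompleteBooleanAlgebra B]

theorem bval_g2 (ι : Type) (s : ι → ℕ → ℕ → B)
    (h : ∀ i i', ∃ i'', AAb (fun j => (dmB (s i) j ⊔ dmB (s i') j) ⇨ dmB (s i'') j) = ⊤)
    (v : ℕ → BSet B) (h0 : v 0 = omB) (h1 : v 1 = WB ι s) : bval g2 v = ⊤ := by
  have key : ∀ t t' t'', bval (fAA 0 6 (imp (disj (fDom 0 6 3) (fDom 0 6 4)) (fDom 0 6 5)))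
      (update (update (update v 3 t) 4 t') 5 t'')
      = AAb (fun j => (E1_D j t ⊔ E1_D j t') ⇨ E1_D j t'') := by
    intro t t' t''
    rw [bval_fAA _ (by decide) _ (by simp [h0])]
    congr 1
    funext j
    simp only [bval, bval_disj]
    rw [E1_fDom 6 j 3 (by decide) (by decide) _ (by simp [h0]) (by simp),
      E1_fDom 6 j 4 (by decide) (by decide) _ (by simp [h0]) (by simp),
      E1_fDom 6 j 5 (by decide) (by decide) _ (by simp [h0]) (by simp)]
    simp
  unfold g2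
  simp only [bval, bval_ex, bval_conj, key]
  rw [eq_top_iff]
  refine le_iInf fun t => le_iInf fun t' => ?_
  simp only [Function.update_self, Function.update_of_ne, ne_eq,
    Nat.reduceEqDiff, not_false_eq_true, OfNat.one_ne_ofNat, h1]
  have hF : ∀ t t', ExtB (fun t'' : BSet B => AAb (fun j => (E1_D j t ⊔ E1_D j t') ⇨ E1_D j t'')) :=
    fun t t' => E1_extB_AAb fun j => E1_extB_himp (E1_extB_const _) (E1_extB_D j)
  simp only [iSup_WB ι s _ (hF _ _)]
  refine (E1_W ι s (F := fun t => memB t' (WB ι s) ⇨ ⨆ i : ι,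
    AAb (fun j => (E1_D j t ⊔ E1_D j t') ⇨ E1_D j (tn (s i)))) ?_ (fun i => ?_) t).ge
  · exact E1_extB_himp (E1_extB_const _) (E1_extB_iSup fun i => E1_extB_AAb fun j =>
      E1_extB_himp (E1_extB_sup (E1_extB_D j) (E1_extB_const _)) (E1_extB_const _))
  refine E1_W ι s (F := fun t' => ⨆ i' : ι,
    AAb (fun j => (E1_D j (tn (s i)) ⊔ E1_D j t') ⇨ E1_D j (tn (s i')))) ?_ (fun i' => ?_) t'
  · exact E1_extB_iSup fun i => E1_extB_AAb fun j =>
      E1_extB_himp (E1_extB_sup (E1_extB_const _) (E1_extB_D j)) (E1_extB_const _)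
  simp only [E1_D_tn]
  obtain ⟨i'', hi⟩ := h i i'
  rw [eq_top_iff, ← hi]
  exact le_iSup (fun k => AAb (fun j => (dmB (s i) j ⊔ dmB (s i') j) ⇨ dmB (s k) j)) i''

end Pool.Agent.H5Z
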