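import Pool.Agent.Lib.H5Z.E1

/-! Chunk E3: the clause g3 of the gap formula. -/

set_option autoImplicit false

open Set Function

namespace Pool.Agent.H5Z

open BSet Fml

variable {B : Type} [CompleteBooleanAlgebra B]

theorem bval_g3 (ι : Type) (s : ι → ℕ → ℕ → B)
    (h : ∀ i, AAb (fun j => dmB (s i) j) = ⊥)
    (v : ℕ → BSet B) (h0 : v 0 = omB) (h1 : v 1 = WB ι s) : bval g3 v = ⊤ := by
  have key : ∀ t, bval (fAA 0 6 (fDom 0 6 3)) (update v 3 t) = AAb (fun j => E1_D j t) := by
    intro t
    rw [bval_fAA _ (by decide) _ (by simp [h0])]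
    congr 1
    funext j
    rw [E1_fDom 6 j 3 (by decide) (by decide) _ (by simp [h0]) (by simp)]
    simp
  unfold g3
  simp only [bval, bval_neg, key]
  rw [eq_top_iff]
  refine le_iInf fun t => ?_
  simp only [Function.update_self, Function.update_of_ne, ne_eq,
    not_false_eq_true, OfNat.one_ne_ofNat, h1]
  refine (E1_W ι s (F := fun t => (AAb (fun j => E1_D j t))ᶜ) ?_ (fun i => ?_) t).ge
  · exact E1_extB_compl (E1_extB_AAb fun j => E1_extB_D j)
  simp only [E1_D_tn]
  rw [h i, compl_bot]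

end Pool.Agent.H5Z
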