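import Pool.Agent.Lib.H5Z.E1

/-! Chunk E4: the clause g4 of the gap formula. -/

set_option autoImplicit false

open Set Function

namespace Pool.Agent.H5Z

open BSet Fml

variable {B : Type} [CompleteBooleanAlgebra B]

theorem bval_g4 (ι : Type) (s : ι → ℕ → ℕ → B)
    (h : ∀ y : ℕ → B, (⨆ i, AAb (fun j => y j ⇨ dmB (s i) j) ⊔
    AAb (fun j => (y j)ᶜ ⇨ dmB (s i) j)) = ⊤)
    (v : ℕ → BSet B) (h0 : v 0 = omB) (h1 : v 1 = WB ι s) : bval g4 v = ⊤ := by
  have key1 : ∀ y t, bval (fAA 0 6 (imp (mem 6 9) (fDom 0 6 3))) (update (update v 9 y) 3 t)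
      = AAb (fun j => memB (nchk j) y ⇨ E1_D j t) := by
    intro y t
    rw [bval_fAA _ (by decide) _ (by simp [h0])]
    congr 1
    funext j
    simp only [bval]
    rw [E1_fDom 6 j 3 (by decide) (by decide) _ (by simp [h0]) (by simp)]
    simp
  have key2 : ∀ y t, bval (fAA 0 6 (imp (neg (mem 6 9)) (fDom 0 6 3))) (update (update v 9 y) 3 t)
      = AAb (fun j => (memB (nchk j) y)ᶜ ⇨ E1_D j t) := by
    intro y t
    rw [bval_fAA _ (by decide) _ (by simp [h0])]
    congr 1
    funext j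
    simp only [bval, bval_neg]
    rw [E1_fDom 6 j 3 (by decide) (by decide) _ (by simp [h0]) (by simp)]
    simp
  unfold g4
  simp only [bval, bval_ex, bval_conj, bval_disj, key1, key2]
  rw [eq_top_iff]
  refine le_iInf fun y => ?_
  simp only [Function.update_self, Function.update_of_ne, ne_eq,
    not_false_eq_true, OfNat.one_ne_ofNat, h1]
  have hF : ExtB (fun t : BSet B => AAb (fun j => memB (nchk j) y ⇨ E1_D j t) ⊔
      AAb (fun j => (memB (nchk j) y)ᶜ ⇨ E1_D j t)) :=
    E1_extB_sup (E1_extB_AAb fun j => E1_extB_himp (E1_extB_const _) (E1_extB_D j))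
      (E1_extB_AAb fun j => E1_extB_himp (E1_extB_const _) (E1_extB_D j))
  rw [iSup_WB ι s _ hF]
  simp only [E1_D_tn]
  exact (h (fun j => memB (nchk j) y)).ge

end Pool.Agent.H5Z
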