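import Pool.Agent.Lib.H5Z.E1

/-! Chunk E5: the clause g5 of the gap formula. -/

set_option autoImplicit false

open Set Function

namespace Pool.Agent.H5Z

open BSet Fml

variable {B : Type} [CompleteBooleanAlgebra B]

theorem bval_g5 (ι : Type) (s : ι → ℕ → ℕ → B)
    (h : ∀ i i' k, AAb (fun j => dmB (s i) j ⇨ (dmB (s i') j ⇨ iffB (s i j k) (s i' j k))) = ⊤)
    (v : ℕ → BSet B) (h0 : v 0 = omB) (h1 : v 1 = WB ι s) : bval g5 v = ⊤ := by
  have key : ∀ t t' a, bval (fAA 0 6 (imp (fDom 0 6 3) (imp (fDom 0 6 4)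
      (iff (fRel 6 7 3) (fRel 6 7 4))))) (update (update (update v 3 t) 4 t') 7 a)
      = AAb (fun j => E1_D j t ⇨ (E1_D j t' ⇨
        iffB (memB (opair (nchk j) a) t) (memB (opair (nchk j) a) t'))) := by
    intro t t' a
    rw [bval_fAA _ (by decide) _ (by simp [h0])]
    congr 1
    funext j
    simp only [bval, bval_iff]
    rw [E1_fDom 6 j 3 (by decide) (by decide) _ (by simp [h0]) (by simp),
      E1_fDom 6 j 4 (by decide) (by decide) _ (by simp [h0]) (by simp),
      bval_fRel 6 7 3 (by decide) (by decide) (by decide),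
      bval_fRel 6 7 4 (by decide) (by decide) (by decide)]
    simp [iffB]
  unfold g5
  simp only [bval, key]
  rw [eq_top_iff]
  refine le_iInf fun t => le_iInf fun t' => le_iInf fun a => ?_
  simp only [Function.update_self, Function.update_of_ne, ne_eq,
    Nat.reduceEqDiff, not_false_eq_true, OfNat.zero_ne_ofNat, OfNat.one_ne_ofNat, h0, h1]
  refine (E1_W ι s (F := fun t => memB t' (WB ι s) ⇨ (memB a omB ⇨
    AAb (fun j => E1_D j t ⇨ (E1_D j t' ⇨
        iffB (memB (opair (nchk j) a) t) (memB (opair (nchk j) a) t'))))) ?_ (fun i => ?_) t).ge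
  · exact E1_extB_himp (E1_extB_const _) (E1_extB_himp (E1_extB_const _) (E1_extB_AAb fun j =>
      E1_extB_himp (E1_extB_D j) (E1_extB_himp (E1_extB_const _)
        (E1_extB_iffB (extB_memB_right _) (E1_extB_const _)))))
  refine E1_W ι s (F := fun t' => (memB a omB ⇨
    AAb (fun j => E1_D j (tn (s i)) ⇨ (E1_D j t' ⇨
        iffB (memB (opair (nchk j) a) (tn (s i))) (memB (opair (nchk j) a) t'))))) ?_
      (fun i' => ?_) t'
  · exact E1_extB_himp (E1_extB_const _) (E1_extB_AAb fun j =>
      E1_extB_himp (E1_extB_const _) (E1_extB_himp (E1_extB_D j)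
        (E1_extB_iffB (E1_extB_const _) (extB_memB_right _))))
  refine E1_om (F := fun a =>
    AAb (fun j => E1_D j (tn (s i)) ⇨ (E1_D j (tn (s i')) ⇨
        iffB (memB (opair (nchk j) a) (tn (s i))) (memB (opair (nchk j) a) (tn (s i')))))) ?_
      (fun k => ?_) a
  · exact E1_extB_AAb fun j =>
      E1_extB_himp (E1_extB_const _) (E1_extB_himp (E1_extB_const _)
        (E1_extB_iffB (extB_opair_right _ _) (extB_opair_right _ _)))
  simp only [E1_D_tn, memB_tn]
  exact h i i' k

end Pool.Agent.H5Z
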