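import Pool.Agent.Lib.H5Z.D3
import Pool.Agent.Lib.H5Z.D5
import Pool.Agent.Lib.H5Z.D7

/-! Chunk E6: the clause g6 of the gap formula. -/

set_option autoImplicit false

open Set Function

namespace Pool.Agent.H5Z

open BSet Fml

variable {B : Type} [CompleteBooleanAlgebra B]

theorem E6_mem_WB (ι : Type) (s : ι → ℕ → ℕ → B) (i : ι) : memB (tn (s i)) (WB ι s) = ⊤ :=
  top_le_iff.1 (val_le_memB (WB ι s) i)

theorem E6_mem_omB (k : ℕ) : memB (nchk k : BSet B) omB = ⊤ :=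
  top_le_iff.1 (val_le_memB (omB : BSet B) k)

theorem E6_fDom (j t : ℕ) (hj : j < 101) (ht : t < 101) (v : ℕ → BSet B) (h0 : v 0 = omB)
    (σ : ℕ → ℕ → B) (n : ℕ) (hn : v j = nchk n) (hs : v t = tn σ) :
    bval (fDom 0 j t) v = dmB σ n := by
  rw [bval_fDom j t hj ht v h0, hn, hs]
  unfold dmB
  exact iSup_congr fun k => memB_tn σ n k

theorem E6_g6a (ι : Type) (s : ι → ℕ → ℕ → B) (w : ℕ → BSet B) (h0 : w 0 = omB)
    (h1 : w 1 = WB ι s) (i i' : ι) : bval g6a w ≤ AAb (fun j => dmB (s i) j ⇨ (dmB (s i') j ⇨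
      iffB (memB (opair (tn (s i)) (nchk j)) (w 10)) (memB (opair (tn (s i')) (nchk j)) (w 10)))) := by
  set u : ℕ → BSet B := update (update w 3 (tn (s i))) 4 (tn (s i')) with hu
  have u0 : u 0 = omB := by rw [← h0]; rfl
  have u1 : u 1 = WB ι s := by rw [← h1]; rfl
  have u3 : u 3 = tn (s i) := rfl
  have u4 : u 4 = tn (s i') := rfl
  have e1 : bval g6a w ≤ memB (u 3) (u 1) ⇨ (memB (u 4) (u 1) ⇨
      bval (fAA 0 6 (imp (fDom 0 6 3) (imp (fDom 0 6 4) (Fml.iff (fRel 3 6 10) (fRel 4 6 10))))) u) := by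
    change (⨅ a, ⨅ b, bval (imp (mem 3 1) (imp (mem 4 1)
      (fAA 0 6 (imp (fDom 0 6 3) (imp (fDom 0 6 4) (Fml.iff (fRel 3 6 10) (fRel 4 6 10)))))))
      (update (update w 3 a) 4 b)) ≤ _
    exact (iInf_le _ (tn (s i))).trans (iInf_le _ (tn (s i')))
  rw [u1, u3, u4, E6_mem_WB, E6_mem_WB, top_himp, top_himp] at e1
  refine e1.trans (le_of_eq ?_)
  rw [bval_fAA _ (by decide) u u0]
  congr 1
  funext j
  set x := update u 6 (nchk j) with hx
  have x0 : x 0 = omB := by rw [← u0]; rfl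
  have x3 : x 3 = tn (s i) := rfl
  have x4 : x 4 = tn (s i') := rfl
  have x6 : x 6 = nchk j := rfl
  have x10 : x 10 = w 10 := rfl
  change bval (fDom 0 6 3) x ⇨ (bval (fDom 0 6 4) x ⇨ bval (Fml.iff (fRel 3 6 10) (fRel 4 6 10)) x) = _
  rw [E6_fDom 6 3 (by norm_num) (by norm_num) x x0 (s i) j x6 x3,
    E6_fDom 6 4 (by norm_num) (by norm_num) x x0 (s i') j x6 x4, bval_iff,
    bval_fRel 3 6 10 (by decide) (by decide) (by decide),
    bval_fRel 4 6 10 (by decide) (by decide) (by decide), x3, x4, x6, x10]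
  rfl

theorem E6_g6b (ι : Type) (s : ι → ℕ → ℕ → B) (w : ℕ → BSet B) (h0 : w 0 = omB)
    (h1 : w 1 = WB ι s) (h2 : w 2 = TB) (i : ι) (k : ℕ) : bval g6b w ≤ AAb (fun j => s i j k ⇨
      iffB (memB (opair (tn (s i)) (nchk j)) (w 10)) (if Even k then ⊤ else ⊥)) := by
  set u : ℕ → BSet B := update (update w 3 (tn (s i))) 7 (nchk k) with hu
  have u0 : u 0 = omB := by rw [← h0]; rfl
  have u1 : u 1 = WB ι s := by rw [← h1]; rfl
  have u3 : u 3 = tn (s i) := rfl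
  have u7 : u 7 = nchk k := rfl
  have e1 : bval g6b w ≤ memB (u 3) (u 1) ⇨ (memB (u 7) (u 0) ⇨
      bval (fAA 0 6 (imp (fRel 6 7 3) (Fml.iff (fRel 3 6 10) (mem 7 2)))) u) := by
    change (⨅ a, ⨅ b, bval (imp (mem 3 1) (imp (mem 7 0)
      (fAA 0 6 (imp (fRel 6 7 3) (Fml.iff (fRel 3 6 10) (mem 7 2))))))
      (update (update w 3 a) 7 b)) ≤ _
    exact (iInf_le _ (tn (s i))).trans (iInf_le _ (nchk k))
  rw [u1, u3, u7, u0, E6_mem_WB, E6_mem_omB, top_himp, top_himp] at e1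
  refine e1.trans (le_of_eq ?_)
  rw [bval_fAA _ (by decide) u u0]
  congr 1
  funext j
  set x := update u 6 (nchk j) with hx
  have x2 : x 2 = TB := by rw [← h2]; rfl
  have x3 : x 3 = tn (s i) := rfl
  have x6 : x 6 = nchk j := rfl
  have x7 : x 7 = nchk k := rfl
  have x10 : x 10 = w 10 := rfl
  change bval (fRel 6 7 3) x ⇨ bval (Fml.iff (fRel 3 6 10) (mem 7 2)) x = _
  have e2 : bval (mem 7 2) x = if Even k then ⊤ else ⊥ := by
    change memB (x 7) (x 2) = _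
    rw [x7, x2, memB_TB]
  rw [bval_fRel 6 7 3 (by decide) (by decide) (by decide), bval_iff,
    bval_fRel 3 6 10 (by decide) (by decide) (by decide), e2, x3, x6, x7, x10, memB_tn]
  rfl

theorem bval_g6 (ι : Type) (s : ι → ℕ → ℕ → B)
    (h : ∀ d : ι → ℕ → B,
    (⨅ i, ⨅ i', AAb (fun j => dmB (s i) j ⇨ (dmB (s i') j ⇨ iffB (d i j) (d i' j)))) ⊓
      (⨅ i, ⨅ k : ℕ, AAb (fun j => s i j k ⇨ iffB (d i j) (if Even k then ⊤ else ⊥))) = ⊥)
    (v : ℕ → BSet B) (h0 : v 0 = omB) (h1 : v 1 = WB ι s) (h2 : v 2 = TB) : bval g6 v = ⊤ := by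
  change (⨅ D, bval (neg (conj g6a g6b)) (update v 10 D)) = ⊤
  rw [iInf_eq_top]
  intro D
  rw [bval_neg, bval_conj, compl_eq_top, ← le_bot_iff]
  set w := update v 10 D with hw
  have w0 : w 0 = omB := by rw [← h0]; rfl
  have w1 : w 1 = WB ι s := by rw [← h1]; rfl
  have w2 : w 2 = TB := by rw [← h2]; rfl
  rw [← h (fun i j => memB (opair (tn (s i)) (nchk j)) (w 10))]
  exact inf_le_inf (le_iInf fun i => le_iInf fun i' => E6_g6a ι s w w0 w1 i i')
    (le_iInf fun i => le_iInf fun k => E6_g6b ι s w w0 w1 w2 i k)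

end Pool.Agent.H5Z
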