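import Pool.Agent.Lib.H5Z.DS
import Pool.Agent.Lib.H5Z.D6
import Pool.Agent.Lib.H5Z.E1
import Pool.Agent.Lib.H5Z.E2
import Pool.Agent.Lib.H5Z.E3
import Pool.Agent.Lib.H5Z.E4
import Pool.Agent.Lib.H5Z.E5
import Pool.Agent.Lib.H5Z.E6
import Pool.Agent.Lib.H5Z.C4

/-! Chunk E7: the gap property in the quotient. -/

set_option autoImplicit false

open Set Function

namespace Pool.Agent.H5Z

open BSet Fml

variable {B : Type} [CompleteBooleanAlgebra B]

theorem gapIn_quot (U : UF B) (ι : Type) (s : ι → ℕ → ℕ → B) (h : IsBGap ι s) :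
    GapIn (EU U) := by
  let v0 : ℕ → BSet B := fun n => if n = 0 then omB else if n = 1 then WB ι s else TB
  have hb : bval gBody v0 = ⊤ := by
    unfold gBody
    rw [bval_conj, bval_conj, bval_conj, bval_conj, bval_conj, bval_conj,
      bval_fOmega v0 rfl, bval_g1 ι s h.func v0 rfl rfl, bval_g2 ι s h.dir v0 rfl rfl,
      bval_g3 ι s h.coinf v0 rfl rfl, bval_g4 ι s h.ult v0 rfl rfl,
      bval_g5 ι s h.coh v0 rfl rfl, bval_g6 ι s h.noD v0 rfl rfl rfl]
    simp
  have h1 : Sat (EU U) gBody (fun i => cls U (v0 i)) := (los U gBody v0).2 (by rw [hb]; exact U.top)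
  rw [← sat_gGap (EU U) (fun i => cls U (v0 i)), gGap, sat_ex]
  refine ⟨cls U (v0 0), ?_⟩
  rw [sat_ex]
  refine ⟨cls U (v0 1), ?_⟩
  rw [sat_ex]
  refine ⟨cls U (v0 2), ?_⟩
  have e0 : update (fun i => cls U (v0 i)) 0 (cls U (v0 0)) = fun i => cls U (v0 i) :=
    update_eq_self 0 (fun i => cls U (v0 i))
  have e1 : update (fun i => cls U (v0 i)) 1 (cls U (v0 1)) = fun i => cls U (v0 i) :=
    update_eq_self 1 (fun i => cls U (v0 i))
  have e2 : update (fun i => cls U (v0 i)) 2 (cls U (v0 2)) = fun i => cls U (v0 i) :=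
    update_eq_self 2 (fun i => cls U (v0 i))
  rw [e0, e1, e2]
  exact h1

end Pool.Agent.H5Z
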