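import Pool.Agent.Lib.H5Z.C2
import Pool.Agent.Lib.H5Z.C4

/-! Chunk Z1: extensionality in the quotient (use ext_le, iInf_mem_iff). -/

set_option autoImplicit false

open Set Function

namespace Pool.Agent.H5Z

open BSet

variable {B : Type} [CompleteBooleanAlgebra B]

theorem Z1_ext_himp {F G : BSet B → B} (hF : ExtB F) (hG : ExtB G) :
    ExtB (fun a => F a ⇨ G a) := by
  intro a a'
  change eqB a a' ⊓ (F a ⇨ G a) ≤ F a' ⇨ G a'
  rw [le_himp_iff]
  have h1 : eqB a a' ⊓ (F a ⇨ G a) ⊓ F a' ≤ F a :=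
    le_trans (le_inf (by rw [eqB_symm]; exact inf_le_left.trans inf_le_left) inf_le_right)
      (hF a' a)
  have h2 : eqB a a' ⊓ (F a ⇨ G a) ⊓ F a' ≤ G a :=
    (le_inf (inf_le_left.trans inf_le_right) h1).trans himp_inf_le
  exact (le_inf (inf_le_left.trans inf_le_left) h2).trans (hG a a')

theorem Z1_ext_inf {F G : BSet B → B} (hF : ExtB F) (hG : ExtB G) :
    ExtB (fun a => F a ⊓ G a) := by
  intro a a'
  change eqB a a' ⊓ (F a ⊓ G a) ≤ F a' ⊓ G a'
  refine le_inf ?_ ?_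
  · exact (le_inf inf_le_left (inf_le_right.trans inf_le_left)).trans (hF a a')
  · exact (le_inf inf_le_left (inf_le_right.trans inf_le_right)).trans (hG a a')

theorem z_ext (U : UF B) : ∀ x y : Mod U, (∀ z, EU U z x ↔ EU U z y) → x = y := by
  intro x y h
  obtain ⟨x, rfl⟩ := exists_cls U x
  obtain ⟨y, rfl⟩ := exists_cls U y
  rw [cls_eq]
  refine U.up _ _ ?_ (ext_le x y)
  rw [iInf_mem_iff U _ (Z1_ext_inf (Z1_ext_himp (extB_memB_left x) (extB_memB_left y))
    (Z1_ext_himp (extB_memB_left y) (extB_memB_left x)))]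
  intro z
  rw [U.inf_mem, U.himp_mem, U.himp_mem]
  have := h (cls U z)
  rw [EU_cls, EU_cls] at this
  exact ⟨this.1, this.2⟩

end Pool.Agent.H5Z
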