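import Pool.Agent.Lib.H5Z.Z1
import Pool.Agent.Lib.H5Z.Z2
import Pool.Agent.Lib.H5Z.Z3
import Pool.Agent.Lib.H5Z.Z4
import Pool.Agent.Lib.H5Z.Z5
import Pool.Agent.Lib.H5Z.Z7
import Pool.Agent.Lib.H5Z.Z8
import Pool.Agent.Lib.H5Z.Z9
import Pool.Agent.Lib.H5Z.Z6
import Pool.Agent.Lib.H5Z.E7
import Pool.Agent.Lib.H5Z.C5
import Pool.Agent.Lib.H5Z.BMain
import Pool.Agent.Lib.H5Z.A4

/-! The model of ZFC with the gap property, and the final theorem. -/

set_option autoImplicit false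

open Set Function

namespace Pool.Agent.H5Z

theorem modelsZFC {B : Type} [CompleteBooleanAlgebra B] (U : UF B) : ModelsZFC (EU U) where
  ext := z_ext U
  found := z_found U
  pair := z_pair U
  union := z_union U
  power := z_power U
  inf := z_inf U
  sep := z_sep U
  repl := z_repl U
  choice := z_choice U

theorem exists_model : ∃ (M : Type 1) (E : M → M → Prop), ModelsZFC E ∧ GapIn E := by
  obtain ⟨B, _, _, ι, s, h⟩ := exists_bgap
  obtain ⟨U⟩ := exists_UF B
  exact ⟨Mod U, EU U, modelsZFC U, gapIn_quot U ι s h⟩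

theorem main : (∃ (M : Type 1) (E : M → M → Prop), ModelsZFC E ∧ GapIn E) ∧
    (GapIn (fun x y : ZFSet.{0} => x ∈ y) →
      ∃ x : OmegaStar, ¬ IsParovicenko (StoneCech {y : OmegaStar // y ≠ x})) :=
  ⟨exists_model, not_parovicenko_of_gapIn⟩

end Pool.Agent.H5Z
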